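import Pool.Agent.K9h80.GQ.Pert

/-!
# The inequalities for the perturbed systems
-/

set_option autoImplicit false

open MeasureTheory Finset Filter Topology

namespace Pool.Agent.K9h80.GQ

variable {m : ℕ} {σ τ : Measure ℝ} {π : Measure (Vec m)} {β ε : ℝ}

theorem pos_sq_ge {a b : ℝ} (ha : 0 ≤ a) (hb : 0 ≤ b) : a ^ 2 - 2 * (a * b) ≤ (max (a - b) 0) ^ 2 := by
  rcases le_total b a with h | h
  · rw [max_eq_left (by linarith)]; nlinarith [sq_nonneg b]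
  · rw [max_eq_right (by linarith)]; nlinarith

theorem ae_jl' (hs : Sys m σ τ) (hπ : IsProbabilityMeasure π)
    (hw : ∀ᵐ w ∂π, Monotone w ∧ ∀ i, 0 ≤ w i) : ∀ᵐ p ∂(jl σ τ π),
    (Monotone p.1 ∧ ∀ i, 0 ≤ p.1 i) ∧ 0 ≤ p.2.1 ∧ 0 ≤ p.2.2 := by
  have := hs.pσ; have := hs.pτ
  have h1 : ∀ᵐ p ∂(jl σ τ π), Monotone p.1 ∧ ∀ i, 0 ≤ p.1 i :=
    Measure.quasiMeasurePreserving_fst.ae hw
  have h2 : ∀ᵐ z ∂(σ.prod τ), 0 ≤ z.1 := Measure.quasiMeasurePreserving_fst.ae hs.s0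
  have h3 : ∀ᵐ z ∂(σ.prod τ), 0 ≤ z.2 := Measure.quasiMeasurePreserving_snd.ae hs.t0
  have h4 : ∀ᵐ p ∂(jl σ τ π), 0 ≤ p.2.1 ∧ 0 ≤ p.2.2 :=
    Measure.quasiMeasurePreserving_snd.ae (h2.and h3)
  exact h1.and h4

theorem asE (hs : Sys m σ τ) (hβ : 0 < β) (h0 : 0 < ε) (h1 : ε < 1 / β)
    (hπ : IsStat (perturb σ β ε) τ π) {K : ℝ} (hK : 0 ≤ K) :
    ε ^ 2 / (1 + ε ^ 2) * ((1 + β / ε) ^ 2 * ∫ s, s ^ 2 ∂σ)
      - ε ^ 2 / (1 + ε ^ 2) * (2 * (1 + β / ε)) * ((∫ s, s ∂σ) * ((m + 1) * ∫ t, t ∂τ + K))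
      ≤ 2 * ((m + 1) * ∫ t, t ∂τ - ∫ s, s ∂σ) * ∫ w, max (tot w - K) 0 ∂π := by
  have hs' := sys_perturb hs hβ h0 h1
  have hE := ineqE hs' hπ hK
  have htot := tot_perturb hs hβ h0 h1 hπ
  rw [mean_perturb h0.ne' (igr_s hs)] at hE
  refine le_trans ?_ hE
  have mF : Measurable (fun p : Vec m × (ℝ × ℝ) =>
      (max (p.2.1 - (m + 1) * p.2.2 - K) 0) ^ 2) :=
    (((meas_s.sub (meas_t.const_mul _)).sub measurable_const).max measurable_const).pow_const 2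
  have i3 : Integrable (fun p : Vec m × (ℝ × ℝ) =>
      (max (p.2.1 - (m + 1) * p.2.2 - K) 0) ^ 2) (jl (perturb σ β ε) τ π) := by
    refine igr_of_sq hs' hπ mF ?_
    intro w s t _ _ h1 h2
    refine ⟨sq_nonneg _, pow_le_pow_left₀ (le_max_right _ _) (max_le ?_ h1) 2⟩
    have : 0 ≤ ((m : ℝ) + 1) * t := by positivity
    linarith
  obtain ⟨_, j2, e⟩ := mix hs.pσ hs.pτ hπ.1 h0 mF i3
  rw [e]
  obtain ⟨l1, l2⟩ := lin hs hπ.1 htot.1 ((1 + β / ε) ^ 2) (-(2 * (1 + β / ε) * (m + 1))) 0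
    (-(2 * (1 + β / ε) * K)) 0
  have hg : 0 < 1 + β / ε := by positivity
  have h2 : ∫ p, ((1 + β / ε) ^ 2 * p.2.1 ^ 2 + (-(2 * (1 + β / ε) * (m + 1))) * (p.2.1 * p.2.2)
      + 0 * p.2.2 ^ 2 + (-(2 * (1 + β / ε) * K)) * p.2.1 + 0 * (tot p.1 * p.2.1)) ∂(jl σ τ π)
      ≤ ∫ p : Vec m × (ℝ × ℝ),
        (max (p.2.1 * (1 + β / ε) - (m + 1) * p.2.2 - K) 0) ^ 2 ∂(jl σ τ π) := by
    refine integral_mono_ae l1 j2 ?_
    filter_upwards [ae_jl' hs hπ.1 hπ.2.1] with p hp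
    have h3 := pos_sq_ge (a := p.2.1 * (1 + β / ε)) (b := (m + 1) * p.2.2 + K)
      (mul_nonneg hp.2.1 hg.le) (by have := hp.2.2; positivity)
    rw [show p.2.1 * (1 + β / ε) - ((m + 1) * p.2.2 + K)
      = p.2.1 * (1 + β / ε) - (m + 1) * p.2.2 - K by ring] at h3
    refine le_trans (le_of_eq ?_) h3
    ring
  rw [l2] at h2
  have h3 : 0 ≤ ∫ p : Vec m × (ℝ × ℝ),
      (max (p.2.1 * (1 - β * ε) - (m + 1) * p.2.2 - K) 0) ^ 2 ∂(jl σ τ π) :=
    integral_nonneg fun p => sq_nonneg _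
  have h4 := mul_nonneg (w1_pos ε).le h3
  have h5 := mul_le_mul_of_nonneg_left h2 (w2_pos h0).le
  refine le_trans (le_of_eq ?_) (add_le_add h4 h5)
  ring

theorem asC (hs : Sys m σ τ) (hβ : 0 < β) (h0 : 0 < ε) (h1 : ε < 1 / β)
    (hπ : IsStat (perturb σ β ε) τ π) {K : ℝ} (hK : 0 ≤ K) :
    ε ^ 2 / (1 + ε ^ 2) * ((1 + β / ε) ^ 2 * ∫ s, s ^ 2 ∂σ)
      - ε ^ 2 / (1 + ε ^ 2) * (2 * (1 + β / ε)) * ((∫ s, s ∂σ) * (AP m σ τ β + ∫ t, t ∂τ + K))
      + 2 * ∫ p, max (lst p.1 - K) 0 * max (p.2.1 - (lst p.1 - p.1 0)) 0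
          ∂(jl (perturb σ β ε) τ π)
      ≤ 2 * (∫ t, t ∂τ) * ∫ w, max (lst w - K) 0 ∂π := by
  have hs' := sys_perturb hs hβ h0 h1
  have hE := ineqC hs' hπ hK
  have htot := tot_perturb hs hβ h0 h1 hπ
  refine le_trans (add_le_add ?_ le_rfl) hE
  have mF : Measurable (fun p : Vec m × (ℝ × ℝ) =>
      (max (p.2.1 - tot p.1 - p.2.2 - K) 0) ^ 2) :=
    ((((meas_s.sub (meas_w measurable_tot)).sub meas_t).sub measurable_const).max
        measurable_const).pow_const 2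
  have i3 : Integrable (fun p : Vec m × (ℝ × ℝ) =>
      (max (p.2.1 - tot p.1 - p.2.2 - K) 0) ^ 2) (jl (perturb σ β ε) τ π) := by
    refine igr_of_sq hs' hπ mF ?_
    intro w s t _ hw h1 h2
    refine ⟨sq_nonneg _, pow_le_pow_left₀ (le_max_right _ _) (max_le ?_ h1) 2⟩
    have := tot_nonneg hw
    linarith
  obtain ⟨_, j2, e⟩ := mix hs.pσ hs.pτ hπ.1 h0 mF i3
  rw [e]
  obtain ⟨l1, l2⟩ := lin hs hπ.1 htot.1 ((1 + β / ε) ^ 2) (-(2 * (1 + β / ε))) 0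
    (-(2 * (1 + β / ε) * K)) (-(2 * (1 + β / ε)))
  have hg : 0 < 1 + β / ε := by positivity
  have h2 : ∫ p, ((1 + β / ε) ^ 2 * p.2.1 ^ 2 + (-(2 * (1 + β / ε))) * (p.2.1 * p.2.2)
      + 0 * p.2.2 ^ 2 + (-(2 * (1 + β / ε) * K)) * p.2.1
      + (-(2 * (1 + β / ε))) * (tot p.1 * p.2.1)) ∂(jl σ τ π)
      ≤ ∫ p : Vec m × (ℝ × ℝ),
        (max (p.2.1 * (1 + β / ε) - tot p.1 - p.2.2 - K) 0) ^ 2 ∂(jl σ τ π) := by
    refine integral_mono_ae l1 j2 ?_
    filter_upwards [ae_jl' hs hπ.1 hπ.2.1] with p hp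
    have h3 := pos_sq_ge (a := p.2.1 * (1 + β / ε)) (b := tot p.1 + p.2.2 + K)
      (mul_nonneg hp.2.1 hg.le) (by have := hp.2.2; have := tot_nonneg hp.1.2; positivity)
    rw [show p.2.1 * (1 + β / ε) - (tot p.1 + p.2.2 + K)
      = p.2.1 * (1 + β / ε) - tot p.1 - p.2.2 - K by ring] at h3
    refine le_trans (le_of_eq ?_) h3
    ring
  rw [l2] at h2
  have h3 : 0 ≤ ∫ p : Vec m × (ℝ × ℝ),
      (max (p.2.1 * (1 - β * ε) - tot p.1 - p.2.2 - K) 0) ^ 2 ∂(jl σ τ π) :=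
    integral_nonneg fun p => sq_nonneg _
  have h4 := mul_nonneg (w1_pos ε).le h3
  have h5 := mul_le_mul_of_nonneg_left h2 (w2_pos h0).le
  have h6 : (∫ w, tot w ∂π) * ∫ s, s ∂σ ≤ AP m σ τ β * ∫ s, s ∂σ :=
    mul_le_mul_of_nonneg_right htot.2 (mean_s_nonneg hs)
  have h7 : ε ^ 2 / (1 + ε ^ 2) * (2 * (1 + β / ε)) * ((∫ w, tot w ∂π) * ∫ s, s ∂σ)
      ≤ ε ^ 2 / (1 + ε ^ 2) * (2 * (1 + β / ε)) * (AP m σ τ β * ∫ s, s ∂σ) :=
    mul_le_mul_of_nonneg_left h6 (by positivity)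
  linarith

/-- The combined bound for the largest workload. -/
theorem asCD (hs : Sys m σ τ) (hβ : 0 < β) (h0 : 0 < ε) (h1 : ε < 1 / β)
    (hπ : IsStat (perturb σ β ε) τ π) {K : ℝ} (hK : 0 ≤ K) :
    m / 2 * (ε ^ 2 / (1 + ε ^ 2) * ((1 + β / ε) ^ 2 * ∫ s, s ^ 2 ∂σ)
      - ε ^ 2 / (1 + ε ^ 2) * (2 * (1 + β / ε)) * ((∫ s, s ∂σ) * (AP m σ τ β + ∫ t, t ∂τ + K)))
      + max (∫ s, s ∂σ - m * ∫ t, t ∂τ) 0 * ∫ w, max (rest w - m * K) 0 ∂π
      ≤ m * (∫ t, t ∂τ) * ∫ w, max (lst w - K) 0 ∂π := by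
  have hs' := sys_perturb hs hβ h0 h1
  have hC := asC hs hβ h0 h1 hπ hK
  have hD := ineqD hs' hπ (K := m * K) (by positivity)
  rw [mean_perturb h0.ne' (igr_s hs)] at hD
  have hm : (0 : ℝ) ≤ m := Nat.cast_nonneg m
  have mZ : Measurable (fun p : Vec m × (ℝ × ℝ) => max (p.2.1 - (lst p.1 - p.1 0)) 0) :=
    (meas_s.sub ((meas_w measurable_lst).sub (meas_w (measurable_pi_apply 0)))).max
      measurable_const
  have mM : Measurable (fun w : Vec m => max (lst w - K) 0) :=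
    (measurable_lst.sub measurable_const).max measurable_const
  have i1 : Integrable (fun p : Vec m × (ℝ × ℝ) =>
      max (lst p.1 - K) 0 * max (p.2.1 - (lst p.1 - p.1 0)) 0) (jl (perturb σ β ε) τ π) := by
    refine igr_of_ts hs' hπ ((meas_w mM).mul mZ) ?_
    intro w s t hmon hw h1 h2
    refine ⟨mul_nonneg (le_max_right _ _) (le_max_right _ _), ?_⟩
    refine mul_le_mul ?_ (max_le (by linarith [zero_le_lst hmon]) h1) (le_max_right _ _)
      (tot_nonneg hw)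
    exact max_le (by have := le_tot hw (Fin.last m); simp only [lst]; linarith) (tot_nonneg hw)
  have mM' : Measurable (fun w : Vec m => max (rest w - m * K) 0) :=
    (measurable_rest.sub measurable_const).max measurable_const
  have hmK : 0 ≤ (m : ℝ) * K := by positivity
  have i2 : Integrable (fun p : Vec m × (ℝ × ℝ) =>
      max (rest p.1 - m * K) 0 * max (p.2.1 - (lst p.1 - p.1 0)) 0)
      (jl (perturb σ β ε) τ π) := by
    refine igr_of_ts hs' hπ ((meas_w mM').mul mZ) ?_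
    intro w s t hmon hw h1 h2
    refine ⟨mul_nonneg (le_max_right _ _) (le_max_right _ _), ?_⟩
    refine mul_le_mul ?_ (max_le (by linarith [zero_le_lst hmon]) h1) (le_max_right _ _)
      (tot_nonneg hw)
    exact max_le (by linarith [rest_le hw]) (tot_nonneg hw)
  have h2 : ∫ p, max (rest p.1 - m * K) 0 * max (p.2.1 - (lst p.1 - p.1 0)) 0
        ∂(jl (perturb σ β ε) τ π)
      ≤ m * ∫ p, max (lst p.1 - K) 0 * max (p.2.1 - (lst p.1 - p.1 0)) 0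
        ∂(jl (perturb σ β ε) τ π) := by
    rw [← integral_const_mul]
    refine integral_mono_ae i2 (i1.const_mul _) ?_
    filter_upwards [ae_jl hs' hπ] with p hp
    have h3 : max (rest p.1 - m * K) 0 ≤ m * max (lst p.1 - K) 0 := by
      refine max_le ?_ (mul_nonneg hm (le_max_right _ _))
      have h4 := rest_le_mul hp.1.1
      have h5 : (m : ℝ) * (lst p.1 - K) ≤ m * max (lst p.1 - K) 0 :=
        mul_le_mul_of_nonneg_left (le_max_left _ _) hm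
      nlinarith
    have h4 := mul_le_mul_of_nonneg_right h3 (le_max_right (p.2.1 - (lst p.1 - p.1 0)) 0)
    refine h4.trans (le_of_eq ?_)
    ring
  have h3 : 0 ≤ ∫ p, max (rest p.1 - m * K) 0 * max (p.2.1 - (lst p.1 - p.1 0)) 0
        ∂(jl (perturb σ β ε) τ π) :=
    integral_nonneg fun p => mul_nonneg (le_max_right _ _) (le_max_right _ _)
  have h4 : 0 ≤ ∫ w, max (rest w - m * K) 0 ∂π := integral_nonneg fun w => le_max_right _ _
  have h5 : max (∫ s, s ∂σ - m * ∫ t, t ∂τ) 0 * ∫ w, max (rest w - m * K) 0 ∂π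
      ≤ ∫ p, max (rest p.1 - m * K) 0 * max (p.2.1 - (lst p.1 - p.1 0)) 0
        ∂(jl (perturb σ β ε) τ π) := by
    rcases le_total (∫ s, s ∂σ - m * ∫ t, t ∂τ) 0 with h | h
    · rw [max_eq_right h, zero_mul]; exact h3
    · rw [max_eq_left h]; exact hD
  have h6 := mul_le_mul_of_nonneg_left hC (by positivity : (0 : ℝ) ≤ m / 2)
  linarith

/-- The bound of the tail contributions. -/
noncomputable def Rt (m : ℕ) (σ τ : Measure ℝ) (β K : ℝ) : ℝ :=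
  2 / K * AP m σ τ β * ∫ z, (z.1 + (m + 1) * z.2) ^ 2 ∂(σ.prod τ)
    + ∫ z, (if K / 2 < z.1 then (z.1 + (m + 1) * z.2) ^ 2 else 0) ∂(σ.prod τ)

theorem igr_H (hs : Sys m σ τ) :
    Integrable (fun z : ℝ × ℝ => (z.1 + (m + 1) * z.2) ^ 2) (σ.prod τ) := by
  have h1 := ((igr_zs hs hs.s2).add ((igr_zst hs).const_mul (2 * (m + 1)))).add
    ((igr_zt hs hs.t2).const_mul ((m + 1) ^ 2))
  refine h1.congr (Eventually.of_forall fun z => ?_)
  simp only [Pi.add_apply]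
  ring

theorem igr_Ht (hs : Sys m σ τ) (K : ℝ) :
    Integrable (fun z : ℝ × ℝ => if K / 2 < z.1 then (z.1 + (m + 1) * z.2) ^ 2 else 0)
      (σ.prod τ) := by
  refine (igr_H hs).mono' ?_ (Eventually.of_forall fun z => ?_)
  · refine (Measurable.ite (measurableSet_lt measurable_const measurable_fst) ?_
      measurable_const).aestronglyMeasurable
    fun_prop
  · rw [Real.norm_eq_abs]
    split_ifs
    · rw [abs_of_nonneg (sq_nonneg _)]
    · rw [abs_zero]; exact sq_nonneg _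

/-- The tail term. -/
noncomputable def HK (m : ℕ) (K : ℝ) (p : Vec m × (ℝ × ℝ)) : ℝ :=
  if K < tot p.1 + p.2.1 then (p.2.1 + (m + 1) * p.2.2) ^ 2 else 0

theorem measurable_HK (K : ℝ) : Measurable (HK m K) := by
  refine Measurable.ite (measurableSet_lt measurable_const
    ((meas_w measurable_tot).add meas_s)) ?_ measurable_const
  exact (meas_s.add (meas_t.const_mul _)).pow_const 2

theorem HK_nonneg (K : ℝ) (p : Vec m × (ℝ × ℝ)) : 0 ≤ HK m K p := by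
  unfold HK; split_ifs
  · exact sq_nonneg _
  · exact le_rfl

theorem HK_le (K : ℝ) (p : Vec m × (ℝ × ℝ)) : HK m K p ≤ (p.2.1 + (m + 1) * p.2.2) ^ 2 := by
  unfold HK; split_ifs
  · exact le_rfl
  · exact sq_nonneg _

theorem igr_HK (hs : Sys m σ τ) (hπ : IsProbabilityMeasure π) (K : ℝ) :
    Integrable (HK m K) (jl σ τ π) := by
  have := hs.pσ; have := hs.pτ
  refine ((igr_H hs).comp_snd π).mono' (measurable_HK K).aestronglyMeasurable
    (Eventually.of_forall fun p => ?_)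
  rw [Real.norm_eq_abs, abs_of_nonneg (HK_nonneg K p)]
  exact HK_le K p

theorem int_HK (hs : Sys m σ τ) (hπ : IsProbabilityMeasure π)
    (hw : ∀ᵐ w ∂π, Monotone w ∧ ∀ i, 0 ≤ w i) (ht : Integrable tot π)
    (hAP : ∫ w, tot w ∂π ≤ AP m σ τ β) {K : ℝ} (hK : 0 < K) :
    ∫ p, HK m K p ∂(jl σ τ π) ≤ Rt m σ τ β K := by
  have := hs.pσ; have := hs.pτ
  have k1 : Integrable (fun p : Vec m × (ℝ × ℝ) =>
      tot p.1 * (p.2.1 + (m + 1) * p.2.2) ^ 2) (jl σ τ π) := ht.mul_prod (igr_H hs)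
  have k2 : Integrable (fun p : Vec m × (ℝ × ℝ) =>
      if K / 2 < p.2.1 then (p.2.1 + (m + 1) * p.2.2) ^ 2 else 0) (jl σ τ π) :=
    (igr_Ht hs K).comp_snd π
  have h1 : ∫ p, HK m K p ∂(jl σ τ π) ≤ ∫ p, (2 / K * (tot p.1 * (p.2.1 + (m + 1) * p.2.2) ^ 2)
      + (if K / 2 < p.2.1 then (p.2.1 + (m + 1) * p.2.2) ^ 2 else 0)) ∂(jl σ τ π) := by
    refine integral_mono_ae (igr_HK hs hπ K) ((k1.const_mul _).add k2) ?_
    filter_upwards [ae_jl' hs hπ hw] with p hp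
    have hV := tot_nonneg hp.1.2
    have hH : 0 ≤ (p.2.1 + (m + 1) * p.2.2) ^ 2 := sq_nonneg _
    have h2 : 0 ≤ 2 / K * (tot p.1 * (p.2.1 + (m + 1) * p.2.2) ^ 2) := by positivity
    unfold HK
    by_cases hc : K / 2 < p.2.1
    · rw [if_pos hc]
      split_ifs
      · linarith
      · linarith
    · rw [if_neg hc, add_zero]
      split_ifs with hd
      · have h3 : 1 ≤ 2 / K * tot p.1 := by
          rw [div_mul_eq_mul_div, le_div_iff₀ hK]; linarith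
        nlinarith
      · exact h2
  have e1 := integral_add (k1.const_mul (2 / K)) k2
  rw [e1, integral_const_mul, integral_prod_mul tot (fun z : ℝ × ℝ => (z.1 + (m + 1) * z.2) ^ 2),
    integral_fun_snd (fun z : ℝ × ℝ => if K / 2 < z.1 then (z.1 + (m + 1) * z.2) ^ 2 else 0)] at h1
  simp only [probReal_univ, one_smul] at h1
  refine h1.trans ?_
  rw [Rt]
  refine add_le_add ?_ le_rfl
  have h2 : 0 ≤ ∫ z, (z.1 + (m + 1) * z.2) ^ 2 ∂(σ.prod τ) := integral_nonneg fun z => sq_nonneg _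
  have h3 := mul_le_mul_of_nonneg_right hAP h2
  have h4 := mul_le_mul_of_nonneg_left h3 (by positivity : 0 ≤ 2 / K)
  linarith

/-- The sum of the means above a level. -/
theorem asB (hs : Sys m σ τ) (hβ : 0 < β) (h0 : 0 < ε) (h1 : ε < 1 / β)
    (hπ : IsStat (perturb σ β ε) τ π) {K : ℝ} (hK : 0 < K) :
    2 * (∫ t, t ∂τ) * (∑ i, ∫ w, max (w i - K) 0 ∂π)
      - 2 * (∫ s, s ∂σ) * ∫ w, max (w 0 - K) 0 ∂π
      ≤ Rt m σ τ β K + ε ^ 2 / (1 + ε ^ 2) * ((1 + β / ε) ^ 2 * ∫ s, s ^ 2 ∂σ)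
        + ε ^ 2 / (1 + ε ^ 2) * (2 * (1 + β / ε)) * ((m + 1) * ((∫ s, s ∂σ) * ∫ t, t ∂τ))
        + ε ^ 2 / (1 + ε ^ 2) * ((m + 1) ^ 2 * ∫ t, t ^ 2 ∂τ) := by
  have hs' := sys_perturb hs hβ h0 h1
  have htot := tot_perturb hs hβ h0 h1 hπ
  have hπp := hπ.1
  have mi : ∀ i : Fin (m + 1), Measurable (fun w : Vec m => max (w i - K) 0) := fun i =>
    ((measurable_pi_apply i).sub measurable_const).max measurable_const
  have ii : ∀ i : Fin (m + 1), Integrable (fun w : Vec m => max (w i - K) 0) π := fun i =>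
    igr_of_le hs' hπ (mi i) fun w _ hw =>
      ⟨le_max_right _ _, max_le (by linarith [le_tot hw i]) (tot_nonneg hw)⟩
  have iS : Integrable (fun w : Vec m => ∑ i, max (w i - K) 0) π :=
    integrable_finsetSum _ fun i _ => ii i
  have k1 := igr_mul hs' hπ (ii 0) (igr_zs hs' (igr_s hs'))
  have k2 := igr_mul hs' hπ iS (igr_zt hs' (igr_t hs'))
  have k3 := igr_HK (π := π) hs' hπp K
  have key := drift_ge hs' hπ (f := fun w => ∑ i, (max (w i - K) 0) ^ 2)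
    (Finset.measurable_sum _ fun i _ => (mi i).pow_const 2) (2 * (m + 1)) ?_
    (L := fun p => 2 * (max (p.1 0 - K) 0 * p.2.1) - 2 * ((∑ i, max (p.1 i - K) 0) * p.2.2)
      + HK m K p)
    (((k1.const_mul 2).sub (k2.const_mul 2)).add k3) ?_
  · have e1 := integral_add ((k1.const_mul 2).sub (k2.const_mul 2)) k3
    have e2 := integral_sub (k1.const_mul 2) (k2.const_mul 2)
    simp only [Pi.sub_apply] at e1 e2
    rw [e1, e2, integral_const_mul, integral_const_mul,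
      int_mul_s hs' hπ (fun w => max (w 0 - K) 0),
      int_mul_t hs' hπ (fun w => ∑ i, max (w i - K) 0), mean_perturb h0.ne' (igr_s hs),
      integral_finsetSum _ (fun i _ => ii i)] at key
    obtain ⟨j1, j2, e⟩ := mix hs.pσ hs.pτ hπ.1 h0 (measurable_HK K) k3
    rw [e] at key
    obtain ⟨l1, l2⟩ := lin hs hπ.1 htot.1 ((1 + β / ε) ^ 2) (2 * (1 + β / ε) * (m + 1))
      ((m + 1) ^ 2) 0 0
    have hg : 0 < 1 + β / ε := by positivity
    have hlt := mul_lt hβ h1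
    have hβε : 0 < β * ε := by positivity
    have b1 : ∫ p : Vec m × (ℝ × ℝ), HK m K (p.1, (p.2.1 * (1 - β * ε), p.2.2)) ∂(jl σ τ π)
        ≤ Rt m σ τ β K := by
      refine le_trans ?_ (int_HK hs hπ.1 hπ.2.1 htot.1 htot.2 hK)
      refine integral_mono_ae j1 (igr_HK hs hπ.1 K) ?_
      filter_upwards [ae_jl' hs hπ.1 hπ.2.1] with p hp
      have h3 : p.2.1 * (1 - β * ε) ≤ p.2.1 := by nlinarith [hp.2.1]
      have h3' : 0 ≤ p.2.1 * (1 - β * ε) := mul_nonneg hp.2.1 (by linarith)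
      have h4 : 0 ≤ ((m : ℝ) + 1) * p.2.2 := by have := hp.2.2; positivity
      unfold HK
      simp only
      by_cases hd : K < tot p.1 + p.2.1 * (1 - β * ε)
      · rw [if_pos hd, if_pos (by linarith)]
        exact pow_le_pow_left₀ (by linarith) (by linarith) 2
      · rw [if_neg hd]
        exact HK_nonneg K p
    have b2 : ∫ p : Vec m × (ℝ × ℝ), HK m K (p.1, (p.2.1 * (1 + β / ε), p.2.2)) ∂(jl σ τ π)
        ≤ ∫ p, ((1 + β / ε) ^ 2 * p.2.1 ^ 2 + (2 * (1 + β / ε) * (m + 1)) * (p.2.1 * p.2.2)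
      + (m + 1) ^ 2 * p.2.2 ^ 2 + 0 * p.2.1 + 0 * (tot p.1 * p.2.1)) ∂(jl σ τ π) := by
      refine integral_mono j2 l1 fun p => ?_
      refine (HK_le K _).trans (le_of_eq ?_)
      simp only
      ring
    rw [l2] at b2
    have b3 : 1 / (1 + ε ^ 2) * ∫ p : Vec m × (ℝ × ℝ),
        HK m K (p.1, (p.2.1 * (1 - β * ε), p.2.2)) ∂(jl σ τ π) ≤ Rt m σ τ β K := by
      have h2 : 0 ≤ ∫ p : Vec m × (ℝ × ℝ),
          HK m K (p.1, (p.2.1 * (1 - β * ε), p.2.2)) ∂(jl σ τ π) :=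
        integral_nonneg fun p => HK_nonneg K _
      have h3 : 1 / (1 + ε ^ 2) ≤ 1 := by
        rw [div_le_one (by positivity)]; nlinarith [sq_nonneg ε]
      nlinarith
    have b4 := mul_le_mul_of_nonneg_left b2 (w2_pos h0).le
    linarith
  · intro w s t hmon hw h1 h2
    exact sq_step_abs hK.le hw h1 h2
  · intro w s t hmon hw h1 h2
    exact sq_step_le hK.le hw h1 h2

end Pool.Agent.K9h80.GQ
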