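import Pool.Agent.K9h80.GQ.Asym

/-!
# The upper bound for the smallest workload in the perturbed systems
-/

set_option autoImplicit false

open MeasureTheory Finset Filter Topology

namespace Pool.Agent.K9h80.GQ

variable {m : ℕ} {σ τ : Measure ℝ} {π : Measure (Vec m)} {β ε : ℝ}

theorem asF (hs : Sys m σ τ) (hβ : 0 < β) (h0 : 0 < ε) (h1 : ε < 1 / β)
    (hπ : IsStat (perturb σ β ε) τ π) {K : ℝ} (hK : 0 < K) {c h κ : ℝ} (hc : 1 ≤ c) (hh : 0 < h)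
    (hκ1 : κ ≤ c * ((m + 1) * ∫ t, t ∂τ - ∫ s, s ∂σ) - ∫ t, t ∂τ)
    (hκ2 : κ ≤ (∫ t, t ∂τ) * (c - 1))
    (hκ : c * (∫ s, s ^ 2 ∂σ + (m + 1) * ∫ t, t ^ 2 ∂τ) / (2 * h) ≤ κ) :
    (∫ s, s ∂σ) * ∫ w, max (w 0 - (K + h)) 0 ∂π
      ≤ c * (∫ s, s ^ 2 ∂σ + (m + 1) * ∫ t, t ^ 2 ∂τ) * (m + 1) / 4 * (AP m σ τ β / K)
        + c / 2 * Rt m σ τ β K
        + ε ^ 2 * (1 + β / ε) * (c * (AP m σ τ β * ∫ s, s ∂σ))
        + ε ^ 2 * (1 + β / ε) ^ 2 * ((c - 1) / 2 * ∫ s, s ^ 2 ∂σ) := by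
  have hs' := sys_perturb hs hβ h0 h1
  have htot := tot_perturb hs hβ h0 h1 hπ
  have hπp := hπ.1
  have := hs.pσ; have := hs.pτ
  have hc0 : 0 ≤ c := by linarith
  have hES := mean_s_nonneg hs
  have hET := (mean_t_pos hs).le
  have hX2 : 0 ≤ ∫ s, s ^ 2 ∂σ := integral_nonneg fun s => sq_nonneg s
  have hT2 : 0 ≤ ∫ s, s ^ 2 ∂τ := integral_nonneg fun s => sq_nonneg s
  have hC2 : 0 ≤ ∫ s, s ^ 2 ∂σ + (m + 1) * ∫ t, t ^ 2 ∂τ := by positivity
  -- the increment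
  set F : Vec m × (ℝ × ℝ) → ℝ := fun p => GG h c K (kwStep p.1 p.2.1 p.2.2) - GG h c K p.1
    with hF
  have mF : Measurable F := (measurable_GG.comp measurable_kwStep).sub (meas_w measurable_GG)
  obtain ⟨iF, zF⟩ := drift_zero' hs' hπ (f := GG h c K) measurable_GG
    (2 * c * (m + 1) ^ 2 + (m + 1)) (fun w s t _ hw h1 h2 => GG_abs hh hc hK.le hw h1 h2)
  obtain ⟨j1, j2, e⟩ := mix hs.pσ hs.pτ hπ.1 h0 mF iF
  have hg : 0 < 1 + β / ε := by positivity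
  have hlt := mul_lt hβ h1
  have hβε : 0 < β * ε := by positivity
  -- the functions of the state
  set A0 : Vec m → ℝ := fun w => (c * UU h K w - uu h K w 0) * dphi h (w 0 - K) with hA0
  set A1 : Vec m → ℝ := fun w => ∑ i, (c * UU h K w - uu h K w i) * dphi h (w i - K) with hA1
  have mi : ∀ i, Measurable fun w : Vec m => (c * UU h K w - uu h K w i) * dphi h (w i - K) :=
    fun i => ((measurable_UU.const_mul c).sub (measurable_uu i)).mul
      (measurable_dphi.comp ((measurable_pi_apply i).sub measurable_const))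
  have bi : ∀ (w : Vec m), (∀ i, 0 ≤ w i) → ∀ i,
      0 ≤ (c * UU h K w - uu h K w i) * dphi h (w i - K) ∧
      (c * UU h K w - uu h K w i) * dphi h (w i - K) ≤ c * tot w := by
    intro w hw i
    have a1 := uu_le_UU (w := w) (K := K) hh i
    have a2 := uu_nonneg (w := w) (K := K) hh i
    have a3 := UU_le_tot (w := w) hh hK.le hw
    have a4 := dphi_nonneg hh (w i - K)
    have a5 := dphi_le_one hh (w i - K)
    have a6 : 0 ≤ c * UU h K w - uu h K w i := by nlinarith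
    refine ⟨mul_nonneg a6 a4, ?_⟩
    have a7 : (c * UU h K w - uu h K w i) * dphi h (w i - K) ≤ (c * UU h K w - uu h K w i) * 1 :=
      mul_le_mul_of_nonneg_left a5 a6
    nlinarith
  have ii : ∀ i, Integrable (fun w : Vec m =>
      (c * UU h K w - uu h K w i) * dphi h (w i - K)) π := by
    intro i
    refine (htot.1.const_mul c).mono' (mi i).aestronglyMeasurable ?_
    filter_upwards [hπ.2.1] with w hw
    obtain ⟨b1, b2⟩ := bi w hw.2 i
    rw [Real.norm_eq_abs, abs_of_nonneg b1]; exact b2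
  have iA0 : Integrable A0 π := ii 0
  have iA1 : Integrable A1 π := integrable_finsetSum _ fun i _ => ii i
  have iU : Integrable (UU h K) π :=
    igr_of_le hs' hπ measurable_UU fun w _ hw => ⟨UU_nonneg hh, UU_le_tot hh hK.le hw⟩
  have iz : Integrable (fun z : ℝ × ℝ => z.1 ^ 2 + (m + 1) * z.2 ^ 2) (σ.prod τ) :=
    (igr_zs hs hs.s2).add ((igr_zt hs hs.t2).const_mul _)
  have k1 : Integrable (fun p : Vec m × (ℝ × ℝ) => A0 p.1 * p.2.1) (jl σ τ π) :=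
    iA0.mul_prod (igr_zs hs (igr_s hs))
  have k2 : Integrable (fun p : Vec m × (ℝ × ℝ) => A1 p.1 * p.2.2) (jl σ τ π) :=
    iA1.mul_prod (igr_zt hs (igr_t hs))
  have k3 : Integrable (fun p : Vec m × (ℝ × ℝ) =>
      UU h K p.1 * (p.2.1 ^ 2 + (m + 1) * p.2.2 ^ 2)) (jl σ τ π) := iU.mul_prod iz
  have k4 := igr_HK (π := π) hs hπp K
  have v1 : ∫ p, A0 p.1 * p.2.1 ∂(jl σ τ π) = (∫ w, A0 w ∂π) * ∫ s, s ∂σ := by
    rw [integral_prod_mul A0 (fun z : ℝ × ℝ => z.1), int_s hs (fun s => s)]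
  have v2 : ∫ p, A1 p.1 * p.2.2 ∂(jl σ τ π) = (∫ w, A1 w ∂π) * ∫ t, t ∂τ := by
    rw [integral_prod_mul A1 (fun z : ℝ × ℝ => z.2), int_t hs (fun s => s)]
  have v3 : ∫ p, UU h K p.1 * (p.2.1 ^ 2 + (m + 1) * p.2.2 ^ 2) ∂(jl σ τ π)
      = (∫ w, UU h K w ∂π) * (∫ s, s ^ 2 ∂σ + (m + 1) * ∫ t, t ^ 2 ∂τ) := by
    rw [integral_prod_mul (UU h K) (fun z : ℝ × ℝ => z.1 ^ 2 + (m + 1) * z.2 ^ 2),
      integral_add (igr_zs hs hs.s2) ((igr_zt hs hs.t2).const_mul _), integral_const_mul,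
      int_s hs (fun s => s ^ 2), int_t hs (fun s => s ^ 2)]
  -- ordinary jobs
  have b1 : ∫ p : Vec m × (ℝ × ℝ), F (p.1, (p.2.1 * (1 - β * ε), p.2.2)) ∂(jl σ τ π)
      ≤ ∫ p, (A0 p.1 * p.2.1 - A1 p.1 * p.2.2
        + c / (2 * h) * (UU h K p.1 * (p.2.1 ^ 2 + (m + 1) * p.2.2 ^ 2))
        + c / 2 * HK m K p) ∂(jl σ τ π) := by
    refine integral_mono_ae j1 (((k1.sub k2).add (k3.const_mul _)).add (k4.const_mul _)) ?_
    filter_upwards [ae_jl' hs hπ.1 hπ.2.1] with p hp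
    obtain ⟨⟨hp1, hp2⟩, hp3, hp4⟩ := hp
    have h3 : p.2.1 * (1 - β * ε) ≤ p.2.1 := by nlinarith
    have h3' : 0 ≤ p.2.1 * (1 - β * ε) := mul_nonneg hp3 (by linarith)
    have h4 := GG_small (w := p.1) (s := p.2.1 * (1 - β * ε)) (t := p.2.2) hh hc hK.le hp2 h3' hp4
    have h5 := (bi p.1 hp2 0).1
    have h6 := mul_le_mul_of_nonneg_left h3 h5
    have hUn := UU_nonneg (a := h) (K := K) (w := p.1) hh
    have h7 : (p.2.1 * (1 - β * ε)) ^ 2 ≤ p.2.1 ^ 2 := pow_le_pow_left₀ h3' h3 2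
    have h8 : c / (2 * h) * UU h K p.1 * ((p.2.1 * (1 - β * ε)) ^ 2 + (m + 1) * p.2.2 ^ 2)
        ≤ c / (2 * h) * UU h K p.1 * (p.2.1 ^ 2 + (m + 1) * p.2.2 ^ 2) :=
      mul_le_mul_of_nonneg_left (by linarith) (by positivity)
    have h9 : (if K < tot p.1 + p.2.1 * (1 - β * ε) then
        (p.2.1 * (1 - β * ε) + (m + 1) * p.2.2) ^ 2 else 0) ≤ HK m K p := by
      by_cases hd : K < tot p.1 + p.2.1 * (1 - β * ε)
      · unfold HK
        rw [if_pos hd, if_pos (by linarith)]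
        exact pow_le_pow_left₀ (by positivity) (by linarith) 2
      · rw [if_neg hd]; exact HK_nonneg K p
    have h10 := mul_le_mul_of_nonneg_left h9 (by positivity : 0 ≤ c / 2)
    simp only [hF, hA0, hA1]
    linarith
  have f1 := integral_add ((k1.sub k2).add (k3.const_mul (c / (2 * h)))) (k4.const_mul (c / 2))
  have f2 := integral_add (k1.sub k2) (k3.const_mul (c / (2 * h)))
  have f3 := integral_sub k1 k2
  simp only [Pi.sub_apply, Pi.add_apply] at f1 f2 f3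
  rw [f1, f2, f3, integral_const_mul, integral_const_mul, v1, v2, v3] at b1
  -- huge jobs
  obtain ⟨l1, l2⟩ := lin hs hπ.1 htot.1 ((c - 1) / 2 * (1 + β / ε) ^ 2) 0 0 0
    (c * (1 + β / ε))
  have b2 : ∫ p : Vec m × (ℝ × ℝ), F (p.1, (p.2.1 * (1 + β / ε), p.2.2)) ∂(jl σ τ π)
      ≤ ∫ p, ((c - 1) / 2 * (1 + β / ε) ^ 2 * p.2.1 ^ 2 + 0 * (p.2.1 * p.2.2)
      + 0 * p.2.2 ^ 2 + 0 * p.2.1 + (c * (1 + β / ε)) * (tot p.1 * p.2.1)) ∂(jl σ τ π) := by
    refine integral_mono_ae j2 l1 ?_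
    filter_upwards [ae_jl' hs hπ.1 hπ.2.1] with p hp
    obtain ⟨⟨hp1, hp2⟩, hp3, hp4⟩ := hp
    have h3 : 0 ≤ p.2.1 * (1 + β / ε) := by positivity
    have h4 := GG_big (w := p.1) (s := p.2.1 * (1 + β / ε)) (t := p.2.2) (a := h) (c := c) (K := K)
      hh hc hK.le h3 hp4
    have h5 := UU_le_tot (w := p.1) hh hK.le hp2
    have h6 : c * UU h K p.1 * (p.2.1 * (1 + β / ε)) ≤ c * tot p.1 * (p.2.1 * (1 + β / ε)) :=
      mul_le_mul_of_nonneg_right (mul_le_mul_of_nonneg_left h5 hc0) h3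
    simp only [hF]
    refine h4.trans ((add_le_add h6 le_rfl).trans (le_of_eq ?_))
    ring
  rw [l2] at b2
  -- the drift
  have iW : Integrable (fun w : Vec m => max (w 0 - (K + h)) 0) π :=
    igr_of_le hs' hπ (((measurable_pi_apply 0).sub measurable_const).max measurable_const)
      fun w _ hw => ⟨le_max_right _ _, max_le (by linarith [le_tot hw 0]) (tot_nonneg hw)⟩
  set C2 := ∫ s, s ^ 2 ∂σ + (m + 1) * ∫ t, t ^ 2 ∂τ with hC2d
  have b3 : ∫ w, ((∫ s, s ∂σ) * A0 w - (∫ t, t ∂τ) * A1 w + c * C2 / (2 * h) * UU h K w) ∂π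
      ≤ ∫ w, (-((∫ s, s ∂σ) * max (w 0 - (K + h)) 0) + c * C2 * (m + 1) / 4 * (tot w / K)) ∂π := by
    refine integral_mono_ae (((iA0.const_mul _).sub (iA1.const_mul _)).add (iU.const_mul _))
      ((iW.const_mul _).neg.add ((htot.1.div_const K).const_mul _)) ?_
    filter_upwards [hπ.2.1] with w hw
    have h3 := drift_pt (w := w) (K := K) (a := h) (c := c) hh hc hw.1 hw.2 hES hET hC2 hκ1 hκ2 hκ
    have h4 : (if K < tot w then (1 : ℝ) else 0) ≤ tot w / K := by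
      have hV := tot_nonneg hw.2
      split_ifs with hd
      · rw [le_div_iff₀ hK]; linarith
      · positivity
    have h5 : c * C2 * (m + 1) / 4 * (if K < tot w then (1 : ℝ) else 0)
        ≤ c * C2 * (m + 1) / 4 * (tot w / K) := mul_le_mul_of_nonneg_left h4 (by positivity)
    simp only [hA0, hA1, Pi.neg_apply] at *
    linarith
  have g1 := integral_add ((iA0.const_mul (∫ s, s ∂σ)).sub (iA1.const_mul (∫ t, t ∂τ)))
    (iU.const_mul (c * C2 / (2 * h)))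
  have g2 := integral_sub (iA0.const_mul (∫ s, s ∂σ)) (iA1.const_mul (∫ t, t ∂τ))
  have g3 := integral_add (iW.const_mul (∫ s, s ∂σ)).neg
    ((htot.1.div_const K).const_mul (c * C2 * (m + 1) / 4))
  simp only [Pi.sub_apply, Pi.add_apply, Pi.neg_apply] at g1 g2 g3
  rw [g1, g2, g3, integral_neg, integral_const_mul, integral_const_mul, integral_const_mul,
    integral_const_mul, integral_const_mul, integral_div] at b3
  have b4 := int_HK hs hπ.1 hπ.2.1 htot.1 htot.2 hK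
  have b5 : c * C2 * (m + 1) / 4 * ((∫ w, tot w ∂π) / K)
      ≤ c * C2 * (m + 1) / 4 * (AP m σ τ β / K) :=
    mul_le_mul_of_nonneg_left (div_le_div_of_nonneg_right htot.2 hK.le) (by positivity)
  have b6 : c * (1 + β / ε) * ((∫ w, tot w ∂π) * ∫ s, s ∂σ)
      ≤ c * (1 + β / ε) * (AP m σ τ β * ∫ s, s ∂σ) :=
    mul_le_mul_of_nonneg_left (mul_le_mul_of_nonneg_right htot.2 hES) (by positivity)
  have b7 := mul_le_mul_of_nonneg_left b4 (by positivity : 0 ≤ c / 2)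
  have zF' : ∫ p, F p ∂(jl (perturb σ β ε) τ π) = 0 := zF
  rw [zF'] at e
  -- put together
  set I1 := ∫ p : Vec m × (ℝ × ℝ), F (p.1, (p.2.1 * (1 - β * ε), p.2.2)) ∂(jl σ τ π) with hI1
  set I2 := ∫ p : Vec m × (ℝ × ℝ), F (p.1, (p.2.1 * (1 + β / ε), p.2.2)) ∂(jl σ τ π) with hI2
  have e2 : I1 + ε ^ 2 * I2 = 0 := by
    have h3 : 1 / (1 + ε ^ 2) * I1 + ε ^ 2 / (1 + ε ^ 2) * I2
        = (I1 + ε ^ 2 * I2) / (1 + ε ^ 2) := by ring
    rw [h3] at e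
    have h4 : (1 + ε ^ 2) ≠ 0 := by positivity
    have := (div_eq_zero_iff.1 e.symm).resolve_right h4
    exact this
  have b8 := mul_le_mul_of_nonneg_left b2 (sq_nonneg ε)
  have b9 : c / (2 * h) * ((∫ w, UU h K w ∂π) * C2) = c * C2 / (2 * h) * ∫ w, UU h K w ∂π := by
    ring
  rw [b9] at b1
  have b10 : ε ^ 2 * ((c - 1) / 2 * (1 + β / ε) ^ 2 * ∫ s, s ^ 2 ∂σ
      + 0 * ((∫ s, s ∂σ) * ∫ t, t ∂τ) + 0 * (∫ t, t ^ 2 ∂τ) + 0 * (∫ s, s ∂σ)
      + c * (1 + β / ε) * ((∫ w, tot w ∂π) * ∫ s, s ∂σ))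
      ≤ ε ^ 2 * (1 + β / ε) * (c * (AP m σ τ β * ∫ s, s ∂σ))
        + ε ^ 2 * (1 + β / ε) ^ 2 * ((c - 1) / 2 * ∫ s, s ^ 2 ∂σ) := by
    have := mul_le_mul_of_nonneg_left b6 (sq_nonneg ε)
    linarith
  linarith

end Pool.Agent.K9h80.GQ
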