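import Pool.Agent.K9h80.GQ.Coup

/-!
# Comparison of the stationary laws of two systems by coupling: the estimate
-/

set_option autoImplicit false

open MeasureTheory Finset Filter Topology

namespace Pool.Agent.K9h80.GQ

variable {m : ℕ} {κ : Measure (ℝ × ℝ)} {τ σ σ' : Measure ℝ} {π π' : Measure (Vec m)}

/-- `M` deterministic steps forget the initial state in `[0, R]`. -/
def Merges (m : ℕ) (s0 t0 R : ℝ) (M : ℕ) : Prop :=
  ∀ x y : Vec m, (∀ i, 0 ≤ x i ∧ x i ≤ R) → (∀ i, 0 ≤ y i ∧ y i ≤ R) →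
    (dstep m s0 t0)^[M] x = (dstep m s0 t0)^[M] y

theorem FF_contr [IsProbabilityMeasure κ] [IsProbabilityMeasure τ] {s0 t0 ρ R : ℝ} (hρ : 0 ≤ ρ)
    (hR : 0 < R) {M : ℕ} (hM : Merges m s0 t0 R M) {v w : Vec m} (hv : ∀ i, 0 ≤ v i)
    (hw : ∀ i, 0 ≤ w i) :
    FF κ τ M (v, w) ≤ (1 - ((κ.prod τ).real (AA s0 t0 ρ)) ^ M) * F0 (v, w)
      + ((κ.prod τ).real (AA s0 t0 ρ)) ^ M * (M * (cc m * ρ) + (tot v + tot w) / R)
      + M * eta κ := by
  set p := (κ.prod τ).real (AA s0 t0 ρ) with hp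
  have hp0 : 0 ≤ p := measureReal_nonneg
  have hp1 : p ≤ 1 := measureReal_le_one
  have hq0 : 0 ≤ p ^ M := pow_nonneg hp0 M
  have hq1 : p ^ M ≤ 1 := pow_le_one₀ hp0 hp1
  have hV : 0 ≤ tot v := tot_nonneg hv
  have hW : 0 ≤ tot w := tot_nonneg hw
  have hcc : 0 ≤ cc m := by unfold cc; positivity
  have hT : 0 ≤ (tot v + tot w) / R := by positivity
  by_cases h : tot v + tot w ≤ R
  · have h1 : (dstep m s0 t0)^[M] v = (dstep m s0 t0)^[M] w :=
      hM v w (fun i => ⟨hv i, by linarith [le_tot hv i]⟩) (fun i => ⟨hw i, by linarith [le_tot hw i]⟩)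
    have h2 := claim (κ := κ) (τ := τ) (s0 := s0) (t0 := t0) (ρ := ρ) M v w v w
    rw [h1, sub_self, sub_self, sub_self, ← hp] at h2
    have h3 : nrm (0 : Vec m) = 0 := by simp [nrm]
    rw [h3] at h2
    have h4 : p ^ M * (0 + 0 + 0 + M * (cc m * ρ))
        ≤ p ^ M * (M * (cc m * ρ) + (tot v + tot w) / R) :=
      mul_le_mul_of_nonneg_left (by linarith) hq0
    linarith
  · have h1 := FF_le (κ := κ) (τ := τ) M (v, w)
    have h2 : 1 ≤ (tot v + tot w) / R := by
      rw [le_div_iff₀ hR]; linarith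
    have h3 : F0 (v, w) ≤ M * (cc m * ρ) + (tot v + tot w) / R := by
      have : 0 ≤ M * (cc m * ρ) := by positivity
      linarith [F0_le_one (v, w)]
    have h4 := mul_le_mul_of_nonneg_left h3 hq0
    linarith

theorem igr_F0 [IsProbabilityMeasure κ] [IsProbabilityMeasure τ] [IsProbabilityMeasure π']
    [IsProbabilityMeasure π] (n : ℕ) : Integrable (F0 (m := m)) (JJ κ τ π' π n) := by
  refine Integrable.of_bound measurable_F0.aestronglyMeasurable 1
    (Eventually.of_forall fun z => ?_)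
  rw [Real.norm_eq_abs, abs_of_nonneg (F0_nonneg _)]
  exact F0_le_one _

theorem igr_FFJ [IsProbabilityMeasure κ] [IsProbabilityMeasure τ] [IsProbabilityMeasure π']
    [IsProbabilityMeasure π] (M n : ℕ) : Integrable (FF (m := m) κ τ M) (JJ κ τ π' π n) := by
  obtain ⟨hm, hb⟩ := FF_props (m := m) (κ := κ) (τ := τ) M
  refine Integrable.of_bound hm.aestronglyMeasurable 1 (Eventually.of_forall fun z => ?_)
  rw [Real.norm_eq_abs, abs_of_nonneg (hb _).1]
  exact (hb _).2

theorem contr (hs' : Sys m σ' τ) (hs : Sys m σ τ) [IsProbabilityMeasure κ]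
    (hκ1 : Measure.map Prod.fst κ = σ') (hκ2 : Measure.map Prod.snd κ = σ)
    (h' : IsStat σ' τ π') (h : IsStat σ τ π) {s0 t0 ρ R : ℝ} (hρ : 0 ≤ ρ)
    (hR : 0 < R) {M : ℕ} (hM : Merges m s0 t0 R M) (n : ℕ) :
    ∫ x, F0 x ∂(JJ κ τ π' π (n + M))
      ≤ (1 - ((κ.prod τ).real (AA s0 t0 ρ)) ^ M) * ∫ x, F0 x ∂(JJ κ τ π' π n)
      + ((κ.prod τ).real (AA s0 t0 ρ)) ^ M
          * (M * (cc m * ρ) + (∫ w, tot w ∂π' + ∫ w, tot w ∂π) / R)
      + M * eta κ := by
  have := hs.pτ; have := h'.1; have := h.1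
  obtain ⟨m1, m2⟩ := marg (m := m) hκ1 hκ2 h' h n
  set p := (κ.prod τ).real (AA s0 t0 ρ) with hp
  have e0 : ∫ x, F0 x ∂(JJ κ τ π' π (n + M)) = ∫ x, FF κ τ M x ∂(JJ κ τ π' π n) :=
    int_FF_add n M
  have a1 : ∀ᵐ x ∂(JJ κ τ π' π n), Monotone x.1 ∧ ∀ i, 0 ≤ x.1 i := by
    have h1 : ∀ᵐ y ∂(Measure.map Prod.fst (JJ κ τ π' π n)), Monotone y ∧ ∀ i, 0 ≤ y i := by
      rw [m1]; exact h'.2.1
    exact ae_of_ae_map measurable_fst.aemeasurable h1
  have a2 : ∀ᵐ x ∂(JJ κ τ π' π n), Monotone x.2 ∧ ∀ i, 0 ≤ x.2 i := by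
    have h1 : ∀ᵐ y ∂(Measure.map Prod.snd (JJ κ τ π' π n)), Monotone y ∧ ∀ i, 0 ≤ y i := by
      rw [m2]; exact h.2.1
    exact ae_of_ae_map measurable_snd.aemeasurable h1
  have i1 : Integrable (fun x : Vec m × Vec m => tot x.1) (JJ κ τ π' π n) := by
    have h1 : Integrable tot (Measure.map Prod.fst (JJ κ τ π' π n)) := by
      rw [m1]; exact igr_tot hs' h'
    exact (integrable_map_measure measurable_tot.aestronglyMeasurable
      measurable_fst.aemeasurable).1 h1
  have i2 : Integrable (fun x : Vec m × Vec m => tot x.2) (JJ κ τ π' π n) := by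
    have h1 : Integrable tot (Measure.map Prod.snd (JJ κ τ π' π n)) := by
      rw [m2]; exact igr_tot hs h
    exact (integrable_map_measure measurable_tot.aestronglyMeasurable
      measurable_snd.aemeasurable).1 h1
  have v1 : ∫ x, tot x.1 ∂(JJ κ τ π' π n) = ∫ w, tot w ∂π' := by
    have h1 := integral_map (μ := JJ κ τ π' π n) measurable_fst.aemeasurable
      (f := tot) measurable_tot.aestronglyMeasurable
    rw [← h1, m1]
  have v2 : ∫ x, tot x.2 ∂(JJ κ τ π' π n) = ∫ w, tot w ∂π := by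
    have h1 := integral_map (μ := JJ κ τ π' π n) measurable_snd.aemeasurable
      (f := tot) measurable_tot.aestronglyMeasurable
    rw [← h1, m2]
  have i0 := igr_F0 (κ := κ) (τ := τ) (π' := π') (π := π) n
  have h1 : ∫ x, FF κ τ M x ∂(JJ κ τ π' π n) ≤ ∫ x, ((1 - p ^ M) * F0 x
      + (p ^ M * (M * (cc m * ρ)) + M * eta κ) + (p ^ M / R) * (tot x.1 + tot x.2))
        ∂(JJ κ τ π' π n) := by
    refine integral_mono_ae (igr_FFJ M n) (((i0.const_mul _).add (integrable_const _)).add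
      ((i1.add i2).const_mul _)) ?_
    filter_upwards [a1, a2] with x hx1 hx2
    have h2 := FF_contr (κ := κ) (τ := τ) (ρ := ρ) hρ hR hM hx1.2 hx2.2
    rw [← hp] at h2
    refine h2.trans (le_of_eq ?_)
    ring
  have e1 := integral_add ((i0.const_mul (1 - p ^ M)).add
    (integrable_const (p ^ M * (M * (cc m * ρ)) + M * eta κ))) ((i1.add i2).const_mul (p ^ M / R))
  have e2 := integral_add (i0.const_mul (1 - p ^ M))
    (integrable_const (μ := JJ κ τ π' π n) (p ^ M * (M * (cc m * ρ)) + M * eta κ))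
  have e3 := integral_add i1 i2
  simp only [Pi.add_apply] at e1 e2 e3
  rw [e1, e2, integral_const_mul, integral_const_mul, e3, v1, v2] at h1
  simp only [integral_const, probReal_univ, smul_eq_mul, one_mul] at h1
  rw [e0]
  refine h1.trans (le_of_eq ?_)
  ring

/-- The comparison of the two stationary laws. -/
theorem compare (hs' : Sys m σ' τ) (hs : Sys m σ τ) [IsProbabilityMeasure κ]
    (hκ1 : Measure.map Prod.fst κ = σ') (hκ2 : Measure.map Prod.snd κ = σ)
    (h' : IsStat σ' τ π') (h : IsStat σ τ π) {s0 t0 ρ R q : ℝ} (hρ : 0 ≤ ρ)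
    (hR : 0 < R) {M : ℕ} (hM : Merges m s0 t0 R M) (hq : 0 < q)
    (hqp : q ≤ ((κ.prod τ).real (AA s0 t0 ρ)) ^ M)
    {f : Vec m → ℝ} (hf : Measurable f) {L : ℝ} (hL : 0 ≤ L)
    (hfL : ∀ v w, |f v - f w| ≤ L * min 1 (nrm (v - w)))
    (hf1 : Integrable f π') (hf2 : Integrable f π) :
    |∫ w, f w ∂π' - ∫ w, f w ∂π| ≤ L * (M * (cc m * ρ) + (∫ w, tot w ∂π' + ∫ w, tot w ∂π) / R
      + M * eta κ / q) := by
  have := hs.pτ; have := h'.1; have := h.1
  set P := ((κ.prod τ).real (AA s0 t0 ρ)) ^ M with hP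
  have hP1 : P ≤ 1 := pow_le_one₀ measureReal_nonneg measureReal_le_one
  set b := M * (cc m * ρ) + (∫ w, tot w ∂π' + ∫ w, tot w ∂π) / R with hb
  have hcc : 0 ≤ cc m := by unfold cc; positivity
  have hT' : 0 ≤ ∫ w, tot w ∂π' :=
    integral_nonneg_of_ae (h'.2.1.mono fun w hw => tot_nonneg hw.2)
  have hT : 0 ≤ ∫ w, tot w ∂π :=
    integral_nonneg_of_ae (h.2.1.mono fun w hw => tot_nonneg hw.2)
  have hb0 : 0 ≤ b := by positivity
  have he0 := eta_nonneg κ
  set b' := b + M * eta κ / q with hb'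
  have hb'0 : 0 ≤ b' := by positivity
  -- the iteration
  have hit : ∀ n : ℕ, ∫ x, F0 x ∂(JJ κ τ π' π (n * M)) ≤ b' + (1 - q) ^ n := by
    intro n
    induction n with
    | zero =>
      have h1 : ∫ x, F0 x ∂(JJ κ τ π' π (0 * M)) ≤ ∫ _x, (1 : ℝ) ∂(JJ κ τ π' π (0 * M)) :=
        integral_mono (igr_F0 _) (integrable_const _) fun x => F0_le_one x
      simp only [integral_const, probReal_univ, smul_eq_mul, one_mul] at h1
      simp only [pow_zero]
      linarith
    | succ n ih =>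
      have h1 := contr hs' hs hκ1 hκ2 h' h hρ hR hM (n * M) (ρ := ρ)
      rw [← hP, ← hb] at h1
      have e : (n + 1) * M = n * M + M := by ring
      rw [e]
      have ha0 : 0 ≤ ∫ x, F0 x ∂(JJ κ τ π' π (n * M)) := integral_nonneg fun x => F0_nonneg x
      set A := ∫ x, F0 x ∂(JJ κ τ π' π (n * M)) with hA
      have hq1 : q ≤ 1 := hqp.trans hP1
      have h2 : M * eta κ = q * (M * eta κ / q) := by field_simp
      have h3 : M * eta κ ≤ P * (M * eta κ / q) := by
        rw [h2]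
        have : q * (M * eta κ / q) / q = M * eta κ / q := by field_simp
        rw [this]
        exact mul_le_mul_of_nonneg_right hqp (by positivity)
      have h4 : (1 - P) * A + P * b + M * eta κ ≤ (1 - P) * A + P * b' := by
        rw [hb']; nlinarith
      -- a convex combination
      have h5 : (1 - P) * A + P * b' ≤ b' + (1 - q) ^ (n + 1) := by
        have h6 : A - b' ≤ (1 - q) ^ n := by linarith
        have h7 : (1 - P) * (A - b') ≤ (1 - q) ^ (n + 1) := by
          rw [pow_succ]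
          have h8 : 0 ≤ (1 - q) ^ n := pow_nonneg (by linarith) n
          calc (1 - P) * (A - b') ≤ (1 - P) * (1 - q) ^ n :=
                mul_le_mul_of_nonneg_left h6 (by linarith)
            _ ≤ (1 - q) * (1 - q) ^ n := mul_le_mul_of_nonneg_right (by linarith) h8
            _ = (1 - q) ^ n * (1 - q) := by ring
        linarith
      linarith
  -- the difference of the means
  have hdiff : ∀ n : ℕ, |∫ w, f w ∂π' - ∫ w, f w ∂π| ≤ L * ∫ x, F0 x ∂(JJ κ τ π' π n) := by
    intro n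
    obtain ⟨m1, m2⟩ := marg (m := m) hκ1 hκ2 h' h n
    have j1 : Integrable (fun x : Vec m × Vec m => f x.1) (JJ κ τ π' π n) := by
      have h1 : Integrable f (Measure.map Prod.fst (JJ κ τ π' π n)) := by rw [m1]; exact hf1
      exact (integrable_map_measure hf.aestronglyMeasurable measurable_fst.aemeasurable).1 h1
    have j2 : Integrable (fun x : Vec m × Vec m => f x.2) (JJ κ τ π' π n) := by
      have h1 : Integrable f (Measure.map Prod.snd (JJ κ τ π' π n)) := by rw [m2]; exact hf2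
      exact (integrable_map_measure hf.aestronglyMeasurable measurable_snd.aemeasurable).1 h1
    have v1 : ∫ x, f x.1 ∂(JJ κ τ π' π n) = ∫ w, f w ∂π' := by
      have h1 := integral_map (μ := JJ κ τ π' π n) measurable_fst.aemeasurable
        (f := f) hf.aestronglyMeasurable
      rw [← h1, m1]
    have v2 : ∫ x, f x.2 ∂(JJ κ τ π' π n) = ∫ w, f w ∂π := by
      have h1 := integral_map (μ := JJ κ τ π' π n) measurable_snd.aemeasurable
        (f := f) hf.aestronglyMeasurable
      rw [← h1, m2]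
    rw [← v1, ← v2, ← integral_sub j1 j2, ← integral_const_mul]
    refine (abs_integral_le_integral_abs).trans ?_
    refine integral_mono (j1.sub j2).abs ((igr_F0 n).const_mul L) fun x => ?_
    exact hfL x.1 x.2
  have hlim : Tendsto (fun n : ℕ => L * (b' + (1 - q) ^ n)) atTop (𝓝 (L * (b' + 0))) := by
    refine Tendsto.const_mul _ (tendsto_const_nhds.add ?_)
    exact tendsto_pow_atTop_nhds_zero_of_lt_one (by linarith [hqp.trans hP1]) (by linarith)
  rw [add_zero] at hlim
  refine ge_of_tendsto hlim (Eventually.of_forall fun n => ?_)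
  exact (hdiff (n * M)).trans (mul_le_mul_of_nonneg_left (hit n) hL)

end Pool.Agent.K9h80.GQ
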