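import Pool.Agent.K9h80.GQ.Merge

/-!
# Comparison of the stationary laws of two systems by coupling
-/

set_option autoImplicit false

open MeasureTheory Finset Filter Topology

namespace Pool.Agent.K9h80.GQ

variable {m : ℕ}

/-- The state space. -/
abbrev Vec (m : ℕ) := Fin (m + 1) → ℝ

/-- One step of two systems with the same interarrival time and coupled service times. -/
noncomputable def step2 (q : (Vec m × Vec m) × ((ℝ × ℝ) × ℝ)) : Vec m × Vec m :=
  (kwStep q.1.1 q.2.1.1 q.2.2, kwStep q.1.2 q.2.1.2 q.2.2)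

theorem measurable_step2 : Measurable (step2 (m := m)) := by
  have h1 : Measurable fun q : (Vec m × Vec m) × ((ℝ × ℝ) × ℝ) => (q.1.1, (q.2.1.1, q.2.2)) := by
    fun_prop
  have h2 : Measurable fun q : (Vec m × Vec m) × ((ℝ × ℝ) × ℝ) => (q.1.2, (q.2.1.2, q.2.2)) := by
    fun_prop
  have h3 := Measurable.comp (measurable_kwStep (k := m + 1)) h1
  have h4 := Measurable.comp (measurable_kwStep (k := m + 1)) h2
  simp only [Function.comp_def] at h3 h4
  exact h3.prodMk h4

/-- The laws of the coupled chain. -/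
noncomputable def JJ (κ : Measure (ℝ × ℝ)) (τ : Measure ℝ) (π' π : Measure (Vec m)) :
    ℕ → Measure (Vec m × Vec m)
  | 0 => π'.prod π
  | n + 1 => Measure.map step2 ((JJ κ τ π' π n).prod (κ.prod τ))

/-- The truncated distance. -/
noncomputable def F0 (x : Vec m × Vec m) : ℝ := min 1 (nrm (x.1 - x.2))

theorem F0_nonneg (x : Vec m × Vec m) : 0 ≤ F0 x := le_min zero_le_one (nrm_nonneg _)

theorem F0_le_one (x : Vec m × Vec m) : F0 x ≤ 1 := min_le_left _ _

theorem measurable_F0 : Measurable (F0 (m := m)) :=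
  measurable_const.min (measurable_nrm.comp (measurable_fst.sub measurable_snd))

/-- Its mean after `j` steps. -/
noncomputable def FF (κ : Measure (ℝ × ℝ)) (τ : Measure ℝ) : ℕ → Vec m × Vec m → ℝ
  | 0 => F0
  | j + 1 => fun x => ∫ z, FF κ τ j (step2 (x, z)) ∂(κ.prod τ)

variable {κ : Measure (ℝ × ℝ)} {τ σ σ' : Measure ℝ} {π π' : Measure (Vec m)}

theorem FF_props [IsProbabilityMeasure κ] [IsProbabilityMeasure τ] (j : ℕ) :
    Measurable (FF (m := m) κ τ j) ∧
      ∀ x : Vec m × Vec m, 0 ≤ FF κ τ j x ∧ FF κ τ j x ≤ 1 := by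
  induction j with
  | zero => exact ⟨measurable_F0, fun x => ⟨F0_nonneg x, F0_le_one x⟩⟩
  | succ j ih =>
    obtain ⟨hm, hb⟩ := ih
    refine ⟨?_, fun x => ⟨integral_nonneg fun z => (hb _).1, ?_⟩⟩
    · have h1 : Measurable fun q : (Vec m × Vec m) × ((ℝ × ℝ) × ℝ) => FF κ τ j (step2 q) :=
        hm.comp measurable_step2
      have h2 : StronglyMeasurable
          (Function.uncurry fun (x : Vec m × Vec m) (z : (ℝ × ℝ) × ℝ) => FF κ τ j (step2 (x, z))) :=
        h1.stronglyMeasurable
      exact (h2.integral_prod_right (ν := κ.prod τ)).measurable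
    · have h1 : ∫ z, FF κ τ j (step2 (x, z)) ∂(κ.prod τ) ≤ ∫ _z, (1 : ℝ) ∂(κ.prod τ) := by
        refine integral_mono_of_nonneg (Eventually.of_forall fun z => (hb _).1)
          (integrable_const _) (Eventually.of_forall fun z => (hb _).2)
      simp only [integral_const, probReal_univ, smul_eq_mul, one_mul] at h1
      exact h1

theorem igr_FF [IsProbabilityMeasure κ] [IsProbabilityMeasure τ] (j : ℕ)
    (x : Vec m × Vec m) : Integrable (fun z => FF κ τ j (step2 (x, z))) (κ.prod τ) := by
  obtain ⟨hm, hb⟩ := FF_props (m := m) (κ := κ) (τ := τ) j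
  refine Integrable.of_bound
    (hm.comp (measurable_step2.comp measurable_prodMk_left)).aestronglyMeasurable 1
    (Eventually.of_forall fun z => ?_)
  rw [Real.norm_eq_abs, abs_of_nonneg (hb _).1]
  exact (hb _).2

instance instJJ [IsProbabilityMeasure κ] [IsProbabilityMeasure τ] [IsProbabilityMeasure π']
    [IsProbabilityMeasure π] (n : ℕ) : IsProbabilityMeasure (JJ κ τ π' π n) := by
  induction n with
  | zero => simp only [JJ]; infer_instance
  | succ n ih =>
    simp only [JJ]
    exact Measure.isProbabilityMeasure_map measurable_step2.aemeasurable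

theorem int_FF_succ [IsProbabilityMeasure κ] [IsProbabilityMeasure τ] [IsProbabilityMeasure π']
    [IsProbabilityMeasure π] (n j : ℕ) :
    ∫ x, FF κ τ j x ∂(JJ κ τ π' π (n + 1)) = ∫ x, FF κ τ (j + 1) x ∂(JJ κ τ π' π n) := by
  obtain ⟨hm, hb⟩ := FF_props (m := m) (κ := κ) (τ := τ) j
  rw [JJ, integral_map measurable_step2.aemeasurable hm.aestronglyMeasurable]
  have hi : Integrable (fun q => FF κ τ j (step2 q)) ((JJ κ τ π' π n).prod (κ.prod τ)) := by
    refine Integrable.of_bound (hm.comp measurable_step2).aestronglyMeasurable 1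
      (Eventually.of_forall fun z => ?_)
    rw [Real.norm_eq_abs, abs_of_nonneg (hb _).1]
    exact (hb _).2
  rw [integral_prod _ hi]
  rfl

theorem int_FF_add [IsProbabilityMeasure κ] [IsProbabilityMeasure τ] [IsProbabilityMeasure π']
    [IsProbabilityMeasure π] (n M : ℕ) :
    ∫ x, FF κ τ 0 x ∂(JJ κ τ π' π (n + M)) = ∫ x, FF κ τ M x ∂(JJ κ τ π' π n) := by
  have : ∀ j, ∫ x, FF κ τ j x ∂(JJ κ τ π' π (n + M)) = ∫ x, FF κ τ (j + M) x ∂(JJ κ τ π' π n) := by
    induction M with
    | zero => intro j; rfl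
    | succ M ih =>
      intro j
      rw [show n + (M + 1) = (n + M) + 1 by ring, int_FF_succ, ih,
        show j + 1 + M = j + (M + 1) by ring]
  simpa using this 0

/-- The marginals of the coupled chain do not change. -/
theorem marg [IsProbabilityMeasure κ] [IsProbabilityMeasure τ]
    (hκ1 : Measure.map Prod.fst κ = σ') (hκ2 : Measure.map Prod.snd κ = σ)
    (h' : IsStat σ' τ π') (h : IsStat σ τ π) (n : ℕ) :
    Measure.map Prod.fst (JJ κ τ π' π n) = π' ∧ Measure.map Prod.snd (JJ κ τ π' π n) = π := by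
  have := h'.1; have := h.1
  induction n with
  | zero =>
    simp only [JJ]
    exact ⟨by rw [Measure.map_fst_prod]; simp, by rw [Measure.map_snd_prod]; simp⟩
  | succ n ih =>
    obtain ⟨ih1, ih2⟩ := ih
    constructor
    · rw [JJ, Measure.map_map measurable_fst measurable_step2]
      have e : (Prod.fst ∘ step2 (m := m)) = (fun p : Vec m × (ℝ × ℝ) => kwStep p.1 p.2.1 p.2.2)
          ∘ (Prod.map Prod.fst (Prod.map Prod.fst id)) := rfl
      rw [e, ← Measure.map_map measurable_kwStep
        (measurable_fst.prodMap (measurable_fst.prodMap measurable_id)),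
        ← Measure.map_prod_map _ _ measurable_fst (measurable_fst.prodMap measurable_id),
        ← Measure.map_prod_map _ _ measurable_fst measurable_id, ih1, hκ1, Measure.map_id]
      exact h'.2.2
    · rw [JJ, Measure.map_map measurable_snd measurable_step2]
      have e : (Prod.snd ∘ step2 (m := m)) = (fun p : Vec m × (ℝ × ℝ) => kwStep p.1 p.2.1 p.2.2)
          ∘ (Prod.map Prod.snd (Prod.map Prod.snd id)) := rfl
      rw [e, ← Measure.map_map measurable_kwStep
        (measurable_snd.prodMap (measurable_snd.prodMap measurable_id)),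
        ← Measure.map_prod_map _ _ measurable_snd (measurable_snd.prodMap measurable_id),
        ← Measure.map_prod_map _ _ measurable_snd measurable_id, ih2, hκ2, Measure.map_id]
      exact h.2.2

/-- The event that the drivers are close to fixed values. -/
def AA (s0 t0 ρ : ℝ) : Set ((ℝ × ℝ) × ℝ) :=
  {z | |z.1.1 - s0| ≤ ρ ∧ |z.1.2 - s0| ≤ ρ ∧ |z.2 - t0| ≤ ρ}

theorem measurableSet_AA (s0 t0 ρ : ℝ) : MeasurableSet (AA s0 t0 ρ) := by
  have h1 : Measurable fun z : (ℝ × ℝ) × ℝ => |z.1.1 - s0| := by fun_prop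
  have h2 : Measurable fun z : (ℝ × ℝ) × ℝ => |z.1.2 - s0| := by fun_prop
  have h3 : Measurable fun z : (ℝ × ℝ) × ℝ => |z.2 - t0| := by fun_prop
  exact (measurableSet_le h1 measurable_const).inter
    ((measurableSet_le h2 measurable_const).inter (measurableSet_le h3 measurable_const))

/-- The mean truncated distance of the service times. -/
noncomputable def eta (κ : Measure (ℝ × ℝ)) : ℝ := ∫ z, min 1 |z.1 - z.2| ∂κ

theorem eta_nonneg (κ : Measure (ℝ × ℝ)) : 0 ≤ eta κ :=
  integral_nonneg fun z => le_min zero_le_one (abs_nonneg _)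

theorem F0_step (x : Vec m × Vec m) (z : (ℝ × ℝ) × ℝ) :
    F0 (step2 (x, z)) ≤ F0 x + min 1 |z.1.1 - z.1.2| := by
  have h := nrm_kwStep_sub x.1 x.2 z.1.1 z.1.2 z.2 z.2
  rw [sub_self, abs_zero, mul_zero, add_zero] at h
  have h1 : F0 (step2 (x, z)) ≤ min 1 (nrm (x.1 - x.2) + |z.1.1 - z.1.2|) := min_le_min le_rfl h
  refine h1.trans ?_
  simp only [F0]
  rcases le_total 1 (nrm (x.1 - x.2)) with h2 | h2
  · rw [min_eq_left h2]
    exact (min_le_left _ _).trans (le_add_of_nonneg_right (le_min zero_le_one (abs_nonneg _)))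
  · rw [min_eq_right h2]
    rcases le_total 1 |z.1.1 - z.1.2| with h3 | h3
    · rw [min_eq_left h3]
      exact (min_le_left _ _).trans (by linarith [nrm_nonneg (x.1 - x.2)])
    · rw [min_eq_right h3]
      exact min_le_right _ _

theorem int_g [IsProbabilityMeasure κ] [IsProbabilityMeasure τ] :
    Integrable (fun z : (ℝ × ℝ) × ℝ => min 1 |z.1.1 - z.1.2|) (κ.prod τ) ∧
    ∫ z, min 1 |z.1.1 - z.1.2| ∂(κ.prod τ) = eta κ := by
  constructor
  · have hm : Measurable (fun z : (ℝ × ℝ) × ℝ => min 1 |z.1.1 - z.1.2|) := by fun_prop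
    refine Integrable.of_bound hm.aestronglyMeasurable 1 (Eventually.of_forall fun z => ?_)
    rw [Real.norm_eq_abs, abs_of_nonneg (le_min zero_le_one (abs_nonneg _))]
    exact min_le_left _ _
  · have := integral_fun_fst (μ := κ) (ν := τ) (fun z : ℝ × ℝ => min 1 |z.1 - z.2|)
    rw [this, eta]; simp

theorem FF_le [IsProbabilityMeasure κ] [IsProbabilityMeasure τ] (j : ℕ) (x : Vec m × Vec m) :
    FF κ τ j x ≤ F0 x + j * eta κ := by
  induction j generalizing x with
  | zero => simp [FF]
  | succ j ih =>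
    obtain ⟨i1, e1⟩ := int_g (κ := κ) (τ := τ)
    have h1 : FF κ τ (j + 1) x ≤ ∫ z, ((F0 x + j * eta κ) + min 1 |z.1.1 - z.1.2|) ∂(κ.prod τ) := by
      refine integral_mono (igr_FF j x) ((integrable_const _).add i1) fun z => ?_
      have h2 := ih (step2 (x, z))
      have h3 := F0_step x z
      simp only
      linarith
    rw [integral_add (integrable_const _) i1, e1] at h1
    simp only [integral_const, probReal_univ, smul_eq_mul, one_mul] at h1
    push_cast
    linarith

/-- The constant of the estimate. -/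
noncomputable def cc (m : ℕ) : ℝ := 2 * (1 + √((m + 1 : ℕ) : ℝ))

theorem claim [IsProbabilityMeasure κ] [IsProbabilityMeasure τ] {s0 t0 ρ : ℝ}
    (j : ℕ) (v w x y : Vec m) :
    FF κ τ j (v, w) ≤ ((κ.prod τ).real (AA s0 t0 ρ)) ^ j
        * (nrm ((dstep m s0 t0)^[j] x - (dstep m s0 t0)^[j] y) + nrm (v - x) + nrm (w - y)
          + j * (cc m * ρ))
      + (1 - ((κ.prod τ).real (AA s0 t0 ρ)) ^ j) * F0 (v, w) + j * eta κ := by
  set p := (κ.prod τ).real (AA s0 t0 ρ) with hp
  have hp0 : 0 ≤ p := measureReal_nonneg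
  have hp1 : p ≤ 1 := measureReal_le_one
  induction j generalizing v w x y with
  | zero =>
    simp only [Function.iterate_zero, id, pow_zero, one_mul, Nat.cast_zero, zero_mul, sub_self,
      add_zero, FF]
    refine (min_le_right _ _).trans ?_
    have h1 := nrm_sub_le v x w
    have h2 := nrm_sub_le x y w
    rw [nrm_sub_comm y w] at h2
    simp only
    linarith
  | succ j ih =>
    obtain ⟨i1, e1⟩ := int_g (κ := κ) (τ := τ)
    set B := nrm ((dstep m s0 t0)^[j + 1] x - (dstep m s0 t0)^[j + 1] y) + nrm (v - x)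
      + nrm (w - y) + ((j + 1 : ℕ) : ℝ) * (cc m * ρ) with hB
    have hpj : p ^ j ≤ 1 := pow_le_one₀ hp0 hp1
    have hpj0 : 0 ≤ p ^ j := pow_nonneg hp0 j
    have key : ∀ z : (ℝ × ℝ) × ℝ, FF κ τ j (step2 ((v, w), z))
        ≤ (AA s0 t0 ρ).indicator (fun _ => (1 : ℝ)) z * (p ^ j * (B - F0 (v, w)))
          + ((F0 (v, w) + j * eta κ) + min 1 |z.1.1 - z.1.2|) := by
      intro z
      have hg0 : 0 ≤ min 1 |z.1.1 - z.1.2| := le_min zero_le_one (abs_nonneg _)
      have h3 := F0_step (v, w) z
      by_cases hz : z ∈ AA s0 t0 ρ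
      · rw [Set.indicator_of_mem hz, one_mul]
        have h1 := ih (kwStep v z.1.1 z.2) (kwStep w z.1.2 z.2) (dstep m s0 t0 x) (dstep m s0 t0 y)
        rw [← Function.iterate_succ_apply, ← Function.iterate_succ_apply] at h1
        have h4 := nrm_kwStep_sub v x z.1.1 s0 z.2 t0
        have h5 := nrm_kwStep_sub w y z.1.2 s0 z.2 t0
        obtain ⟨a1, a2, a3⟩ := hz
        have hsq : 0 ≤ √((m + 1 : ℕ) : ℝ) := Real.sqrt_nonneg _
        have h6 : √((m + 1 : ℕ) : ℝ) * |z.2 - t0| ≤ √((m + 1 : ℕ) : ℝ) * ρ :=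
          mul_le_mul_of_nonneg_left a3 hsq
        have h7 : nrm ((dstep m s0 t0)^[j.succ] x - (dstep m s0 t0)^[j.succ] y)
            + nrm (kwStep v z.1.1 z.2 - dstep m s0 t0 x) + nrm (kwStep w z.1.2 z.2 - dstep m s0 t0 y)
            + j * (cc m * ρ) ≤ B := by
          rw [hB, cc]
          simp only [dstep] at *
          push_cast
          push_cast at h4 h5 h6
          linarith
        have h8 : p ^ j * (nrm ((dstep m s0 t0)^[j.succ] x - (dstep m s0 t0)^[j.succ] y)
            + nrm (kwStep v z.1.1 z.2 - dstep m s0 t0 x) + nrm (kwStep w z.1.2 z.2 - dstep m s0 t0 y)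
            + j * (cc m * ρ)) ≤ p ^ j * B := mul_le_mul_of_nonneg_left h7 hpj0
        have h9 : (1 - p ^ j) * F0 (step2 ((v, w), z))
            ≤ (1 - p ^ j) * (F0 (v, w) + min 1 |z.1.1 - z.1.2|) :=
          mul_le_mul_of_nonneg_left h3 (by linarith)
        have h10 : (1 - p ^ j) * min 1 |z.1.1 - z.1.2| ≤ min 1 |z.1.1 - z.1.2| := by nlinarith
        change FF κ τ j (kwStep v z.1.1 z.2, kwStep w z.1.2 z.2) ≤ _
        have h11 : F0 (step2 ((v, w), z)) = F0 (kwStep v z.1.1 z.2, kwStep w z.1.2 z.2) := rfl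
        rw [h11] at h9
        linarith
      · rw [Set.indicator_of_notMem hz, zero_mul, zero_add]
        have h1 := FF_le (κ := κ) (τ := τ) j (step2 ((v, w), z))
        linarith
    have i2 : Integrable (fun z : (ℝ × ℝ) × ℝ => (AA s0 t0 ρ).indicator (fun _ => (1 : ℝ)) z)
        (κ.prod τ) := (integrable_indicator_iff (measurableSet_AA _ _ _)).2
          (integrable_const _).integrableOn
    have h1 : FF κ τ (j + 1) (v, w) ≤ ∫ z, ((AA s0 t0 ρ).indicator (fun _ => (1 : ℝ)) z
        * (p ^ j * (B - F0 (v, w))) + ((F0 (v, w) + j * eta κ) + min 1 |z.1.1 - z.1.2|)) ∂(κ.prod τ) :=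
      integral_mono (igr_FF j (v, w)) ((i2.mul_const _).add ((integrable_const _).add i1)) key
    have e3 := integral_add (i2.mul_const (p ^ j * (B - F0 (v, w))))
      ((integrable_const (F0 (v, w) + j * eta κ)).add i1)
    have e4 := integral_add (integrable_const (F0 (v, w) + j * eta κ)) i1
    simp only [Pi.add_apply] at e3 e4
    rw [e3, e4, e1, integral_mul_const, integral_indicator (measurableSet_AA _ _ _)] at h1
    simp only [integral_const, probReal_univ, smul_eq_mul, one_mul, mul_one,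
      MeasurableSet.univ, measureReal_restrict_apply, Set.univ_inter] at h1
    rw [← hp] at h1
    push_cast
    push_cast at hB
    have e2 : p * (p ^ j * (B - F0 (v, w))) = p ^ (j + 1) * B - p ^ (j + 1) * F0 (v, w) := by ring
    rw [e2] at h1
    linarith

end Pool.Agent.K9h80.GQ
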