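import Mathlib

/-!
# Stationary laws of the workload vectors of a many-server queue: definitions
-/

set_option autoImplicit false

open MeasureTheory

namespace Pool.Agent.K9h80.GQ

/-- The entries of `y` in nondecreasing order. -/
noncomputable def sorted {n : ℕ} (y : Fin n → ℝ) : Fin n → ℝ := y ∘ Tuple.sort y

/-- The residual workloads of the servers at the next arrival, in the order of the old vector:
the customer with service time `s` goes to the server with the smallest workload (index `0`), then
`t` units of time elapse. -/
noncomputable def after {k : ℕ} (w : Fin k → ℝ) (s t : ℝ) : Fin k → ℝ :=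
  fun i => max ((if (i : ℕ) = 0 then w i + s else w i) - t) 0

/-- One step of the Kiefer-Wolfowitz recursion. -/
noncomputable def kwStep {k : ℕ} (w : Fin k → ℝ) (s t : ℝ) : Fin k → ℝ := sorted (after w s t)

/-- `π` is a stationary law of the workload vectors of the system with service law `σ` and
interarrival law `τ`: it is a probability measure on the nondecreasing vectors with nonnegative
entries, and it is the law of the next vector if the present vector has law `π` and the service
time and the interarrival time are independent of it and of each other. -/
def IsStat {k : ℕ} (σ τ : Measure ℝ) (π : Measure (Fin k → ℝ)) : Prop :=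
  IsProbabilityMeasure π ∧ (∀ᵐ w ∂π, Monotone w ∧ ∀ i, 0 ≤ w i) ∧
    Measure.map (fun p : (Fin k → ℝ) × (ℝ × ℝ) => kwStep p.1 p.2.1 p.2.2) (π.prod (σ.prod τ)) = π

/-- The law of the perturbed service time: `S (1 - β ε)` with probability `1 / (1 + ε ^ 2)` and
`S (1 + β / ε)` with probability `ε ^ 2 / (1 + ε ^ 2)`, independently of `S` with law `σ`. -/
noncomputable def perturb (σ : Measure ℝ) (β ε : ℝ) : Measure ℝ :=
  ENNReal.ofReal (1 / (1 + ε ^ 2)) • Measure.map (fun s => s * (1 - β * ε)) σ
    + ENNReal.ofReal (ε ^ 2 / (1 + ε ^ 2)) • Measure.map (fun s => s * (1 + β / ε)) σ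

end Pool.Agent.K9h80.GQ
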