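import Pool.Agent.K9h80.GQ.Pert

/-!
# The stationary laws of the perturbed systems are close to the one of the original system
-/

set_option autoImplicit false

open MeasureTheory Finset Filter Topology

namespace Pool.Agent.K9h80.GQ

variable {m : ℕ} {σ τ : Measure ℝ} {π π0 : Measure (Vec m)} {β ε : ℝ}

/-- The coupling of the perturbed and the original service time. -/
noncomputable def kap (σ : Measure ℝ) (β ε : ℝ) : Measure (ℝ × ℝ) :=
  ENNReal.ofReal (1 / (1 + ε ^ 2)) • Measure.map (fun s => (s * (1 - β * ε), s)) σ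
    + ENNReal.ofReal (ε ^ 2 / (1 + ε ^ 2)) • Measure.map (fun s => (s * (1 + β / ε), s)) σ

theorem meas_p (c : ℝ) : Measurable fun s : ℝ => (s * c, s) := by fun_prop

theorem prob_kap (hσ : IsProbabilityMeasure σ) : IsProbabilityMeasure (kap σ β ε) := by
  constructor
  have h1 : IsProbabilityMeasure (Measure.map (fun s : ℝ => (s * (1 - β * ε), s)) σ) :=
    Measure.isProbabilityMeasure_map (meas_p _).aemeasurable
  have h2 : IsProbabilityMeasure (Measure.map (fun s : ℝ => (s * (1 + β / ε), s)) σ) :=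
    Measure.isProbabilityMeasure_map (meas_p _).aemeasurable
  rw [kap, Measure.add_apply, Measure.smul_apply, Measure.smul_apply, measure_univ,
    measure_univ, smul_eq_mul, smul_eq_mul, mul_one, mul_one, ← ENNReal.ofReal_add (by positivity)
      (by positivity), ← add_div, div_self (by positivity), ENNReal.ofReal_one]

theorem fst_kap : Measure.map Prod.fst (kap σ β ε) = perturb σ β ε := by
  rw [kap, perturb, Measure.map_add _ _ measurable_fst, Measure.map_smul, Measure.map_smul,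
    Measure.map_map measurable_fst (meas_p _), Measure.map_map measurable_fst (meas_p _)]
  rfl

theorem snd_kap : Measure.map Prod.snd (kap σ β ε) = σ := by
  rw [kap, Measure.map_add _ _ measurable_snd, Measure.map_smul, Measure.map_smul,
    Measure.map_map measurable_snd (meas_p _), Measure.map_map measurable_snd (meas_p _)]
  have e : ∀ c : ℝ, Prod.snd ∘ (fun s : ℝ => (s * c, s)) = id := fun c => rfl
  rw [e, e, Measure.map_id, ← add_smul, ← ENNReal.ofReal_add (by positivity) (by positivity),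
    ← add_div, div_self (by positivity), ENNReal.ofReal_one, one_smul]

theorem eta_kap (hσ : IsProbabilityMeasure σ) (hβ : 0 < β) (h0 : 0 < ε)
    (hn : ∀ᵐ s ∂σ, 0 ≤ s) (hi : Integrable (fun s : ℝ => s) σ) :
    eta (kap σ β ε) ≤ β * ε * ∫ s, s ∂σ + ε ^ 2 := by
  set f : ℝ × ℝ → ℝ := fun z => min 1 |z.1 - z.2| with hf
  have mf : Measurable f := by fun_prop
  have bf : ∀ z, 0 ≤ f z ∧ f z ≤ 1 := fun z => ⟨le_min zero_le_one (abs_nonneg _), min_le_left _ _⟩
  have h1 : IsProbabilityMeasure (Measure.map (fun s : ℝ => (s * (1 - β * ε), s)) σ) :=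
    Measure.isProbabilityMeasure_map (meas_p _).aemeasurable
  have h2 : IsProbabilityMeasure (Measure.map (fun s : ℝ => (s * (1 + β / ε), s)) σ) :=
    Measure.isProbabilityMeasure_map (meas_p _).aemeasurable
  have hint : ∀ μ : Measure (ℝ × ℝ), IsProbabilityMeasure μ → Integrable f μ := by
    intro μ hμ
    refine Integrable.of_bound mf.aestronglyMeasurable 1 (Eventually.of_forall fun z => ?_)
    rw [Real.norm_eq_abs, abs_of_nonneg (bf z).1]; exact (bf z).2
  have j1 := (hint _ h1).smul_measure (ENNReal.ofReal_ne_top (r := 1 / (1 + ε ^ 2)))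
  have j2 := (hint _ h2).smul_measure (ENNReal.ofReal_ne_top (r := ε ^ 2 / (1 + ε ^ 2)))
  have e : eta (kap σ β ε) = 1 / (1 + ε ^ 2) * ∫ s, f (s * (1 - β * ε), s) ∂σ
      + ε ^ 2 / (1 + ε ^ 2) * ∫ s, f (s * (1 + β / ε), s) ∂σ := by
    change ∫ z, f z ∂(kap σ β ε) = _
    rw [kap, integral_add_measure j1 j2, integral_smul_measure, integral_smul_measure,
      integral_map (meas_p _).aemeasurable mf.aestronglyMeasurable,
      integral_map (meas_p _).aemeasurable mf.aestronglyMeasurable,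
      ENNReal.toReal_ofReal (by positivity), ENNReal.toReal_ofReal (by positivity)]
    rfl
  have i1 : Integrable (fun s : ℝ => f (s * (1 - β * ε), s)) σ := by
    refine Integrable.of_bound (mf.comp (meas_p _)).aestronglyMeasurable 1
      (Eventually.of_forall fun z => ?_)
    rw [Real.norm_eq_abs, abs_of_nonneg (bf _).1]; exact (bf _).2
  have i2 : Integrable (fun s : ℝ => f (s * (1 + β / ε), s)) σ := by
    refine Integrable.of_bound (mf.comp (meas_p _)).aestronglyMeasurable 1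
      (Eventually.of_forall fun z => ?_)
    rw [Real.norm_eq_abs, abs_of_nonneg (bf _).1]; exact (bf _).2
  have b1 : ∫ s, f (s * (1 - β * ε), s) ∂σ ≤ ∫ s, β * ε * s ∂σ := by
    refine integral_mono_ae i1 (hi.const_mul _) ?_
    filter_upwards [hn] with s hs
    refine (min_le_right _ _).trans (le_of_eq ?_)
    simp only
    rw [show s * (1 - β * ε) - s = -(β * ε * s) by ring, abs_neg, abs_of_nonneg (by positivity)]
  have b2 : ∫ s, f (s * (1 + β / ε), s) ∂σ ≤ ∫ _s, (1 : ℝ) ∂σ :=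
    integral_mono i2 (integrable_const _) fun s => (bf _).2
  rw [integral_const_mul] at b1
  simp only [integral_const, probReal_univ, smul_eq_mul, one_mul] at b2
  have hm : 0 ≤ ∫ s, s ∂σ := integral_nonneg_of_ae hn
  have hA : 1 / (1 + ε ^ 2) ≤ 1 := by
    rw [div_le_one (by positivity)]; nlinarith [sq_nonneg ε]
  have hB : ε ^ 2 / (1 + ε ^ 2) ≤ ε ^ 2 := by
    rw [div_le_iff₀ (by positivity)]; nlinarith [sq_nonneg ε, sq_nonneg (ε ^ 2)]
  have hA0 : 0 < 1 / (1 + ε ^ 2) := by positivity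
  have hB0 : 0 < ε ^ 2 / (1 + ε ^ 2) := by positivity
  have c1 : 1 / (1 + ε ^ 2) * ∫ s, f (s * (1 - β * ε), s) ∂σ ≤ β * ε * ∫ s, s ∂σ := by
    have h3 : 0 ≤ ∫ s, f (s * (1 - β * ε), s) ∂σ := integral_nonneg fun s => (bf _).1
    nlinarith
  have c2 : ε ^ 2 / (1 + ε ^ 2) * ∫ s, f (s * (1 + β / ε), s) ∂σ ≤ ε ^ 2 := by
    nlinarith
  rw [e]; linarith

theorem box_kap (hσ : IsProbabilityMeasure σ) (hτ : IsProbabilityMeasure τ) (hβ : 0 < β)
    (h0 : 0 < ε) (h1 : ε ≤ 1) {s0 t0 ρ : ℝ} (hs0 : 0 ≤ s0) (hρ : 0 < ρ)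
    (hsm : β * ε * (s0 + ρ) ≤ ρ / 2) :
    1 / 2 * (σ.real {s | |s - s0| ≤ ρ / 2}) * (τ.real {t | |t - t0| ≤ ρ})
      ≤ ((kap σ β ε).prod τ).real (AA s0 t0 ρ) := by
  have hp := prob_kap (β := β) (ε := ε) hσ
  set B1 : Set (ℝ × ℝ) := {z | |z.1 - s0| ≤ ρ ∧ |z.2 - s0| ≤ ρ} with hB1
  have mB1 : MeasurableSet B1 := by
    have h1 : Measurable fun z : ℝ × ℝ => |z.1 - s0| := by fun_prop
    have h2 : Measurable fun z : ℝ × ℝ => |z.2 - s0| := by fun_prop
    exact (measurableSet_le h1 measurable_const).inter (measurableSet_le h2 measurable_const)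
  have hsub : B1 ×ˢ {t | |t - t0| ≤ ρ} ⊆ AA s0 t0 ρ := by
    rintro z ⟨hz1, hz2⟩
    exact ⟨hz1.1, hz1.2, hz2⟩
  have h2 : (kap σ β ε).real B1 * τ.real {t | |t - t0| ≤ ρ}
      ≤ ((kap σ β ε).prod τ).real (AA s0 t0 ρ) := by
    rw [← measureReal_prod_prod]
    exact measureReal_mono hsub
  refine le_trans ?_ h2
  refine mul_le_mul_of_nonneg_right ?_ measureReal_nonneg
  have hsub2 : {s | |s - s0| ≤ ρ / 2} ⊆ (fun s : ℝ => (s * (1 - β * ε), s)) ⁻¹' B1 := by
    intro s hs
    have hs' : |s - s0| ≤ ρ / 2 := hs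
    refine ⟨?_, ?_⟩
    · have h3 : |s| ≤ s0 + ρ := by
        have := abs_sub_abs_le_abs_sub s s0
        rw [abs_of_nonneg hs0] at this
        linarith
      have h4 : |s * (1 - β * ε) - s0| ≤ |s - s0| + β * ε * |s| := by
        have e : s * (1 - β * ε) - s0 = (s - s0) - β * ε * s := by ring
        rw [e]
        refine (abs_sub _ _).trans (le_of_eq ?_)
        rw [abs_mul, abs_of_pos (by positivity : 0 < β * ε)]
      have h5 : β * ε * |s| ≤ β * ε * (s0 + ρ) := mul_le_mul_of_nonneg_left h3 (by positivity)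
      simp only
      linarith
    · simp only
      linarith
  have h3 : ENNReal.ofReal (1 / 2) * σ {s | |s - s0| ≤ ρ / 2} ≤ kap σ β ε B1 := by
    rw [kap, Measure.add_apply, Measure.smul_apply, smul_eq_mul,
      Measure.map_apply (meas_p _) mB1]
    refine le_trans ?_ le_self_add
    refine mul_le_mul' (ENNReal.ofReal_le_ofReal ?_) (measure_mono hsub2)
    rw [div_le_div_iff₀ (by norm_num) (by positivity)]
    nlinarith
  have h4 := ENNReal.toReal_mono (measure_ne_top _ _) h3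
  rw [ENNReal.toReal_mul, ENNReal.toReal_ofReal (by norm_num)] at h4
  exact h4

/-- Bounded Lipschitz functions of the workload vectors converge in mean. -/
theorem cmp_perturb (hs : Sys m σ τ) (hβ : 0 < β) (hπ0 : IsStat σ τ π0) {δ : ℝ} (hδ : 0 < δ) :
    ∀ᶠ ε in 𝓝[>] (0 : ℝ), ∀ π : Measure (Vec m), IsStat (perturb σ β ε) τ π →
      ∀ f : Vec m → ℝ, Measurable f → ∀ L : ℝ, 0 ≤ L →
        (∀ v w, |f v - f w| ≤ L * min 1 (nrm (v - w))) →
        |∫ w, f w ∂π - ∫ w, f w ∂π0| ≤ L * δ := by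
  have := hs.pσ; have := hs.pτ; have := hπ0.1
  obtain ⟨s0, hs0, hs0', hsp⟩ := exists_below hs.s0 (igr_s hs)
  obtain ⟨t0, ht0, htp⟩ := exists_above (igr_t hs)
  have hET := mean_t_pos hs
  have ht0' : 0 ≤ t0 := hET.le.trans ht0
  have hst : s0 < (m + 1) * t0 := by
    have h1 := hs.stab
    have hm : (0 : ℝ) < m + 1 := by positivity
    nlinarith
  have hAP := AP_nonneg (β := β) hs
  have hT0 : 0 ≤ ∫ w, tot w ∂π0 := integral_nonneg_of_ae (hπ0.2.1.mono fun w hw => tot_nonneg hw.2)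
  set T := AP m σ τ β + ∫ w, tot w ∂π0 with hT
  have hTn : 0 ≤ T := by positivity
  set R := 4 * (T + 1) / δ with hR
  have hRp : 0 < R := by positivity
  obtain ⟨M, hM⟩ := exists_merge (m := m) hRp.le hs0 ht0' hst
  have hcc : 0 ≤ cc m := by unfold cc; positivity
  set ρ := δ / (4 * (M * cc m + 1)) with hρ
  have hρp : 0 < ρ := by positivity
  set q := (1 / 2 * (σ.real {s | |s - s0| ≤ ρ / 2}) * (τ.real {t | |t - t0| ≤ ρ})) ^ M with hq
  have hq0 : 0 < 1 / 2 * (σ.real {s | |s - s0| ≤ ρ / 2}) * (τ.real {t | |t - t0| ≤ ρ}) := by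
    have h1 := hsp (ρ / 2) (by positivity)
    have h2 := htp ρ hρp
    positivity
  have hqp : 0 < q := pow_pos hq0 M
  have hlim1 : Tendsto (fun ε : ℝ => β * ε * (s0 + ρ)) (𝓝[>] 0) (𝓝 (β * 0 * (s0 + ρ))) :=
    (Continuous.tendsto (by fun_prop) 0).mono_left nhdsWithin_le_nhds
  have hlim2 : Tendsto (fun ε : ℝ => M * (β * ε * (∫ s, s ∂σ) + ε ^ 2) / q) (𝓝[>] 0)
      (𝓝 (M * (β * 0 * (∫ s, s ∂σ) + 0 ^ 2) / q)) :=
    (Continuous.tendsto (f := fun ε : ℝ => M * (β * ε * (∫ s, s ∂σ) + ε ^ 2) / q)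
      (by fun_prop) 0).mono_left nhdsWithin_le_nhds
  have ev1 : ∀ᶠ ε in 𝓝[>] (0 : ℝ), β * ε * (s0 + ρ) < ρ / 2 :=
    hlim1.eventually_lt_const (by simp; positivity)
  have ev2 : ∀ᶠ ε in 𝓝[>] (0 : ℝ), M * (β * ε * (∫ s, s ∂σ) + ε ^ 2) / q < δ / 4 :=
    hlim2.eventually_lt_const (by simp; positivity)
  have ev3 : ∀ᶠ ε in 𝓝[>] (0 : ℝ), ε ∈ Set.Ioo (0 : ℝ) (min (1 / β) 1) :=
    Ioo_mem_nhdsGT (by positivity)
  filter_upwards [ev1, ev2, ev3] with ε h1 h2 h3 π hπ f mf L hL hfL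
  obtain ⟨h4, h5⟩ := h3
  have hε1 : ε < 1 / β := lt_of_lt_of_le h5 (min_le_left _ _)
  have hε2 : ε ≤ 1 := h5.le.trans (min_le_right _ _)
  have := hπ.1
  have hs' := sys_perturb hs hβ h4 hε1
  have htot := tot_perturb hs hβ h4 hε1 hπ
  have hpk := prob_kap (β := β) (ε := ε) hs.pσ
  have bd : ∀ w, |f w| ≤ |f 0| + L := by
    intro w
    have h6 := hfL w 0
    have h7 : L * min 1 (nrm (w - 0)) ≤ L * 1 := mul_le_mul_of_nonneg_left (min_le_left _ _) hL
    have h8 := abs_sub_abs_le_abs_sub (f w) (f 0)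
    linarith
  have if1 : Integrable f π := Integrable.of_bound mf.aestronglyMeasurable (|f 0| + L)
    (Eventually.of_forall fun w => bd w)
  have if2 : Integrable f π0 := Integrable.of_bound mf.aestronglyMeasurable (|f 0| + L)
    (Eventually.of_forall fun w => bd w)
  have hbox := box_kap (σ := σ) (τ := τ) (t0 := t0) hs.pσ hs.pτ hβ h4 hε2 hs0 hρp h1.le
  have hqq : q ≤ (((kap σ β ε).prod τ).real (AA s0 t0 ρ)) ^ M := pow_le_pow_left₀ hq0.le hbox M
  have key := compare hs' hs (κ := kap σ β ε) fst_kap snd_kap hπ hπ0 hρp.le hRp hM hqp hqq mf hL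
    hfL if1 if2
  refine key.trans (mul_le_mul_of_nonneg_left ?_ hL)
  have b1 : M * (cc m * ρ) ≤ δ / 4 := by
    rw [hρ]
    have h6 : (M : ℝ) * (cc m * (δ / (4 * (M * cc m + 1)))) = δ / 4 * (M * cc m / (M * cc m + 1)) := by
      field_simp
    rw [h6]
    have h7 : (M : ℝ) * cc m / (M * cc m + 1) ≤ 1 := by
      rw [div_le_one (by positivity)]; linarith
    nlinarith
  have b2 : (∫ w, tot w ∂π + ∫ w, tot w ∂π0) / R ≤ δ / 4 := by
    rw [div_le_iff₀ hRp, hR]
    have h6 : δ / 4 * (4 * (T + 1) / δ) = T + 1 := by field_simp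
    rw [h6]
    linarith [htot.2]
  have b3 : M * eta (kap σ β ε) / q ≤ δ / 4 := by
    refine le_trans ?_ h2.le
    refine div_le_div_of_nonneg_right ?_ hqp.le
    exact mul_le_mul_of_nonneg_left (eta_kap hs.pσ hβ h4 hs.s0 (igr_s hs)) (Nat.cast_nonneg M)
  linarith

end Pool.Agent.K9h80.GQ
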