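import Pool.Agent.K9h80.GQ.AsymF
import Pool.Agent.K9h80.GQ.PCoup

/-!
# The limits of the differences of the mean workloads
-/

set_option autoImplicit false

open MeasureTheory Finset Filter Topology

namespace Pool.Agent.K9h80.GQ

section functions

variable {β : ℝ}

theorem lim1 (β : ℝ) : Tendsto (fun ε : ℝ => ε ^ 2 / (1 + ε ^ 2) * (1 + β / ε) ^ 2) (𝓝[>] 0)
    (𝓝 (β ^ 2)) := by
  have h : Tendsto (fun ε : ℝ => (ε + β) ^ 2 / (1 + ε ^ 2)) (𝓝[>] 0)
      (𝓝 ((0 + β) ^ 2 / (1 + 0 ^ 2))) := by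
    refine (ContinuousAt.tendsto ?_).mono_left nhdsWithin_le_nhds
    refine ContinuousAt.div (by fun_prop) (by fun_prop) (by norm_num)
  have e : (0 + β) ^ 2 / (1 + (0 : ℝ) ^ 2) = β ^ 2 := by simp
  rw [e] at h
  refine h.congr' ?_
  filter_upwards [self_mem_nhdsWithin] with ε hε
  have : ε ≠ 0 := (Set.mem_Ioi.1 hε).ne'
  field_simp

theorem lim2 (β : ℝ) : Tendsto (fun ε : ℝ => ε ^ 2 / (1 + ε ^ 2) * (2 * (1 + β / ε))) (𝓝[>] 0)
    (𝓝 0) := by
  have h : Tendsto (fun ε : ℝ => 2 * (ε * (ε + β)) / (1 + ε ^ 2)) (𝓝[>] 0)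
      (𝓝 (2 * (0 * (0 + β)) / (1 + 0 ^ 2))) := by
    refine (ContinuousAt.tendsto ?_).mono_left nhdsWithin_le_nhds
    refine ContinuousAt.div (by fun_prop) (by fun_prop) (by norm_num)
  have e : 2 * (0 * (0 + β)) / (1 + (0 : ℝ) ^ 2) = 0 := by simp
  rw [e] at h
  refine h.congr' ?_
  filter_upwards [self_mem_nhdsWithin] with ε hε
  have : ε ≠ 0 := (Set.mem_Ioi.1 hε).ne'
  field_simp

theorem lim3 : Tendsto (fun ε : ℝ => ε ^ 2 / (1 + ε ^ 2)) (𝓝[>] 0) (𝓝 0) := by
  have h : Tendsto (fun ε : ℝ => ε ^ 2 / (1 + ε ^ 2)) (𝓝[>] 0)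
      (𝓝 (0 ^ 2 / (1 + 0 ^ 2))) := by
    refine (ContinuousAt.tendsto ?_).mono_left nhdsWithin_le_nhds
    refine ContinuousAt.div (by fun_prop) (by fun_prop) (by norm_num)
  have e : 0 ^ 2 / (1 + (0 : ℝ) ^ 2) = 0 := by simp
  rwa [e] at h

theorem lim4 (β : ℝ) : Tendsto (fun ε : ℝ => ε ^ 2 * (1 + β / ε)) (𝓝[>] 0) (𝓝 0) := by
  have h : Tendsto (fun ε : ℝ => ε * (ε + β)) (𝓝[>] 0) (𝓝 (0 * (0 + β))) :=
    (Continuous.tendsto (by fun_prop) 0).mono_left nhdsWithin_le_nhds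
  rw [zero_mul] at h
  refine h.congr' ?_
  filter_upwards [self_mem_nhdsWithin] with ε hε
  have : ε ≠ 0 := (Set.mem_Ioi.1 hε).ne'
  field_simp

theorem lim5 (β : ℝ) : Tendsto (fun ε : ℝ => ε ^ 2 * (1 + β / ε) ^ 2) (𝓝[>] 0) (𝓝 (β ^ 2)) := by
  have h : Tendsto (fun ε : ℝ => (ε + β) ^ 2) (𝓝[>] 0) (𝓝 ((0 + β) ^ 2)) :=
    (Continuous.tendsto (by fun_prop) 0).mono_left nhdsWithin_le_nhds
  rw [zero_add] at h
  refine h.congr' ?_
  filter_upwards [self_mem_nhdsWithin] with ε hε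
  have : ε ≠ 0 := (Set.mem_Ioi.1 hε).ne'
  field_simp

theorem trunc_lip {a b K N B : ℝ} (hK : 0 ≤ K) (hB : 0 ≤ B) (hN0 : 0 ≤ N)
    (hN : |a - b| ≤ B * N) : |max (min a K) 0 - max (min b K) 0| ≤ (K + B) * min 1 N := by
  have h1 : |max (min a K) 0 - max (min b K) 0| ≤ |a - b| := by
    refine (abs_max_sub_max _ _).trans ?_
    have := abs_min_sub_min_le_max a K b K
    simpa using this
  have h2 : |max (min a K) 0 - max (min b K) 0| ≤ K := by
    have a1 : max (min a K) 0 ≤ K := max_le (min_le_right _ _) hK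
    have a2 : max (min b K) 0 ≤ K := max_le (min_le_right _ _) hK
    have a3 : 0 ≤ max (min a K) 0 := le_max_right _ _
    have a4 : 0 ≤ max (min b K) 0 := le_max_right _ _
    rw [abs_le]; constructor <;> linarith
  rcases le_total 1 N with h | h
  · rw [min_eq_left h]; linarith
  · rw [min_eq_right h]
    have : 0 ≤ K * N := by positivity
    linarith

end functions

variable {m : ℕ} {σ τ : Measure ℝ} {π π0 : Measure (Vec m)} {β ε : ℝ}

/-- The truncated coordinate. -/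
noncomputable def tr (K : ℝ) (i : Fin (m + 1)) (w : Vec m) : ℝ := max (min (w i) K) 0

/-- The truncated sum of all but the largest. -/
noncomputable def trR (K : ℝ) (w : Vec m) : ℝ := max (min (rest w) K) 0

theorem measurable_tr (K : ℝ) (i : Fin (m + 1)) : Measurable (tr (m := m) K i) :=
  ((measurable_pi_apply i).min measurable_const).max measurable_const

theorem measurable_trR (K : ℝ) : Measurable (trR (m := m) K) :=
  (measurable_rest.min measurable_const).max measurable_const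

theorem tr_lip {K : ℝ} (hK : 0 ≤ K) (i : Fin (m + 1)) (v w : Vec m) :
    |tr K i v - tr K i w| ≤ (K + 1) * min 1 (nrm (v - w)) :=
  trunc_lip hK zero_le_one (nrm_nonneg _) (by rw [one_mul]; exact abs_le_nrm (v - w) i)

theorem rest_lip (v w : Vec m) : |rest v - rest w| ≤ (m + 2) * nrm (v - w) := by
  have h1 : |tot v - tot w| ≤ (m + 1) * nrm (v - w) := by
    rw [tot, tot, ← Finset.sum_sub_distrib]
    refine (Finset.abs_sum_le_sum_abs _ _).trans ?_
    refine (Finset.sum_le_sum fun i _ => abs_le_nrm (v - w) i).trans (le_of_eq ?_)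
    simp
  have h2 : |lst v - lst w| ≤ nrm (v - w) := abs_le_nrm (v - w) (Fin.last m)
  have e : rest v - rest w = (tot v - tot w) - (lst v - lst w) := by simp only [rest]; ring
  rw [e]
  have := abs_sub (tot v - tot w) (lst v - lst w)
  linarith

theorem trR_lip {K : ℝ} (hK : 0 ≤ K) (v w : Vec m) :
    |trR K v - trR K w| ≤ (K + (m + 2)) * min 1 (nrm (v - w)) :=
  trunc_lip hK (by positivity) (nrm_nonneg _) (rest_lip v w)

theorem split_real {K x : ℝ} (hK : 0 ≤ K) (hx : 0 ≤ x) :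
    x = max (min x K) 0 + max (x - K) 0 := by
  rcases le_total x K with h | h
  · rw [min_eq_left h, max_eq_left hx, max_eq_right (by linarith)]; ring
  · rw [min_eq_right h, max_eq_left hK, max_eq_left (by linarith)]; ring

theorem igr_coord (hs : Sys m σ τ) (hπ : IsStat σ τ π) (i : Fin (m + 1)) :
    Integrable (fun w : Vec m => w i) π :=
  igr_of_le hs hπ (measurable_pi_apply i) fun _ _ hw => ⟨hw i, le_tot hw i⟩

theorem igr_pos (hs : Sys m σ τ) (hπ : IsStat σ τ π) {K : ℝ} (hK : 0 ≤ K) (i : Fin (m + 1)) :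
    Integrable (fun w : Vec m => max (w i - K) 0) π :=
  igr_of_le hs hπ (((measurable_pi_apply i).sub measurable_const).max measurable_const)
    fun _ _ hw => ⟨le_max_right _ _, max_le (by linarith [le_tot hw i]) (tot_nonneg hw)⟩

theorem igr_tr (hs : Sys m σ τ) (hπ : IsStat σ τ π) {K : ℝ} (hK : 0 ≤ K) (i : Fin (m + 1)) :
    Integrable (tr K i) π :=
  igr_of_le hs hπ (measurable_tr K i) fun _ _ hw =>
    ⟨le_max_right _ _, max_le ((min_le_left _ _).trans (le_tot hw i)) (tot_nonneg hw)⟩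

theorem igr_rest (hs : Sys m σ τ) (hπ : IsStat σ τ π) : Integrable rest π :=
  igr_of_le hs hπ measurable_rest fun _ _ hw => ⟨rest_nonneg hw, rest_le hw⟩

theorem igr_posR (hs : Sys m σ τ) (hπ : IsStat σ τ π) {K : ℝ} (hK : 0 ≤ K) :
    Integrable (fun w : Vec m => max (rest w - K) 0) π :=
  igr_of_le hs hπ ((measurable_rest.sub measurable_const).max measurable_const)
    fun _ _ hw => ⟨le_max_right _ _, max_le (by linarith [rest_le hw]) (tot_nonneg hw)⟩

theorem igr_trR (hs : Sys m σ τ) (hπ : IsStat σ τ π) {K : ℝ} (hK : 0 ≤ K) :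
    Integrable (trR K) π :=
  igr_of_le hs hπ (measurable_trR K) fun _ _ hw =>
    ⟨le_max_right _ _, max_le ((min_le_left _ _).trans (rest_le hw)) (tot_nonneg hw)⟩

theorem split_i (hs : Sys m σ τ) (hπ : IsStat σ τ π) {K : ℝ} (hK : 0 ≤ K) (i : Fin (m + 1)) :
    ∫ w, w i ∂π = ∫ w, tr K i w ∂π + ∫ w, max (w i - K) 0 ∂π := by
  rw [← integral_add (igr_tr hs hπ hK i) (igr_pos hs hπ hK i)]
  refine integral_congr_ae ?_
  filter_upwards [hπ.2.1] with w hw
  exact split_real hK (hw.2 i)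

theorem split_rest (hs : Sys m σ τ) (hπ : IsStat σ τ π) {K : ℝ} (hK : 0 ≤ K) :
    ∑ i, ∫ w, w i ∂π - ∫ w, w (Fin.last m) ∂π
      = ∫ w, trR K w ∂π + ∫ w, max (rest w - K) 0 ∂π := by
  rw [← integral_add (igr_trR hs hπ hK) (igr_posR hs hπ hK),
    ← integral_finsetSum _ (fun i _ => igr_coord hs hπ i),
    ← integral_sub (integrable_finsetSum _ fun i _ => igr_coord hs hπ i)
      (igr_coord hs hπ (Fin.last m))]
  refine integral_congr_ae ?_
  filter_upwards [hπ.2.1] with w hw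
  exact split_real hK (rest_nonneg hw.2)

/-- The tails vanish. -/
theorem tail_i (hs : Sys m σ τ) (hπ : IsStat σ τ π) (i : Fin (m + 1)) :
    Tendsto (fun K : ℝ => ∫ w, max (w i - K) 0 ∂π) atTop (𝓝 0) := by
  have h : Tendsto (fun K : ℝ => ∫ w, max (w i - K) 0 ∂π) atTop (𝓝 (∫ _w, (0 : ℝ) ∂π)) := by
    refine tendsto_integral_filter_of_dominated_convergence (fun w => w i) ?_ ?_
      (igr_coord hs hπ i) ?_
    · exact Eventually.of_forall fun K =>
        (((measurable_pi_apply i).sub measurable_const).max measurable_const).aestronglyMeasurable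
    · filter_upwards [eventually_ge_atTop 0] with K hK
      filter_upwards [hπ.2.1] with w hw
      rw [Real.norm_eq_abs, abs_of_nonneg (le_max_right _ _)]
      exact max_le (by linarith) (hw.2 i)
    · refine Eventually.of_forall fun w => ?_
      refine tendsto_const_nhds.congr' ?_
      filter_upwards [eventually_ge_atTop (w i)] with K hK
      rw [max_eq_right (by linarith)]
  simpa using h

theorem tail_Rt (hs : Sys m σ τ) (β : ℝ) : Tendsto (fun K : ℝ => Rt m σ τ β K) atTop (𝓝 0) := by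
  have := hs.pσ; have := hs.pτ
  have h1 : Tendsto (fun K : ℝ => ∫ z, (if K / 2 < z.1 then (z.1 + (m + 1) * z.2) ^ 2 else 0)
      ∂(σ.prod τ)) atTop (𝓝 (∫ _z, (0 : ℝ) ∂(σ.prod τ))) := by
    refine tendsto_integral_filter_of_dominated_convergence
      (fun z => (z.1 + (m + 1) * z.2) ^ 2) ?_ ?_ (igr_H hs) ?_
    · exact Eventually.of_forall fun K => (igr_Ht hs K).aestronglyMeasurable
    · refine Eventually.of_forall fun K => Eventually.of_forall fun z => ?_
      rw [Real.norm_eq_abs]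
      split_ifs
      · rw [abs_of_nonneg (sq_nonneg _)]
      · rw [abs_zero]; exact sq_nonneg _
    · refine Eventually.of_forall fun z => ?_
      refine tendsto_const_nhds.congr' ?_
      filter_upwards [eventually_ge_atTop (2 * z.1)] with K hK
      rw [if_neg (by linarith)]
  rw [integral_zero] at h1
  have h2 : Tendsto (fun K : ℝ => 2 / K * AP m σ τ β
      * ∫ z, (z.1 + (m + 1) * z.2) ^ 2 ∂(σ.prod τ)) atTop
      (𝓝 (0 * AP m σ τ β * ∫ z, (z.1 + (m + 1) * z.2) ^ 2 ∂(σ.prod τ))) :=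
    ((tendsto_const_nhds.div_atTop tendsto_id).mul_const _).mul_const _
  have h3 := h2.add h1
  simpa [Rt] using h3

/-- The truncated means converge. -/
theorem trunc_lim (hs : Sys m σ τ) (hβ : 0 < β) (hπ0 : IsStat σ τ π0)
    {P : ℝ → Measure (Vec m)} (hP : ∀ ε, 0 < ε → ε < 1 / β → IsStat (perturb σ β ε) τ (P ε))
    {f : Vec m → ℝ} (mf : Measurable f) {L : ℝ} (hL : 0 ≤ L)
    (hfL : ∀ v w, |f v - f w| ≤ L * min 1 (nrm (v - w))) :
    Tendsto (fun ε => ∫ w, f w ∂(P ε) - ∫ w, f w ∂π0) (𝓝[>] 0) (𝓝 0) := by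
  rw [Metric.tendsto_nhds]
  intro e he
  have hδ : 0 < e / (L + 1) := by positivity
  have ev : ∀ᶠ ε in 𝓝[>] (0 : ℝ), ε ∈ Set.Ioo (0 : ℝ) (1 / β) := Ioo_mem_nhdsGT (by positivity)
  filter_upwards [cmp_perturb hs hβ hπ0 hδ, ev] with ε h1 h2
  have h3 := h1 (P ε) (hP ε h2.1 h2.2) f mf L hL hfL
  rw [Real.dist_eq, sub_zero]
  refine lt_of_le_of_lt h3 ?_
  rw [← mul_div_assoc, div_lt_iff₀ (by positivity)]
  nlinarith

end Pool.Agent.K9h80.GQ
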