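import Pool.Agent.K9h80.GQ.Stat

/-!
# Lyapunov inequalities for the stationary laws
-/

set_option autoImplicit false

open MeasureTheory Finset Filter Topology

namespace Pool.Agent.K9h80.GQ

section scalar

theorem qle (x δ : ℝ) :
    (max (x + δ) 0) ^ 2 ≤ (max x 0) ^ 2 + 2 * max x 0 * δ + δ ^ 2 := by
  rcases le_total x 0 with hx | hx
  · rw [max_eq_right hx]
    rcases le_total (x + δ) 0 with h | h
    · rw [max_eq_right h]; nlinarith [sq_nonneg δ]
    · rw [max_eq_left h]; nlinarith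
  · rw [max_eq_left hx]
    rcases le_total (x + δ) 0 with h | h
    · rw [max_eq_right h]; nlinarith [sq_nonneg (x + δ)]
    · rw [max_eq_left h]; nlinarith

theorem qge {K : ℝ} (hK : 0 ≤ K) {x : ℝ} (hx : -K ≤ x) (δ : ℝ) :
    (max x 0) ^ 2 + 2 * max x 0 * δ + (max (δ - K) 0) ^ 2 ≤ (max (x + δ) 0) ^ 2 := by
  rcases le_total x 0 with h0 | h0
  · rw [max_eq_right h0]
    have h1 : max (δ - K) 0 ≤ max (x + δ) 0 := max_le_max (by linarith) le_rfl
    have h2 : 0 ≤ max (δ - K) 0 := le_max_right _ _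
    nlinarith
  · rw [max_eq_left h0]
    rcases le_total (δ - K) 0 with h1 | h1
    · rw [max_eq_right h1]
      rcases le_total (x + δ) 0 with h | h
      · rw [max_eq_right h]; nlinarith
      · rw [max_eq_left h]; nlinarith [sq_nonneg δ]
    · rw [max_eq_left h1, max_eq_left (by linarith)]
      nlinarith

/-- Monotonicity of the square of the positive part. -/
theorem qmono {a b : ℝ} (h : a ≤ b) : (max a 0) ^ 2 ≤ (max b 0) ^ 2 :=
  pow_le_pow_left₀ (le_max_right _ _) (max_le_max h le_rfl) 2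

theorem max_max_sub {K : ℝ} (hK : 0 ≤ K) (x : ℝ) : max (max x 0 - K) 0 = max (x - K) 0 := by
  rcases le_total x 0 with h | h
  · rw [max_eq_right h, max_eq_right (by linarith), max_eq_right (by linarith)]
  · rw [max_eq_left h]

theorem incr_bound {a a' V s t C K : ℝ} (hK : 0 ≤ K) (hC : 0 ≤ C) (hs : 0 ≤ s) (ht : 0 ≤ t)
    (ha : 0 ≤ a) (haV : a ≤ V) (ha' : 0 ≤ a') (ha'V : a' ≤ V + s) (hd : |a' - a| ≤ C * (s + t)) :
    |(max (a' - K) 0) ^ 2 - (max (a - K) 0) ^ 2| ≤ 2 * C * ((s + t) * (V + s + t)) := by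
  have e : (max (a' - K) 0) ^ 2 - (max (a - K) 0) ^ 2
      = (max (a' - K) 0 - max (a - K) 0) * (max (a' - K) 0 + max (a - K) 0) := by ring
  rw [e, abs_mul]
  have h1 : |max (a' - K) 0 - max (a - K) 0| ≤ C * (s + t) := by
    refine (abs_max_sub_max _ _).trans ?_
    have : a' - K - (a - K) = a' - a := by ring
    rw [this]; exact hd
  have h2 : max (a' - K) 0 ≤ a' := max_le (by linarith) ha'
  have h3 : max (a - K) 0 ≤ a := max_le (by linarith) ha
  have h4 : |max (a' - K) 0 + max (a - K) 0| ≤ 2 * (V + s + t) := by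
    rw [abs_of_nonneg (add_nonneg (le_max_right _ _) (le_max_right _ _))]
    linarith
  calc _ ≤ (C * (s + t)) * (2 * (V + s + t)) :=
        mul_le_mul h1 h4 (abs_nonneg _) (by positivity)
    _ = _ := by ring

end scalar

section

variable {m : ℕ} {σ τ : Measure ℝ} {π : Measure (Fin (m + 1) → ℝ)}

/-- The largest workload. -/
def lst (w : Fin (m + 1) → ℝ) : ℝ := w (Fin.last m)

theorem measurable_lst : Measurable (lst : (Fin (m + 1) → ℝ) → ℝ) := measurable_pi_apply _

section pointwise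

variable {w : Fin (m + 1) → ℝ} {s t : ℝ}

theorem tot_step_le (hw : ∀ i, 0 ≤ w i) (hs : 0 ≤ s) (ht : 0 ≤ t) :
    tot (kwStep w s t) ≤ tot w + s := by
  have h : tot (kwStep w s t) = ∑ i, after w s t i := sum_kwStep w s t (fun x => x)
  rw [h]
  have h1 : ∑ i, after w s t i ≤ ∑ i, (w i + (if i = 0 then s else 0)) := by
    refine Finset.sum_le_sum fun i _ => ?_
    rw [after_eq]
    refine max_le (by linarith) ?_
    have := hw i
    split_ifs <;> linarith
  refine h1.trans (le_of_eq ?_)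
  rw [Finset.sum_add_distrib]; simp [tot]

theorem tot_step_ge : tot w + s - (m + 1) * t ≤ tot (kwStep w s t) := sum_kwStep_ge w s t

theorem tot_step_abs (hw : ∀ i, 0 ≤ w i) (hs : 0 ≤ s) (ht : 0 ≤ t) :
    |tot (kwStep w s t) - tot w| ≤ (m + 1) * (s + t) := by
  have h1 := tot_step_le hw hs ht
  have h2 := tot_step_ge (w := w) (s := s) (t := t)
  have hm : (0 : ℝ) ≤ m := Nat.cast_nonneg m
  have h3 : 0 ≤ (m : ℝ) * s := mul_nonneg hm hs
  have h4 : 0 ≤ (m : ℝ) * t := mul_nonneg hm ht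
  rw [abs_le]; constructor <;> nlinarith

theorem lst_step (hmon : Monotone w) (hs : 0 ≤ s) (t : ℝ) :
    lst (kwStep w s t) = max (lst w + max (s - (lst w - w 0)) 0 - t) 0 := by
  rw [lst, kwStep_last hmon hs t]
  congr 2
  rcases le_total (w 0 + s) (w (Fin.last m)) with h | h
  · rw [max_eq_right h, max_eq_right (by simp only [lst]; linarith)]; simp [lst]
  · rw [max_eq_left h, max_eq_left (by simp only [lst]; linarith)]; simp only [lst]; ring

theorem zero_le_lst (hmon : Monotone w) : w 0 ≤ lst w := hmon (Fin.zero_le _)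

theorem lst_step_abs (hmon : Monotone w) (hw : ∀ i, 0 ≤ w i) (hs : 0 ≤ s) (ht : 0 ≤ t) :
    |lst (kwStep w s t) - lst w| ≤ 1 * (s + t) := by
  rw [lst_step hmon hs t]
  have h0 := zero_le_lst hmon
  have hl : lst w = max (lst w) 0 := (max_eq_left (hw _)).symm
  have h1 : |max (lst w + max (s - (lst w - w 0)) 0 - t) 0 - max (lst w) 0| ≤ _ :=
    abs_max_sub_max _ _
  rw [← hl] at h1
  refine h1.trans ?_
  have h2 : 0 ≤ max (s - (lst w - w 0)) 0 := le_max_right _ _
  have h3 : max (s - (lst w - w 0)) 0 ≤ s := max_le (by linarith) hs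
  rw [abs_le]; constructor <;> linarith

theorem lst_step_le (hw : ∀ i, 0 ≤ w i) (hs : 0 ≤ s) (ht : 0 ≤ t) :
    lst (kwStep w s t) ≤ tot w + s :=
  (le_tot (kwStep_nonneg w s t) _).trans (tot_step_le hw hs ht)

/-- The sum of all but the largest. -/
def rest (w : Fin (m + 1) → ℝ) : ℝ := tot w - lst w

theorem measurable_rest : Measurable (rest : (Fin (m + 1) → ℝ) → ℝ) :=
  measurable_tot.sub measurable_lst

theorem rest_nonneg (hw : ∀ i, 0 ≤ w i) : 0 ≤ rest w := sub_nonneg.2 (le_tot hw _)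

theorem rest_le (hw : ∀ i, 0 ≤ w i) : rest w ≤ tot w := by
  have := hw (Fin.last m)
  simp only [rest, lst]; linarith

theorem rest_le_mul (hmon : Monotone w) : rest w ≤ m * lst w := by
  have h : tot w ≤ (m + 1) * lst w := by
    have : ∑ i, w i ≤ ∑ _i : Fin (m + 1), lst w := Finset.sum_le_sum fun i _ => hmon (Fin.le_last i)
    simpa [tot] using this
  simp only [rest]; linarith

theorem rest_step_ge (hmon : Monotone w) (hs : 0 ≤ s) :
    rest w + (s - max (s - (lst w - w 0)) 0) - m * t ≤ rest (kwStep w s t) := by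
  have h : tot (kwStep w s t) = ∑ i, after w s t i := sum_kwStep w s t (fun x => x)
  -- the index of the largest entry
  obtain ⟨j, hj⟩ : ∃ j : Fin (m + 1), w j + (if j = 0 then s else 0) - t
      = lst w + max (s - (lst w - w 0)) 0 - t := by
    rcases le_total (s - (lst w - w 0)) 0 with h1 | h1
    · rw [max_eq_right h1]
      by_cases hm : Fin.last m = 0
      · refine ⟨0, ?_⟩
        have e : lst w = w 0 := by rw [lst, hm]
        rw [e] at h1
        simp only [sub_self, sub_zero] at h1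
        simp only [if_true, e]; linarith
      · exact ⟨Fin.last m, by simp [hm, lst]⟩
    · rw [max_eq_left h1]
      exact ⟨0, by simp only [if_true]; ring⟩
  have hl : lst (kwStep w s t) = after w s t j := by
    rw [lst_step hmon hs t, after_eq, hj]
  have h2 : tot (kwStep w s t) - lst (kwStep w s t) = ∑ i ∈ univ.erase j, after w s t i := by
    rw [h, hl, ← Finset.add_sum_erase univ _ (mem_univ j)]; ring
  have h3 : ∑ i ∈ univ.erase j, (w i + (if i = 0 then s else 0) - t)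
      ≤ ∑ i ∈ univ.erase j, after w s t i := by
    refine Finset.sum_le_sum fun i _ => ?_
    rw [after_eq]; exact le_max_left _ _
  have h4 : ∑ i ∈ univ.erase j, (w i + (if i = 0 then s else 0) - t)
      = tot w + s - (m + 1) * t - (lst w + max (s - (lst w - w 0)) 0 - t) := by
    have h5 := Finset.add_sum_erase univ (fun i => w i + (if i = 0 then s else 0) - t) (mem_univ j)
    have h6 : ∑ i, (w i + (if i = 0 then s else 0) - t) = tot w + s - (m + 1) * t := by
      rw [Finset.sum_sub_distrib, Finset.sum_add_distrib]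
      simp [tot]
    rw [h6, hj] at h5
    linarith
  rw [show rest (kwStep w s t) = tot (kwStep w s t) - lst (kwStep w s t) from rfl, h2]
  refine le_trans (le_of_eq ?_) h3
  rw [h4, rest]; ring

theorem rest_step_abs (hmon : Monotone w) (hw : ∀ i, 0 ≤ w i) (hs : 0 ≤ s) (ht : 0 ≤ t) :
    |rest (kwStep w s t) - rest w| ≤ (m + 2) * (s + t) := by
  have h1 := abs_le.1 (tot_step_abs hw hs ht)
  have h2 := abs_le.1 (lst_step_abs hmon hw hs ht)
  simp only [rest]
  rw [abs_le]; constructor <;> linarith [h1.1, h1.2, h2.1, h2.2]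

end pointwise

section integrals

theorem drift_le (hs : Sys m σ τ) (hπ : IsStat σ τ π) {f : (Fin (m + 1) → ℝ) → ℝ}
    (hf : Measurable f) (C : ℝ)
    (hb : ∀ w s t, Monotone w → (∀ i, 0 ≤ w i) → 0 ≤ s → 0 ≤ t →
      |f (kwStep w s t) - f w| ≤ C * ((s + t) * (tot w + s + t)))
    {L : (Fin (m + 1) → ℝ) × (ℝ × ℝ) → ℝ} (hL : Integrable L (jl σ τ π))
    (h : ∀ w s t, Monotone w → (∀ i, 0 ≤ w i) → 0 ≤ s → 0 ≤ t →
      L (w, (s, t)) ≤ f (kwStep w s t) - f w) : ∫ p, L p ∂(jl σ τ π) ≤ 0 := by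
  obtain ⟨h1, h2⟩ := drift_zero' hs hπ hf C hb
  rw [← h2]
  refine integral_mono_ae hL h1 ?_
  filter_upwards [ae_jl hs hπ] with p hp
  exact h p.1 p.2.1 p.2.2 hp.1.1 hp.1.2 hp.2.1 hp.2.2

theorem drift_ge (hs : Sys m σ τ) (hπ : IsStat σ τ π) {f : (Fin (m + 1) → ℝ) → ℝ}
    (hf : Measurable f) (C : ℝ)
    (hb : ∀ w s t, Monotone w → (∀ i, 0 ≤ w i) → 0 ≤ s → 0 ≤ t →
      |f (kwStep w s t) - f w| ≤ C * ((s + t) * (tot w + s + t)))
    {L : (Fin (m + 1) → ℝ) × (ℝ × ℝ) → ℝ} (hL : Integrable L (jl σ τ π))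
    (h : ∀ w s t, Monotone w → (∀ i, 0 ≤ w i) → 0 ≤ s → 0 ≤ t →
      f (kwStep w s t) - f w ≤ L (w, (s, t))) : 0 ≤ ∫ p, L p ∂(jl σ τ π) := by
  obtain ⟨h1, h2⟩ := drift_zero' hs hπ hf C hb
  rw [← h2]
  refine integral_mono_ae h1 hL ?_
  filter_upwards [ae_jl hs hπ] with p hp
  exact h p.1 p.2.1 p.2.2 hp.1.1 hp.1.2 hp.2.1 hp.2.2

/-- Integrals of products. -/
theorem int_mul (hs : Sys m σ τ) (hπ : IsStat σ τ π) (g : (Fin (m + 1) → ℝ) → ℝ)
    (h : ℝ × ℝ → ℝ) :
    ∫ p, g p.1 * h p.2 ∂(jl σ τ π) = (∫ w, g w ∂π) * ∫ z, h z ∂(σ.prod τ) := by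
  have := hs.pσ; have := hs.pτ; have := hπ.1
  exact integral_prod_mul g h

theorem igr_mul (hs : Sys m σ τ) (hπ : IsStat σ τ π) {g : (Fin (m + 1) → ℝ) → ℝ}
    {h : ℝ × ℝ → ℝ} (hg : Integrable g π) (hh : Integrable h (σ.prod τ)) :
    Integrable (fun p : (Fin (m + 1) → ℝ) × (ℝ × ℝ) => g p.1 * h p.2) (jl σ τ π) := by
  have := hs.pσ; have := hs.pτ; have := hπ.1
  exact hg.mul_prod hh

theorem int_mul_s (hs : Sys m σ τ) (hπ : IsStat σ τ π) (g : (Fin (m + 1) → ℝ) → ℝ) :
    ∫ p, g p.1 * p.2.1 ∂(jl σ τ π) = (∫ w, g w ∂π) * ∫ s, s ∂σ := by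
  rw [int_mul hs hπ g (fun z => z.1), int_s hs (fun s => s)]

theorem int_mul_t (hs : Sys m σ τ) (hπ : IsStat σ τ π) (g : (Fin (m + 1) → ℝ) → ℝ) :
    ∫ p, g p.1 * p.2.2 ∂(jl σ τ π) = (∫ w, g w ∂π) * ∫ t, t ∂τ := by
  rw [int_mul hs hπ g (fun z => z.2), int_t hs (fun s => s)]

theorem igr_tot (hs : Sys m σ τ) (hπ : IsStat σ τ π) : Integrable tot π := (apriori hs hπ).1

/-- A measurable function between `0` and the total is integrable. -/
theorem igr_of_le (hs : Sys m σ τ) (hπ : IsStat σ τ π) {g : (Fin (m + 1) → ℝ) → ℝ}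
    (hg : Measurable g) (h : ∀ w : Fin (m + 1) → ℝ, Monotone w → (∀ i, 0 ≤ w i) →
      0 ≤ g w ∧ g w ≤ tot w) : Integrable g π := by
  refine (igr_tot hs hπ).mono' hg.aestronglyMeasurable ?_
  filter_upwards [hπ.2.1] with w hw
  obtain ⟨h1, h2⟩ := h w hw.1 hw.2
  rw [Real.norm_eq_abs, abs_of_nonneg h1]; exact h2

/-- A measurable function between `0` and the square of the service time is integrable. -/
theorem igr_of_sq (hs : Sys m σ τ) (hπ : IsStat σ τ π) {g : (Fin (m + 1) → ℝ) × (ℝ × ℝ) → ℝ}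
    (hg : Measurable g) (h : ∀ w : Fin (m + 1) → ℝ, ∀ s t : ℝ, Monotone w → (∀ i, 0 ≤ w i) →
      0 ≤ s → 0 ≤ t → 0 ≤ g (w, (s, t)) ∧ g (w, (s, t)) ≤ s ^ 2) : Integrable g (jl σ τ π) := by
  have := hs.pσ; have := hs.pτ; have := hπ.1
  have h1 : Integrable (fun p : (Fin (m + 1) → ℝ) × (ℝ × ℝ) => p.2.1 ^ 2) (jl σ τ π) :=
    (igr_zs hs hs.s2).comp_snd π
  refine h1.mono' hg.aestronglyMeasurable ?_
  filter_upwards [ae_jl hs hπ] with p hp
  obtain ⟨h1, h2⟩ := h p.1 p.2.1 p.2.2 hp.1.1 hp.1.2 hp.2.1 hp.2.2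
  rw [Real.norm_eq_abs, abs_of_nonneg h1]; exact h2

/-- A measurable function between `0` and total times the service time is integrable. -/
theorem igr_of_ts (hs : Sys m σ τ) (hπ : IsStat σ τ π) {g : (Fin (m + 1) → ℝ) × (ℝ × ℝ) → ℝ}
    (hg : Measurable g) (h : ∀ w : Fin (m + 1) → ℝ, ∀ s t : ℝ, Monotone w → (∀ i, 0 ≤ w i) →
      0 ≤ s → 0 ≤ t → 0 ≤ g (w, (s, t)) ∧ g (w, (s, t)) ≤ tot w * s) :
    Integrable g (jl σ τ π) := by
  have h1 := igr_mul hs hπ (igr_tot hs hπ) (igr_zs hs (igr_s hs))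
  refine h1.mono' hg.aestronglyMeasurable ?_
  filter_upwards [ae_jl hs hπ] with p hp
  obtain ⟨h1, h2⟩ := h p.1 p.2.1 p.2.2 hp.1.1 hp.1.2 hp.2.1 hp.2.2
  rw [Real.norm_eq_abs, abs_of_nonneg h1]; exact h2

theorem meas_w {f : (Fin (m + 1) → ℝ) → ℝ} (hf : Measurable f) :
    Measurable (fun p : (Fin (m + 1) → ℝ) × (ℝ × ℝ) => f p.1) := hf.comp measurable_fst

theorem meas_s : Measurable (fun p : (Fin (m + 1) → ℝ) × (ℝ × ℝ) => p.2.1) :=
  measurable_fst.comp measurable_snd

theorem meas_t : Measurable (fun p : (Fin (m + 1) → ℝ) × (ℝ × ℝ) => p.2.2) :=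
  measurable_snd.comp measurable_snd

/-- Mean of the total above a level: lower bound. -/
theorem ineqE (hs : Sys m σ τ) (hπ : IsStat σ τ π) {K : ℝ} (hK : 0 ≤ K) :
    ∫ p, (max (p.2.1 - (m + 1) * p.2.2 - K) 0) ^ 2 ∂(jl σ τ π)
      ≤ 2 * ((m + 1) * ∫ t, t ∂τ - ∫ s, s ∂σ) * ∫ w, max (tot w - K) 0 ∂π := by
  have mV : Measurable (fun w : Fin (m + 1) → ℝ => max (tot w - K) 0) :=
    (measurable_tot.sub measurable_const).max measurable_const
  have iV : Integrable (fun w : Fin (m + 1) → ℝ => max (tot w - K) 0) π :=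
    igr_of_le hs hπ mV fun w _ hw =>
      ⟨le_max_right _ _, max_le (by linarith) (tot_nonneg hw)⟩
  have i1 := igr_mul hs hπ iV (igr_zs hs (igr_s hs))
  have i2 := igr_mul hs hπ iV (igr_zt hs (igr_t hs))
  have i3 : Integrable (fun p : (Fin (m + 1) → ℝ) × (ℝ × ℝ) =>
      (max (p.2.1 - (m + 1) * p.2.2 - K) 0) ^ 2) (jl σ τ π) := by
    refine igr_of_sq hs hπ ?_ ?_
    · exact (((meas_s.sub (meas_t.const_mul _)).sub measurable_const).max measurable_const).pow_const 2
    · intro w s t _ _ h1 h2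
      refine ⟨sq_nonneg _, pow_le_pow_left₀ (le_max_right _ _) (max_le ?_ h1) 2⟩
      have : 0 ≤ ((m : ℝ) + 1) * t := by positivity
      linarith
  have key := drift_le hs hπ (f := fun w => (max (tot w - K) 0) ^ 2) (mV.pow_const 2)
    (2 * (m + 1)) ?_ (L := fun p => (2 * (max (tot p.1 - K) 0 * p.2.1)
      - 2 * (m + 1) * (max (tot p.1 - K) 0 * p.2.2)) + (max (p.2.1 - (m + 1) * p.2.2 - K) 0) ^ 2)
    (((i1.const_mul 2).sub (i2.const_mul (2 * (m + 1)))).add i3) ?_
  · have e1 := integral_add ((i1.const_mul 2).sub (i2.const_mul (2 * ((m : ℝ) + 1)))) i3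
    have e2 := integral_sub (i1.const_mul 2) (i2.const_mul (2 * ((m : ℝ) + 1)))
    simp only [Pi.sub_apply] at e1 e2
    rw [e1, e2, integral_const_mul, integral_const_mul,
      int_mul_s hs hπ (fun w => max (tot w - K) 0),
      int_mul_t hs hπ (fun w => max (tot w - K) 0)] at key
    nlinarith
  · intro w s t hmon hw h1 h2
    refine incr_bound hK (by positivity) h1 h2 (tot_nonneg hw) le_rfl
      (tot_nonneg (kwStep_nonneg w s t)) (tot_step_le hw h1 h2) (tot_step_abs hw h1 h2)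
  · intro w s t hmon hw h1 h2
    have hge := tot_step_ge (w := w) (s := s) (t := t)
    have h3 := qge hK (x := tot w - K) (by linarith [tot_nonneg hw]) (s - (m + 1) * t)
    have h4 : (max (tot w - K + (s - (m + 1) * t)) 0) ^ 2 ≤ (max (tot (kwStep w s t) - K) 0) ^ 2 :=
      qmono (by linarith)
    simp only
    linarith

/-- Mean of the largest workload above a level: lower bound. -/
theorem ineqC (hs : Sys m σ τ) (hπ : IsStat σ τ π) {K : ℝ} (hK : 0 ≤ K) :
    ∫ p, (max (p.2.1 - tot p.1 - p.2.2 - K) 0) ^ 2 ∂(jl σ τ π)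
      + 2 * ∫ p, max (lst p.1 - K) 0 * max (p.2.1 - (lst p.1 - p.1 0)) 0 ∂(jl σ τ π)
      ≤ 2 * (∫ t, t ∂τ) * ∫ w, max (lst w - K) 0 ∂π := by
  have mM : Measurable (fun w : Fin (m + 1) → ℝ => max (lst w - K) 0) :=
    (measurable_lst.sub measurable_const).max measurable_const
  have iM : Integrable (fun w : Fin (m + 1) → ℝ => max (lst w - K) 0) π :=
    igr_of_le hs hπ mM fun w _ hw =>
      ⟨le_max_right _ _, max_le (by have := le_tot hw (Fin.last m); simp only [lst]; linarith)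
        (tot_nonneg hw)⟩
  have i2 := igr_mul hs hπ iM (igr_zt hs (igr_t hs))
  have mZ : Measurable (fun p : (Fin (m + 1) → ℝ) × (ℝ × ℝ) =>
      max (p.2.1 - (lst p.1 - p.1 0)) 0) :=
    (meas_s.sub ((meas_w measurable_lst).sub (meas_w (measurable_pi_apply 0)))).max
      measurable_const
  have i1 : Integrable (fun p : (Fin (m + 1) → ℝ) × (ℝ × ℝ) =>
      max (lst p.1 - K) 0 * max (p.2.1 - (lst p.1 - p.1 0)) 0) (jl σ τ π) := by
    refine igr_of_ts hs hπ ((meas_w mM).mul mZ) ?_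
    intro w s t hmon hw h1 h2
    refine ⟨mul_nonneg (le_max_right _ _) (le_max_right _ _), ?_⟩
    refine mul_le_mul ?_ (max_le (by linarith [zero_le_lst hmon]) h1) (le_max_right _ _)
      (tot_nonneg hw)
    exact max_le (by have := le_tot hw (Fin.last m); simp only [lst]; linarith) (tot_nonneg hw)
  have i3 : Integrable (fun p : (Fin (m + 1) → ℝ) × (ℝ × ℝ) =>
      (max (p.2.1 - tot p.1 - p.2.2 - K) 0) ^ 2) (jl σ τ π) := by
    refine igr_of_sq hs hπ ?_ ?_
    · exact ((((meas_s.sub (meas_w measurable_tot)).sub meas_t).sub measurable_const).max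
        measurable_const).pow_const 2
    · intro w s t _ hw h1 h2
      refine ⟨sq_nonneg _, pow_le_pow_left₀ (le_max_right _ _) (max_le ?_ h1) 2⟩
      have := tot_nonneg hw
      linarith
  have key := drift_le hs hπ (f := fun w => (max (lst w - K) 0) ^ 2) (mM.pow_const 2)
    (2 * 1) ?_ (L := fun p => (2 * (max (lst p.1 - K) 0 * max (p.2.1 - (lst p.1 - p.1 0)) 0)
      - 2 * (max (lst p.1 - K) 0 * p.2.2)) + (max (p.2.1 - tot p.1 - p.2.2 - K) 0) ^ 2)
    (((i1.const_mul 2).sub (i2.const_mul 2)).add i3) ?_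
  · have e1 := integral_add ((i1.const_mul 2).sub (i2.const_mul 2)) i3
    have e2 := integral_sub (i1.const_mul 2) (i2.const_mul 2)
    simp only [Pi.sub_apply] at e1 e2
    rw [e1, e2, integral_const_mul, integral_const_mul,
      int_mul_t hs hπ (fun w => max (lst w - K) 0)] at key
    nlinarith
  · intro w s t hmon hw h1 h2
    exact incr_bound hK (by positivity) h1 h2 (hw _) (le_tot hw _)
      (kwStep_nonneg w s t _) (lst_step_le hw h1 h2) (lst_step_abs hmon hw h1 h2)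
  · intro w s t hmon hw h1 h2
    have h0 := zero_le_lst hmon
    have hl0 : 0 ≤ w 0 := hw 0
    have hlt : lst w ≤ tot w := le_tot hw _
    have hl : 0 ≤ lst w := hw _
    set P := max (s - (lst w - w 0)) 0 with hP
    have hP1 : s - (lst w - w 0) ≤ P := le_max_left _ _
    have h3 := qge hK (x := lst w - K) (by linarith) (P - t)
    have h4 : (max (s - tot w - t - K) 0) ^ 2 ≤ (max (P - t - K) 0) ^ 2 :=
      qmono (by linarith)
    have h5 : max (lst (kwStep w s t) - K) 0 = max (lst w - K + (P - t)) 0 := by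
      rw [lst_step hmon h1 t, max_max_sub hK]
      congr 1; rw [← hP]; ring
    simp only
    rw [h5]
    linarith

/-- The other servers. -/
theorem ineqD (hs : Sys m σ τ) (hπ : IsStat σ τ π) {K : ℝ} (hK : 0 ≤ K) :
    (∫ s, s ∂σ - m * ∫ t, t ∂τ) * ∫ w, max (rest w - K) 0 ∂π
      ≤ ∫ p, max (rest p.1 - K) 0 * max (p.2.1 - (lst p.1 - p.1 0)) 0 ∂(jl σ τ π) := by
  have mM : Measurable (fun w : Fin (m + 1) → ℝ => max (rest w - K) 0) :=
    (measurable_rest.sub measurable_const).max measurable_const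
  have iM : Integrable (fun w : Fin (m + 1) → ℝ => max (rest w - K) 0) π :=
    igr_of_le hs hπ mM fun w _ hw =>
      ⟨le_max_right _ _, max_le (by linarith [rest_le hw]) (tot_nonneg hw)⟩
  have i0 := igr_mul hs hπ iM (igr_zs hs (igr_s hs))
  have i2 := igr_mul hs hπ iM (igr_zt hs (igr_t hs))
  have mZ : Measurable (fun p : (Fin (m + 1) → ℝ) × (ℝ × ℝ) =>
      max (p.2.1 - (lst p.1 - p.1 0)) 0) :=
    (meas_s.sub ((meas_w measurable_lst).sub (meas_w (measurable_pi_apply 0)))).max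
      measurable_const
  have i1 : Integrable (fun p : (Fin (m + 1) → ℝ) × (ℝ × ℝ) =>
      max (rest p.1 - K) 0 * max (p.2.1 - (lst p.1 - p.1 0)) 0) (jl σ τ π) := by
    refine igr_of_ts hs hπ ((meas_w mM).mul mZ) ?_
    intro w s t hmon hw h1 h2
    refine ⟨mul_nonneg (le_max_right _ _) (le_max_right _ _), ?_⟩
    refine mul_le_mul ?_ (max_le (by linarith [zero_le_lst hmon]) h1) (le_max_right _ _)
      (tot_nonneg hw)
    exact max_le (by linarith [rest_le hw]) (tot_nonneg hw)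
  have key := drift_le hs hπ (f := fun w => (max (rest w - K) 0) ^ 2) (mM.pow_const 2)
    (2 * (m + 2)) ?_ (L := fun p => (2 * (max (rest p.1 - K) 0 * p.2.1)
      - 2 * (max (rest p.1 - K) 0 * max (p.2.1 - (lst p.1 - p.1 0)) 0))
      - (2 * m) * (max (rest p.1 - K) 0 * p.2.2))
    (((i0.const_mul 2).sub (i1.const_mul 2)).sub (i2.const_mul (2 * m))) ?_
  · have e1 := integral_sub ((i0.const_mul 2).sub (i1.const_mul 2)) (i2.const_mul (2 * (m : ℝ)))
    have e2 := integral_sub (i0.const_mul 2) (i1.const_mul 2)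
    simp only [Pi.sub_apply] at e1 e2
    rw [e1, e2, integral_const_mul, integral_const_mul, integral_const_mul,
      int_mul_s hs hπ (fun w => max (rest w - K) 0),
      int_mul_t hs hπ (fun w => max (rest w - K) 0)] at key
    nlinarith
  · intro w s t hmon hw h1 h2
    have h3 : 0 ≤ rest (kwStep w s t) := rest_nonneg (kwStep_nonneg w s t)
    have h4 : rest (kwStep w s t) ≤ tot w + s :=
      (rest_le (kwStep_nonneg w s t)).trans (tot_step_le hw h1 h2)
    exact incr_bound hK (by positivity) h1 h2 (rest_nonneg hw) (rest_le hw)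
      h3 h4 (rest_step_abs hmon hw h1 h2)
  · intro w s t hmon hw h1 h2
    set P := max (s - (lst w - w 0)) 0 with hP
    have h3 := qge hK (x := rest w - K) (by linarith [rest_nonneg hw]) (s - P - m * t)
    have h4 : (max (rest w - K + (s - P - m * t)) 0) ^ 2 ≤ (max (rest (kwStep w s t) - K) 0) ^ 2 :=
      qmono (by have := rest_step_ge (t := t) hmon h1; rw [← hP] at this; linarith)
    have h5 : 0 ≤ (max (s - P - m * t - K) 0) ^ 2 := sq_nonneg _
    simp only
    linarith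

end integrals

end

end Pool.Agent.K9h80.GQ
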