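import Pool.Agent.K9h80.GQ.Fin

/-!
# The limit points of the differences of the mean workloads, and their values
-/

set_option autoImplicit false

open MeasureTheory Finset Filter Topology

namespace Pool.Agent.K9h80.GQ

variable {m : ℕ} {σ τ : Measure ℝ} {π0 : Measure (Vec m)} {β : ℝ}

/-- The difference of the mean workloads. -/
noncomputable def DD (P : ℝ → Measure (Vec m)) (π0 : Measure (Vec m)) (i : Fin (m + 1)) (ε : ℝ) :
    ℝ := ∫ w, w i ∂(P ε) - ∫ w, w i ∂π0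

/-- Family of stationary laws of the perturbed systems. -/
def Fam (m : ℕ) (σ τ : Measure ℝ) (β : ℝ) (P : ℝ → Measure (Vec m)) : Prop :=
  ∀ ε, 0 < ε → ε < 1 / β → IsStat (perturb σ β ε) τ (P ε)

theorem ev_ioo (hβ : 0 < β) : ∀ᶠ ε in 𝓝[>] (0 : ℝ), 0 < ε ∧ ε < 1 / β := by
  have ev : ∀ᶠ ε in 𝓝[>] (0 : ℝ), ε ∈ Set.Ioo (0 : ℝ) (1 / β) := Ioo_mem_nhdsGT (by positivity)
  exact ev

section limits

variable {P : ℝ → Measure (Vec m)} {F : Ultrafilter ℝ} {x : Fin (m + 1) → ℝ}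

theorem DD_split (hs : Sys m σ τ) (hβ : 0 < β) (hπ0 : IsStat σ τ π0) (hP : Fam m σ τ β P)
    {K : ℝ} (hK : 0 ≤ K) (i : Fin (m + 1)) {ε : ℝ} (h0 : 0 < ε) (h1 : ε < 1 / β) :
    DD P π0 i ε = (∫ w, tr K i w ∂(P ε) - ∫ w, tr K i w ∂π0)
      + ∫ w, max (w i - K) 0 ∂(P ε) - ∫ w, max (w i - K) 0 ∂π0 := by
  rw [DD, split_i (sys_perturb hs hβ h0 h1) (hP ε h0 h1) hK i, split_i hs hπ0 hK i]
  ring

/-- The smallest is not smaller in the limit. -/
theorem lim_zero (hs : Sys m σ τ) (hβ : 0 < β) (hπ0 : IsStat σ τ π0) (hP : Fam m σ τ β P)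
    (hF : (F : Filter ℝ) ≤ 𝓝[>] 0) (hx : ∀ i, Tendsto (DD P π0 i) F (𝓝 (x i))) : 0 ≤ x 0 := by
  have key : ∀ K : ℝ, 0 ≤ K → 0 - ∫ w, max (w 0 - K) 0 ∂π0 ≤ x 0 := by
    intro K hK
    have h1 := (trunc_lim hs hβ hπ0 hP (measurable_tr K 0) (by positivity) (tr_lip hK 0)).mono_left hF
    refine le_of_tendsto_of_tendsto (h1.sub_const (∫ w, max (w 0 - K) 0 ∂π0)) (hx 0) ?_
    filter_upwards [hF (ev_ioo hβ)] with ε hε
    rw [DD_split hs hβ hπ0 hP hK 0 hε.1 hε.2]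
    have : 0 ≤ ∫ w, max (w 0 - K) 0 ∂(P ε) := integral_nonneg fun w => le_max_right _ _
    linarith
  have h2 : Tendsto (fun K : ℝ => 0 - ∫ w, max (w 0 - K) 0 ∂π0) atTop (𝓝 (0 - 0)) :=
    tendsto_const_nhds.sub (tail_i hs hπ0 0)
  rw [sub_zero] at h2
  exact le_of_tendsto h2 ((eventually_ge_atTop 0).mono key)

/-- Order. -/
theorem lim_le (hs : Sys m σ τ) (hβ : 0 < β) (hπ0 : IsStat σ τ π0) (hP : Fam m σ τ β P)
    (hF : (F : Filter ℝ) ≤ 𝓝[>] 0) (hx : ∀ i, Tendsto (DD P π0 i) F (𝓝 (x i)))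
    (i : Fin (m + 1)) : x 0 ≤ x i := by
  have key : ∀ K : ℝ, 0 ≤ K → 0 - ∫ w, max (w i - K) 0 ∂π0 ≤ x i - x 0 := by
    intro K hK
    have h1 := (trunc_lim hs hβ hπ0 hP (measurable_tr K i) (by positivity) (tr_lip hK i)).mono_left hF
    have h0 := (trunc_lim hs hβ hπ0 hP (measurable_tr K 0) (by positivity) (tr_lip hK 0)).mono_left hF
    have h2 := (h1.sub h0).sub_const (∫ w, max (w i - K) 0 ∂π0)
    rw [sub_zero] at h2
    refine le_of_tendsto_of_tendsto h2 ((hx i).sub (hx 0)) ?_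
    filter_upwards [hF (ev_ioo hβ)] with ε hε
    rw [DD_split hs hβ hπ0 hP hK i hε.1 hε.2, DD_split hs hβ hπ0 hP hK 0 hε.1 hε.2]
    have h3 : ∫ w, max (w 0 - K) 0 ∂(P ε) ≤ ∫ w, max (w i - K) 0 ∂(P ε) := by
      have hs' := sys_perturb hs hβ hε.1 hε.2
      have hπ := hP ε hε.1 hε.2
      refine integral_mono_ae (igr_pos hs' hπ hK 0) (igr_pos hs' hπ hK i) ?_
      filter_upwards [hπ.2.1] with w hw
      exact max_le_max (by linarith [hw.1 (Fin.zero_le i)]) le_rfl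
    have h4 : 0 ≤ ∫ w, max (w 0 - K) 0 ∂π0 := integral_nonneg fun w => le_max_right _ _
    linarith
  have h2 : Tendsto (fun K : ℝ => 0 - ∫ w, max (w i - K) 0 ∂π0) atTop (𝓝 (0 - 0)) :=
    tendsto_const_nhds.sub (tail_i hs hπ0 i)
  rw [sub_zero] at h2
  have := le_of_tendsto h2 ((eventually_ge_atTop 0).mono key)
  linarith

/-- The sum identity, upper bound. -/
theorem lim_B (hs : Sys m σ τ) (hβ : 0 < β) (hπ0 : IsStat σ τ π0) (hP : Fam m σ τ β P)
    (hF : (F : Filter ℝ) ≤ 𝓝[>] 0) (hx : ∀ i, Tendsto (DD P π0 i) F (𝓝 (x i))) :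
    2 * (∫ t, t ∂τ) * ∑ i, x i - 2 * (∫ s, s ∂σ) * x 0 ≤ β ^ 2 * ∫ s, s ^ 2 ∂σ := by
  have hES := mean_s_nonneg hs
  have hET := (mean_t_pos hs).le
  have key : ∀ K : ℝ, 0 < K → 2 * (∫ t, t ∂τ) * ∑ i, x i - 2 * (∫ s, s ∂σ) * x 0
      ≤ Rt m σ τ β K + β ^ 2 * (∫ s, s ^ 2 ∂σ)
        + 2 * (∫ s, s ∂σ) * ∫ w, max (w 0 - K) 0 ∂π0 := by
    intro K hK
    have hT : ∀ i, Tendsto (fun ε => ∫ w, tr K i w ∂(P ε) - ∫ w, tr K i w ∂π0) F (𝓝 0) := fun i =>
      (trunc_lim hs hβ hπ0 hP (measurable_tr K i) (by positivity) (tr_lip hK.le i)).mono_left hF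
    have hTs : Tendsto (fun ε => ∑ i, (∫ w, tr K i w ∂(P ε) - ∫ w, tr K i w ∂π0)) F
        (𝓝 (∑ _i : Fin (m + 1), (0 : ℝ))) := tendsto_finsetSum _ fun i _ => hT i
    rw [Finset.sum_const_zero] at hTs
    have l1 := ((lim1 β).mul_const (∫ s, s ^ 2 ∂σ)).mono_left hF
    have l2 := ((lim2 β).mul_const ((m + 1) * ((∫ s, s ∂σ) * ∫ t, t ∂τ))).mono_left hF
    have l3 := (lim3.mul_const (((m : ℝ) + 1) ^ 2 * ∫ t, t ^ 2 ∂τ)).mono_left hF
    have r1 := ((((hTs.const_mul (2 * ∫ t, t ∂τ)).sub ((hT 0).const_mul (2 * ∫ s, s ∂σ))).add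
      (((l1.const_add (Rt m σ τ β K)).add l2).add l3)).add_const
        (2 * (∫ s, s ∂σ) * ∫ w, max (w 0 - K) 0 ∂π0))
    have r2 : Tendsto (fun ε => 2 * (∫ t, t ∂τ) * ∑ i, DD P π0 i ε
        - 2 * (∫ s, s ∂σ) * DD P π0 0 ε) F
        (𝓝 (2 * (∫ t, t ∂τ) * ∑ i, x i - 2 * (∫ s, s ∂σ) * x 0)) :=
      ((tendsto_finsetSum _ fun i _ => hx i).const_mul _).sub ((hx 0).const_mul _)
    have r3 := le_of_tendsto_of_tendsto r2 r1 (by
      filter_upwards [hF (ev_ioo hβ)] with ε hε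
      have hπ := hP ε hε.1 hε.2
      have hB := asB hs hβ hε.1 hε.2 hπ hK
      have e1 : ∑ i, DD P π0 i ε = ∑ i, (∫ w, tr K i w ∂(P ε) - ∫ w, tr K i w ∂π0)
          + ∑ i, ∫ w, max (w i - K) 0 ∂(P ε) - ∑ i, ∫ w, max (w i - K) 0 ∂π0 := by
        rw [← Finset.sum_add_distrib, ← Finset.sum_sub_distrib]
        exact Finset.sum_congr rfl fun i _ => DD_split hs hβ hπ0 hP hK.le i hε.1 hε.2
      have e2 := DD_split hs hβ hπ0 hP hK.le 0 hε.1 hε.2
      have n1 : 0 ≤ ∑ i, ∫ w, max (w i - K) 0 ∂π0 :=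
        Finset.sum_nonneg fun i _ => integral_nonneg fun w => le_max_right _ _
      have n2 := mul_nonneg hET n1
      rw [e1, e2]
      linarith)
    refine r3.trans (le_of_eq ?_)
    ring
  have h1 := ((tail_Rt hs β).add_const (β ^ 2 * (∫ s, s ^ 2 ∂σ))).add
    ((tail_i hs hπ0 0).const_mul (2 * ∫ s, s ∂σ))
  have h2 := ge_of_tendsto h1 ((eventually_gt_atTop 0).mono key)
  refine h2.trans (le_of_eq ?_)
  ring

/-- The total, lower bound. -/
theorem lim_E (hs : Sys m σ τ) (hβ : 0 < β) (hπ0 : IsStat σ τ π0) (hP : Fam m σ τ β P)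
    (hF : (F : Filter ℝ) ≤ 𝓝[>] 0) (hx : ∀ i, Tendsto (DD P π0 i) F (𝓝 (x i))) :
    β ^ 2 * ∫ s, s ^ 2 ∂σ ≤ 2 * ((m + 1) * ∫ t, t ∂τ - ∫ s, s ∂σ) * ∑ i, x i := by
  set δ := (m + 1) * ∫ t, t ∂τ - ∫ s, s ∂σ with hδ
  have hδp : 0 < δ := by have := hs.stab; linarith
  have key : ∀ K : ℝ, 0 < K → β ^ 2 * (∫ s, s ^ 2 ∂σ)
      - 2 * δ * ∑ i, ∫ w, max (w i - K) 0 ∂π0 ≤ 2 * δ * ∑ i, x i := by
    intro K hK
    have hT : ∀ i, Tendsto (fun ε => ∫ w, tr K i w ∂(P ε) - ∫ w, tr K i w ∂π0) F (𝓝 0) := fun i =>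
      (trunc_lim hs hβ hπ0 hP (measurable_tr K i) (by positivity) (tr_lip hK.le i)).mono_left hF
    have hTs : Tendsto (fun ε => ∑ i, (∫ w, tr K i w ∂(P ε) - ∫ w, tr K i w ∂π0)) F
        (𝓝 (∑ _i : Fin (m + 1), (0 : ℝ))) := tendsto_finsetSum _ fun i _ => hT i
    rw [Finset.sum_const_zero] at hTs
    have l1 := ((lim1 β).mul_const (∫ s, s ^ 2 ∂σ)).mono_left hF
    have l2 := ((lim2 β).mul_const ((∫ s, s ∂σ) * ((m + 1) * ∫ t, t ∂τ + (m + 1) * K))).mono_left hF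
    have r1 := ((hTs.const_mul (2 * δ)).add (l1.sub l2)).sub_const
      (2 * δ * ∑ i, ∫ w, max (w i - K) 0 ∂π0)
    have r2 : Tendsto (fun ε => 2 * δ * ∑ i, DD P π0 i ε) F (𝓝 (2 * δ * ∑ i, x i)) :=
      (tendsto_finsetSum _ fun i _ => hx i).const_mul _
    have r3 := le_of_tendsto_of_tendsto r1 r2 (by
      filter_upwards [hF (ev_ioo hβ)] with ε hε
      have hπ := hP ε hε.1 hε.2
      have hs' := sys_perturb hs hβ hε.1 hε.2
      have hE := asE hs hβ hε.1 hε.2 hπ (K := (m + 1) * K) (by positivity)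
      rw [← hδ] at hE
      have e1 : ∑ i, DD P π0 i ε = ∑ i, (∫ w, tr K i w ∂(P ε) - ∫ w, tr K i w ∂π0)
          + ∑ i, ∫ w, max (w i - K) 0 ∂(P ε) - ∑ i, ∫ w, max (w i - K) 0 ∂π0 := by
        rw [← Finset.sum_add_distrib, ← Finset.sum_sub_distrib]
        exact Finset.sum_congr rfl fun i _ => DD_split hs hβ hπ0 hP hK.le i hε.1 hε.2
      have h3 : ∫ w, max (tot w - (m + 1) * K) 0 ∂(P ε) ≤ ∑ i, ∫ w, max (w i - K) 0 ∂(P ε) := by
        rw [← integral_finsetSum _ (fun i _ => igr_pos hs' hπ hK.le i)]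
        refine integral_mono_ae (igr_of_le hs' hπ
          ((measurable_tot.sub measurable_const).max measurable_const) fun w _ hw =>
            ⟨le_max_right _ _, max_le ?_ (tot_nonneg hw)⟩)
          (integrable_finsetSum _ fun i _ => igr_pos hs' hπ hK.le i) ?_
        · have : 0 ≤ ((m : ℝ) + 1) * K := by positivity
          linarith
        · refine Eventually.of_forall fun w => ?_
          refine max_le ?_ (Finset.sum_nonneg fun i _ => le_max_right _ _)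
          have h4 : ∑ i, (w i - K) ≤ ∑ i, max (w i - K) 0 :=
            Finset.sum_le_sum fun i _ => le_max_left _ _
          rw [Finset.sum_sub_distrib] at h4
          simpa [tot] using h4
      have h4 := mul_le_mul_of_nonneg_left h3 (by positivity : 0 ≤ 2 * δ)
      rw [e1]
      linarith)
    refine le_trans (le_of_eq ?_) r3
    ring
  have h1 : Tendsto (fun K : ℝ => β ^ 2 * (∫ s, s ^ 2 ∂σ)
      - 2 * δ * ∑ i, ∫ w, max (w i - K) 0 ∂π0) atTop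
      (𝓝 (β ^ 2 * (∫ s, s ^ 2 ∂σ) - 2 * δ * ∑ _i : Fin (m + 1), (0 : ℝ))) :=
    tendsto_const_nhds.sub ((tendsto_finsetSum _ fun i _ => tail_i hs hπ0 i).const_mul _)
  have h2 := le_of_tendsto h1 ((eventually_gt_atTop 0).mono key)
  simpa using h2

/-- The smallest workload, upper bound. -/
theorem lim_F (hs : Sys m σ τ) (hβ : 0 < β) (hπ0 : IsStat σ τ π0) (hP : Fam m σ τ β P)
    (hF : (F : Filter ℝ) ≤ 𝓝[>] 0) (hx : ∀ i, Tendsto (DD P π0 i) F (𝓝 (x i)))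
    {c : ℝ} (hc : 1 < c) (hc2 : ∫ t, t ∂τ < c * ((m + 1) * ∫ t, t ∂τ - ∫ s, s ∂σ)) :
    2 * (∫ s, s ∂σ) * x 0 ≤ (c - 1) * (β ^ 2 * ∫ s, s ^ 2 ∂σ) := by
  have hES := mean_s_nonneg hs
  have hET := mean_t_pos hs
  have hX2 : 0 ≤ ∫ s, s ^ 2 ∂σ := integral_nonneg fun s => sq_nonneg s
  have hT2 : 0 ≤ ∫ s, s ^ 2 ∂τ := integral_nonneg fun s => sq_nonneg s
  have hC2 : 0 ≤ ∫ s, s ^ 2 ∂σ + (m + 1) * ∫ t, t ^ 2 ∂τ := by positivity
  set C2 := ∫ s, s ^ 2 ∂σ + (m + 1) * ∫ t, t ^ 2 ∂τ with hC2d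
  set κ := min (c * ((m + 1) * ∫ t, t ∂τ - ∫ s, s ∂σ) - ∫ t, t ∂τ) ((∫ t, t ∂τ) * (c - 1))
    with hκ
  have hκp : 0 < κ := lt_min (by linarith) (mul_pos hET (by linarith))
  set h := c * C2 / (2 * κ) + 1 with hh
  have hhp : 0 < h := by positivity
  have hκh : c * C2 / (2 * h) ≤ κ := by
    rw [div_le_iff₀ (by positivity)]
    have : c * C2 / (2 * κ) * (2 * κ) = c * C2 := by field_simp
    rw [hh]
    nlinarith
  have key : ∀ K : ℝ, 0 < K → 2 * (∫ s, s ∂σ) * x 0 ≤ 2 * (c * C2 * (m + 1) / 4 * (AP m σ τ β / K)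
        + c / 2 * Rt m σ τ β K) + (c - 1) * (β ^ 2 * ∫ s, s ^ 2 ∂σ) := by
    intro K hK
    have hKh : 0 ≤ K + h := by positivity
    have hT : ∀ i, Tendsto (fun ε => ∫ w, tr (K + h) i w ∂(P ε) - ∫ w, tr (K + h) i w ∂π0) F
        (𝓝 0) := fun i =>
      (trunc_lim hs hβ hπ0 hP (measurable_tr (K + h) i) (by positivity) (tr_lip hKh i)).mono_left hF
    have l4 := ((lim4 β).mul_const (c * (AP m σ τ β * ∫ s, s ∂σ))).mono_left hF
    have l5 := ((lim5 β).mul_const ((c - 1) / 2 * ∫ s, s ^ 2 ∂σ)).mono_left hF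
    have r1 := ((hT 0).const_mul (2 * ∫ s, s ∂σ)).add
      (((l4.const_add (c * C2 * (m + 1) / 4 * (AP m σ τ β / K) + c / 2 * Rt m σ τ β K)).add
        l5).const_mul 2)
    have r2 : Tendsto (fun ε => 2 * (∫ s, s ∂σ) * DD P π0 0 ε) F
        (𝓝 (2 * (∫ s, s ∂σ) * x 0)) := (hx 0).const_mul _
    have r3 := le_of_tendsto_of_tendsto r2 r1 (by
      filter_upwards [hF (ev_ioo hβ)] with ε hε
      have hπ := hP ε hε.1 hε.2
      have hB := asF hs hβ hε.1 hε.2 hπ hK hc.le hhp (min_le_left _ _) (min_le_right _ _) hκh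
      have e2 := DD_split hs hβ hπ0 hP hKh 0 hε.1 hε.2
      have n1 : 0 ≤ ∫ w, max (w 0 - (K + h)) 0 ∂π0 := integral_nonneg fun w => le_max_right _ _
      have n2 := mul_nonneg hES n1
      rw [e2]
      linarith)
    refine r3.trans (le_of_eq ?_)
    ring
  have h1 : Tendsto (fun K : ℝ => AP m σ τ β / K) atTop (𝓝 0) :=
    tendsto_const_nhds.div_atTop tendsto_id
  have h2 := (((h1.const_mul (c * C2 * (m + 1) / 4)).add
    ((tail_Rt hs β).const_mul (c / 2))).const_mul 2).add_const ((c - 1) * (β ^ 2 * ∫ s, s ^ 2 ∂σ))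
  have h3 := ge_of_tendsto h2 ((eventually_gt_atTop 0).mono key)
  refine h3.trans (le_of_eq ?_)
  ring

/-- The largest workload, lower bound. -/
theorem lim_CD (hs : Sys m σ τ) (hβ : 0 < β) (hπ0 : IsStat σ τ π0) (hP : Fam m σ τ β P)
    (hF : (F : Filter ℝ) ≤ 𝓝[>] 0) (hx : ∀ i, Tendsto (DD P π0 i) F (𝓝 (x i))) :
    m / 2 * (β ^ 2 * ∫ s, s ^ 2 ∂σ) + max (∫ s, s ∂σ - m * ∫ t, t ∂τ) 0
      * (∑ i, x i - x (Fin.last m)) ≤ m * (∫ t, t ∂τ) * x (Fin.last m) := by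
  have hET := (mean_t_pos hs).le
  have hm : (0 : ℝ) ≤ m := Nat.cast_nonneg m
  set g := max (∫ s, s ∂σ - m * ∫ t, t ∂τ) 0 with hg
  have hg0 : 0 ≤ g := le_max_right _ _
  have key : ∀ K : ℝ, 0 < K → m / 2 * (β ^ 2 * ∫ s, s ^ 2 ∂σ) + g
      * (∑ i, x i - x (Fin.last m)) - m * (∫ t, t ∂τ) * ∫ w, max (w (Fin.last m) - K) 0 ∂π0
        ≤ m * (∫ t, t ∂τ) * x (Fin.last m) := by
    intro K hK
    have hmK : 0 ≤ (m : ℝ) * K := by positivity
    have hT : Tendsto (fun ε => ∫ w, tr K (Fin.last m) w ∂(P ε) - ∫ w, tr K (Fin.last m) w ∂π0) F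
        (𝓝 0) := (trunc_lim hs hβ hπ0 hP (measurable_tr K _) (by positivity)
          (tr_lip hK.le _)).mono_left hF
    have hR : Tendsto (fun ε => ∫ w, trR (m * K) w ∂(P ε) - ∫ w, trR (m * K) w ∂π0) F
        (𝓝 0) := (trunc_lim hs hβ hπ0 hP (measurable_trR (m * K)) (by positivity)
          (trR_lip hmK)).mono_left hF
    have l1 := ((lim1 β).mul_const (∫ s, s ^ 2 ∂σ)).mono_left hF
    have l2 := ((lim2 β).mul_const ((∫ s, s ∂σ) * (AP m σ τ β + ∫ t, t ∂τ + K))).mono_left hF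
    have hsum : Tendsto (fun ε => ∑ i, DD P π0 i ε) F (𝓝 (∑ i, x i)) :=
      tendsto_finsetSum _ fun i _ => hx i
    have r1 := (((hT.const_mul (m * ∫ t, t ∂τ)).add ((l1.sub l2).const_mul ((m : ℝ) / 2))).add
      (((hsum.sub (hx (Fin.last m))).sub hR).const_mul g)).sub_const
        (m * (∫ t, t ∂τ) * ∫ w, max (w (Fin.last m) - K) 0 ∂π0)
    have r2 : Tendsto (fun ε => m * (∫ t, t ∂τ) * DD P π0 (Fin.last m) ε) F
        (𝓝 (m * (∫ t, t ∂τ) * x (Fin.last m))) := (hx _).const_mul _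
    have r3 := le_of_tendsto_of_tendsto r1 r2 (by
      filter_upwards [hF (ev_ioo hβ)] with ε hε
      have hπ := hP ε hε.1 hε.2
      have hs' := sys_perturb hs hβ hε.1 hε.2
      have hB := asCD hs hβ hε.1 hε.2 hπ hK.le
      rw [← hg] at hB
      have e2 := DD_split hs hβ hπ0 hP hK.le (Fin.last m) hε.1 hε.2
      have e3 := split_rest hs' hπ hmK
      have e4 := split_rest hs hπ0 hmK
      have e5 : ∑ i, DD P π0 i ε - DD P π0 (Fin.last m) ε
          = (∑ i, ∫ w, w i ∂(P ε) - ∫ w, w (Fin.last m) ∂(P ε))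
            - (∑ i, ∫ w, w i ∂π0 - ∫ w, w (Fin.last m) ∂π0) := by
        simp only [DD, Finset.sum_sub_distrib]; ring
      have n1 : 0 ≤ ∫ w, max (rest w - m * K) 0 ∂π0 := integral_nonneg fun w => le_max_right _ _
      have e6 : (∑ i, DD P π0 i ε - DD P π0 (Fin.last m) ε)
          - (∫ w, trR (m * K) w ∂(P ε) - ∫ w, trR (m * K) w ∂π0)
          ≤ ∫ w, max (rest w - m * K) 0 ∂(P ε) := by
        rw [e5, e3, e4]; linarith
      have e7 := mul_le_mul_of_nonneg_left e6 hg0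
      have e8 : (fun w : Vec m => max (lst w - K) 0) = fun w => max (w (Fin.last m) - K) 0 := rfl
      rw [e8] at hB
      have e9 : m * (∫ t, t ∂τ) * DD P π0 (Fin.last m) ε
          = m * (∫ t, t ∂τ) * (∫ w, tr K (Fin.last m) w ∂(P ε) - ∫ w, tr K (Fin.last m) w ∂π0)
          + m * (∫ t, t ∂τ) * (∫ w, max (w (Fin.last m) - K) 0 ∂(P ε))
          - m * (∫ t, t ∂τ) * ∫ w, max (w (Fin.last m) - K) 0 ∂π0 := by
        rw [e2]; ring
      rw [e9]
      linarith)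
    refine le_trans (le_of_eq ?_) r3
    ring
  have h1 : Tendsto (fun K : ℝ => m / 2 * (β ^ 2 * ∫ s, s ^ 2 ∂σ) + g
      * (∑ i, x i - x (Fin.last m)) - m * (∫ t, t ∂τ) * ∫ w, max (w (Fin.last m) - K) 0 ∂π0) atTop
      (𝓝 (m / 2 * (β ^ 2 * ∫ s, s ^ 2 ∂σ) + g
      * (∑ i, x i - x (Fin.last m)) - m * (∫ t, t ∂τ) * 0)) :=
    tendsto_const_nhds.sub ((tail_i hs hπ0 _).const_mul _)
  have h2 := le_of_tendsto h1 ((eventually_gt_atTop 0).mono key)
  simpa using h2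

end limits

/-- The algebra: the values are determined by the inequalities. Light traffic. -/
theorem alg_low {m : ℕ} {ES ET c1 : ℝ} {x : Fin (m + 1) → ℝ} (hES : 0 < ES) (hET : 0 < ET)
    (hc1 : 0 ≤ c1) (hlow : ES ≤ m * ET) (h0 : 0 ≤ x 0) (hle : ∀ i, x 0 ≤ x i)
    (hB : 2 * ET * ∑ i, x i - 2 * ES * x 0 ≤ 2 * c1)
    (hF : ∀ c, 1 < c → ET < c * ((m + 1) * ET - ES) → 2 * ES * x 0 ≤ (c - 1) * (2 * c1))
    (hCD : m / 2 * (2 * c1) + max (ES - m * ET) 0 * (∑ i, x i - x (Fin.last m))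
      ≤ m * ET * x (Fin.last m)) :
    (∀ i, i ≠ Fin.last m → x i = 0) ∧ x (Fin.last m) = c1 / ET := by
  have hmp : (0 : ℝ) < m := by
    by_contra h
    have : (m : ℝ) = 0 := le_antisymm (not_lt.1 h) (Nat.cast_nonneg m)
    rw [this] at hlow; linarith
  have hδ : ET ≤ (m + 1) * ET - ES := by linarith
  have hx0 : x 0 = 0 := by
    refine le_antisymm ?_ h0
    have h1 : ∀ c : ℝ, 1 < c → 2 * ES * x 0 ≤ (c - 1) * (2 * c1) := by
      intro c hc
      refine hF c hc ?_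
      nlinarith
    have h2 : Tendsto (fun c : ℝ => (c - 1) * (2 * c1)) (𝓝[>] 1) (𝓝 ((1 - 1) * (2 * c1))) :=
      (Continuous.tendsto (by fun_prop) 1).mono_left nhdsWithin_le_nhds
    have h3 := ge_of_tendsto h2 (by
      filter_upwards [self_mem_nhdsWithin] with c hc
      exact h1 c hc)
    rw [sub_self, zero_mul] at h3
    nlinarith
  rw [max_eq_right (by linarith : ES - m * ET ≤ 0)] at hCD
  have h1 : c1 ≤ ET * x (Fin.last m) := by
    by_contra h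
    push Not at h
    nlinarith
  have hsplit : ∑ i, x i = x (Fin.last m) + ∑ i ∈ univ.erase (Fin.last m), x i :=
    (Finset.add_sum_erase univ x (mem_univ _)).symm
  have hnn : ∀ i ∈ univ.erase (Fin.last m), 0 ≤ x i := fun i _ => h0.trans (hle i)
  have hsn := Finset.sum_nonneg hnn
  rw [hx0, hsplit] at hB
  have h2 : ∑ i ∈ univ.erase (Fin.last m), x i = 0 := by
    refine le_antisymm ?_ hsn
    nlinarith
  refine ⟨fun i hi => ?_, ?_⟩
  · exact (Finset.sum_eq_zero_iff_of_nonneg hnn).1 h2 i (Finset.mem_erase.2 ⟨hi, mem_univ _⟩)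
  · rw [eq_div_iff hET.ne']
    rw [h2] at hB
    linarith

/-- The algebra: the values are determined by the inequalities. Heavy traffic. -/
theorem alg_high {m : ℕ} {ES ET c1 : ℝ} {x : Fin (m + 1) → ℝ} (hES : 0 < ES)
    (hET : 0 < ET) (hst : ES < (m + 1) * ET) (hhigh : m * ET < ES)
    (hle : ∀ i, x 0 ≤ x i)
    (hB : 2 * ET * ∑ i, x i - 2 * ES * x 0 ≤ 2 * c1)
    (hE : 2 * c1 ≤ 2 * ((m + 1) * ET - ES) * ∑ i, x i)
    (hF : ∀ c, 1 < c → ET < c * ((m + 1) * ET - ES) → 2 * ES * x 0 ≤ (c - 1) * (2 * c1))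
    (hCD : m / 2 * (2 * c1) + max (ES - m * ET) 0 * (∑ i, x i - x (Fin.last m))
      ≤ m * ET * x (Fin.last m)) :
    (∀ i, i ≠ Fin.last m → x i = c1 * (ES - m * ET) / (((m + 1) * ET - ES) * ES)) ∧
      x (Fin.last m) = c1 / ((m + 1) * ET - ES)
        - m * (c1 * (ES - m * ET) / (((m + 1) * ET - ES) * ES)) := by
  set δ := (m + 1) * ET - ES with hδ
  have hδp : 0 < δ := by linarith
  have hδET : δ < ET := by linarith
  have hgap : ES - m * ET = ET - δ := by rw [hδ]; ring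
  rw [hgap] at hCD ⊢
  rw [max_eq_left (by linarith : 0 ≤ ET - δ)] at hCD
  have hm : (0 : ℝ) ≤ m := Nat.cast_nonneg m
  set S := ∑ i, x i with hS
  -- upper bound of the smallest
  have u0 : 2 * ES * x 0 ≤ (ET / δ - 1) * (2 * c1) := by
    have h2 : Tendsto (fun c : ℝ => (c - 1) * (2 * c1)) (𝓝[>] (ET / δ))
        (𝓝 ((ET / δ - 1) * (2 * c1))) :=
      (Continuous.tendsto (by fun_prop) _).mono_left nhdsWithin_le_nhds
    refine ge_of_tendsto h2 ?_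
    filter_upwards [self_mem_nhdsWithin] with c hc
    have hc' : ET / δ < c := hc
    have h3 : 1 < ET / δ := by rw [lt_div_iff₀ hδp]; linarith
    refine hF c (h3.trans hc') ?_
    rw [div_lt_iff₀ hδp] at hc'
    exact hc'
  have hSl : c1 / δ ≤ S := by
    rw [div_le_iff₀ hδp]; linarith
  have e1 : (ET / δ - 1) * (2 * c1) = 2 * (ET * (c1 / δ)) - 2 * c1 := by field_simp
  have hSe : S = c1 / δ := by
    refine le_antisymm ?_ hSl
    have : ET * S ≤ ET * (c1 / δ) := by linarith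
    exact le_of_mul_le_mul_left this hET
  have hx0 : ES * x 0 = ET * (c1 / δ) - c1 := by
    refine le_antisymm (by linarith) ?_
    rw [hSe] at hB; linarith
  have hx0' : x 0 = c1 * (ET - δ) / (δ * ES) := by
    rw [eq_div_iff (by positivity)]
    have : δ * (ES * x 0) = δ * (ET * (c1 / δ) - c1) := by rw [hx0]
    have e2 : δ * (ET * (c1 / δ) - c1) = c1 * (ET - δ) := by field_simp
    rw [e2] at this
    linarith
  have hsplit : S = x (Fin.last m) + ∑ i ∈ univ.erase (Fin.last m), x i :=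
    (Finset.add_sum_erase univ x (mem_univ _)).symm
  have hcard : ((univ.erase (Fin.last m)).card : ℝ) = m := by
    rw [Finset.card_erase_of_mem (mem_univ _)]; simp
  have hsum : ∑ i ∈ univ.erase (Fin.last m), (x i - x 0)
      = ∑ i ∈ univ.erase (Fin.last m), x i - m * x 0 := by
    rw [Finset.sum_sub_distrib, Finset.sum_const, nsmul_eq_mul, hcard]
  have hnn : ∀ i ∈ univ.erase (Fin.last m), 0 ≤ x i - x 0 := fun i _ => sub_nonneg.2 (hle i)
  have hsn := Finset.sum_nonneg hnn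
  -- lower bound of the largest
  have hES' : ES = m * ET + (ET - δ) := by rw [hδ]; ring
  have hl : m * c1 + (ET - δ) * S ≤ ES * x (Fin.last m) := by
    rw [hES']; linarith
  have hlow : ES * S ≤ ES * (x (Fin.last m) + m * x 0) := by
    have h3 : ES * (x (Fin.last m) + m * x 0) = ES * x (Fin.last m) + m * (ES * x 0) := by ring
    have h4 : ES * S = m * c1 + (ET - δ) * S + m * (ET * (c1 / δ) - c1) := by
      rw [hSe, hES']; ring
    rw [h3, h4, hx0]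
    linarith
  have hlow' := le_of_mul_le_mul_left hlow hES
  have hz : ∑ i ∈ univ.erase (Fin.last m), (x i - x 0) = 0 := by
    refine le_antisymm ?_ hsn
    rw [hsum]; linarith
  refine ⟨fun i hi => ?_, ?_⟩
  · have h5 := (Finset.sum_eq_zero_iff_of_nonneg hnn).1 hz i (Finset.mem_erase.2 ⟨hi, mem_univ _⟩)
    rw [← hx0']; linarith
  · rw [← hx0', ← hSe]
    rw [hsum] at hz
    linarith

end Pool.Agent.K9h80.GQ
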