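import Pool.Agent.K9h80.GQ.Ineq

/-!
# The upper bounds: sum of squares above a level, and the function for the smallest workload
-/

set_option autoImplicit false

open MeasureTheory Finset Filter Topology

namespace Pool.Agent.K9h80.GQ

section phi

/-- A smoothed positive part: zero for `x ≤ 0`, `x - a / 2` for `x ≥ a`. -/
noncomputable def phi (a x : ℝ) : ℝ := ((max x 0) ^ 2 - (max (x - a) 0) ^ 2) / (2 * a)

/-- Its derivative. -/
noncomputable def dphi (a x : ℝ) : ℝ := (max x 0 - max (x - a) 0) / a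

variable {a : ℝ}

theorem phi_zero (ha : 0 < a) {x : ℝ} (hx : x ≤ 0) : phi a x = 0 := by
  rw [phi, max_eq_right hx, max_eq_right (by linarith)]; simp

theorem phi_big (ha : 0 < a) {x : ℝ} (hx : a ≤ x) : phi a x = x - a / 2 := by
  rw [phi, max_eq_left (by linarith), max_eq_left (by linarith)]
  field_simp
  ring

theorem phi_mid (ha : 0 < a) {x : ℝ} (hx : 0 ≤ x) (hx' : x ≤ a) : phi a x = x ^ 2 / (2 * a) := by
  rw [phi, max_eq_left hx, max_eq_right (by linarith)]; simp

theorem dphi_zero (ha : 0 < a) {x : ℝ} (hx : x ≤ 0) : dphi a x = 0 := by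
  rw [dphi, max_eq_right hx, max_eq_right (by linarith)]; simp

theorem dphi_big (ha : 0 < a) {x : ℝ} (hx : a ≤ x) : dphi a x = 1 := by
  rw [dphi, max_eq_left (by linarith), max_eq_left (by linarith)]
  field_simp
  ring

theorem dphi_nonneg (ha : 0 < a) (x : ℝ) : 0 ≤ dphi a x := by
  refine div_nonneg (sub_nonneg.2 (max_le_max (by linarith) le_rfl)) ha.le

theorem dphi_le_one (ha : 0 < a) (x : ℝ) : dphi a x ≤ 1 := by
  rw [dphi, div_le_one ha]
  rcases le_total x 0 with h | h
  · rw [max_eq_right h, max_eq_right (by linarith)]; linarith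
  · rw [max_eq_left h]; linarith [le_max_left (x - a) 0]

theorem dphi_mono (ha : 0 < a) {x y : ℝ} (h : x ≤ y) : dphi a x ≤ dphi a y := by
  rw [dphi, dphi]
  refine div_le_div_of_nonneg_right ?_ ha.le
  rcases le_total x 0 with h1 | h1
  · rw [max_eq_right h1, max_eq_right (by linarith : x - a ≤ 0)]
    have : max (y - a) 0 ≤ max y 0 := max_le_max (by linarith) le_rfl
    linarith
  · rw [max_eq_left h1, max_eq_left (h1.trans h)]
    rcases le_total (x - a) 0 with h2 | h2
    · rw [max_eq_right h2]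
      rcases le_total (y - a) 0 with h3 | h3
      · rw [max_eq_right h3]; linarith
      · rw [max_eq_left h3]; linarith
    · rw [max_eq_left h2, max_eq_left (by linarith)]; linarith

theorem phi_sub (ha : 0 < a) {x y : ℝ} (h : x ≤ y) :
    0 ≤ phi a y - phi a x ∧ phi a y - phi a x ≤ y - x := by
  have e : phi a y - phi a x = (((max y 0) ^ 2 - (max (y - a) 0) ^ 2)
      - ((max x 0) ^ 2 - (max (x - a) 0) ^ 2)) / (2 * a) := by
    rw [phi, phi]; ring
  rw [e, le_div_iff₀ (by positivity), div_le_iff₀ (by positivity), zero_mul]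
  rcases le_total x 0 with h1 | h1
  · rw [max_eq_right h1, max_eq_right (by linarith : x - a ≤ 0)]
    rcases le_total y 0 with h2 | h2
    · rw [max_eq_right h2, max_eq_right (by linarith : y - a ≤ 0)]
      constructor <;> nlinarith
    · rw [max_eq_left h2]
      rcases le_total (y - a) 0 with h3 | h3
      · rw [max_eq_right h3]; constructor <;> nlinarith
      · rw [max_eq_left h3]; constructor <;> nlinarith
  · rw [max_eq_left h1, max_eq_left (h1.trans h)]
    rcases le_total (x - a) 0 with h2 | h2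
    · rw [max_eq_right h2]
      rcases le_total (y - a) 0 with h3 | h3
      · rw [max_eq_right h3]; constructor <;> nlinarith
      · rw [max_eq_left h3]; constructor <;> nlinarith [sq_nonneg (a - x)]
    · rw [max_eq_left h2, max_eq_left (by linarith)]
      constructor <;> nlinarith

theorem phi_mono (ha : 0 < a) {x y : ℝ} (h : x ≤ y) : phi a x ≤ phi a y := by
  linarith [(phi_sub ha h).1]

theorem phi_nonneg (ha : 0 < a) (x : ℝ) : 0 ≤ phi a x := by
  rcases le_total x 0 with h | h
  · rw [phi_zero ha h]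
  · rw [← phi_zero ha le_rfl]; exact phi_mono ha h

theorem phi_abs_sub (ha : 0 < a) (x y : ℝ) : |phi a x - phi a y| ≤ |x - y| := by
  rcases le_total x y with h | h
  · have := phi_sub ha h
    rw [abs_sub_comm, abs_of_nonneg this.1, abs_sub_comm, abs_of_nonneg (by linarith)]
    exact this.2
  · have := phi_sub ha h
    rw [abs_of_nonneg this.1, abs_of_nonneg (by linarith)]
    exact this.2

theorem phi_le (ha : 0 < a) {K x : ℝ} (hK : 0 ≤ K) (hx : 0 ≤ x) : phi a (x - K) ≤ x := by
  have h1 := phi_sub ha hx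
  rw [phi_zero ha le_rfl] at h1
  have h2 := phi_mono ha (show x - K ≤ x by linarith)
  linarith

theorem phi_max (ha : 0 < a) {K : ℝ} (hK : 0 ≤ K) (x : ℝ) :
    phi a (max x 0 - K) = phi a (x - K) := by
  rcases le_total x 0 with h | h
  · rw [max_eq_right h, phi_zero ha (by linarith), phi_zero ha (by linarith)]
  · rw [max_eq_left h]

theorem phi_taylor (ha : 0 < a) (x δ : ℝ) :
    phi a (x + δ) ≤ phi a x + dphi a x * δ + δ ^ 2 / (2 * a) := by
  have h1 := qle x δ
  have h2 : (max (x - a) 0) ^ 2 + 2 * max (x - a) 0 * δ ≤ (max (x - a + δ) 0) ^ 2 := by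
    have h3 := qge (K := max (-(x - a)) 0) (le_max_right _ _) (x := x - a)
      (by linarith [le_max_left (-(x - a)) 0]) δ
    have h4 := sq_nonneg (max (δ - max (-(x - a)) 0) 0)
    linarith
  have e : phi a x + dphi a x * δ + δ ^ 2 / (2 * a)
      = (((max x 0) ^ 2 + 2 * max x 0 * δ + δ ^ 2)
        - ((max (x - a) 0) ^ 2 + 2 * max (x - a) 0 * δ)) / (2 * a) := by
    rw [phi, dphi]; field_simp; ring
  rw [e, phi, show x + δ - a = x - a + δ by ring]
  refine div_le_div_of_nonneg_right ?_ (by positivity)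
  linarith

/-- The product dominates the positive part above `a`. -/
theorem phi_mul_dphi (ha : 0 < a) (x : ℝ) : max (x - a) 0 ≤ dphi a x * phi a x := by
  refine max_le ?_ (mul_nonneg (dphi_nonneg ha x) (phi_nonneg ha x))
  rcases le_total a x with h | h
  · rw [dphi_big ha h, phi_big ha h]; linarith
  · have := mul_nonneg (dphi_nonneg ha x) (phi_nonneg ha x)
    linarith

theorem measurable_phi : Measurable (phi a) := by
  unfold phi; fun_prop

theorem measurable_dphi : Measurable (dphi a) := by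
  unfold dphi; fun_prop

end phi

section gfun

variable {n : ℕ}

/-- The quadratic function is monotone. -/
theorem g_mono {c : ℝ} (hc : 1 ≤ c) {u v : Fin n → ℝ} (hu : ∀ i, 0 ≤ u i) (huv : ∀ i, u i ≤ v i) :
    (c * (∑ i, u i) ^ 2 - ∑ i, (u i) ^ 2) / 2 ≤ (c * (∑ i, v i) ^ 2 - ∑ i, (v i) ^ 2) / 2 := by
  have hsu : 0 ≤ ∑ i, u i := Finset.sum_nonneg fun i _ => hu i
  have hsuv : ∑ i, u i ≤ ∑ i, v i := Finset.sum_le_sum fun i _ => huv i
  have h1 : ∑ i, (v i) ^ 2 - ∑ i, (u i) ^ 2 ≤ ∑ i, (v i - u i) * (∑ i, v i + ∑ i, u i) := by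
    rw [← Finset.sum_sub_distrib]
    refine Finset.sum_le_sum fun i _ => ?_
    have h2 : u i ≤ ∑ i, u i := Finset.single_le_sum (f := u) (fun j _ => hu j) (mem_univ i)
    have h3 : v i ≤ ∑ i, v i :=
      Finset.single_le_sum (f := v) (fun j _ => (hu j).trans (huv j)) (mem_univ i)
    nlinarith [huv i]
  rw [← Finset.sum_mul, Finset.sum_sub_distrib] at h1
  have h4 : (∑ i, u i) ^ 2 ≤ (∑ i, v i) ^ 2 := pow_le_pow_left₀ hsu hsuv 2
  nlinarith [mul_nonneg (sub_nonneg.2 hc) (sub_nonneg.2 h4)]

/-- The exact increment. -/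
theorem g_sub (c : ℝ) (u v : Fin n → ℝ) :
    (c * (∑ i, v i) ^ 2 - ∑ i, (v i) ^ 2) / 2 - (c * (∑ i, u i) ^ 2 - ∑ i, (u i) ^ 2) / 2
      = ∑ i, (c * (∑ j, u j) - u i) * (v i - u i) + c * (∑ i, (v i - u i)) ^ 2 / 2
        - (∑ i, (v i - u i) ^ 2) / 2 := by
  have e1 : ∑ i, (c * (∑ j, u j) - u i) * (v i - u i)
      = c * (∑ j, u j) * (∑ i, v i - ∑ i, u i) - ∑ i, u i * v i + ∑ i, (u i) ^ 2 := by
    have : ∀ i, (c * (∑ j, u j) - u i) * (v i - u i)
        = c * (∑ j, u j) * (v i - u i) - u i * v i + (u i) ^ 2 := fun i => by ring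
    simp only [this, Finset.sum_add_distrib, Finset.sum_sub_distrib, ← Finset.mul_sum]
  have e2 : ∑ i, (v i - u i) ^ 2 = ∑ i, (v i) ^ 2 - 2 * ∑ i, u i * v i + ∑ i, (u i) ^ 2 := by
    have : ∀ i, (v i - u i) ^ 2 = (v i) ^ 2 - 2 * (u i * v i) + (u i) ^ 2 := fun i => by ring
    simp only [this, Finset.sum_add_distrib, Finset.sum_sub_distrib, ← Finset.mul_sum]
  rw [e1, e2, Finset.sum_sub_distrib]
  ring

end gfun

section

variable {m : ℕ}

/-- The smoothed positive parts above `K`. -/
noncomputable def uu (a K : ℝ) (w : Fin (m + 1) → ℝ) (i : Fin (m + 1)) : ℝ := phi a (w i - K)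

/-- Their sum. -/
noncomputable def UU (a K : ℝ) (w : Fin (m + 1) → ℝ) : ℝ := ∑ i, uu a K w i

/-- The Lyapunov function for the smallest workload. -/
noncomputable def GG (a c K : ℝ) (w : Fin (m + 1) → ℝ) : ℝ :=
  (c * (∑ i, uu a K w i) ^ 2 - ∑ i, (uu a K w i) ^ 2) / 2

variable {a c K : ℝ} {w : Fin (m + 1) → ℝ} {s t : ℝ}

theorem measurable_uu (i : Fin (m + 1)) : Measurable fun w : Fin (m + 1) → ℝ => uu a K w i :=
  measurable_phi.comp ((measurable_pi_apply i).sub measurable_const)

theorem measurable_UU : Measurable (UU a K : (Fin (m + 1) → ℝ) → ℝ) :=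
  Finset.measurable_sum _ fun i _ => measurable_uu i

theorem measurable_GG : Measurable (GG a c K : (Fin (m + 1) → ℝ) → ℝ) := by
  unfold GG
  exact (((measurable_UU (a := a) (K := K)).pow_const 2).const_mul c |>.sub
    (Finset.measurable_sum _ fun i _ => (measurable_uu i).pow_const 2)).div_const 2

theorem uu_nonneg (ha : 0 < a) (i : Fin (m + 1)) : 0 ≤ uu a K w i := phi_nonneg ha _

theorem uu_le_UU (ha : 0 < a) (i : Fin (m + 1)) : uu a K w i ≤ UU a K w :=
  Finset.single_le_sum (f := fun i => uu a K w i) (fun j _ => uu_nonneg ha j) (mem_univ i)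

theorem UU_nonneg (ha : 0 < a) : 0 ≤ UU a K w := Finset.sum_nonneg fun j _ => uu_nonneg ha j

theorem UU_le_tot (ha : 0 < a) (hK : 0 ≤ K) (hw : ∀ i, 0 ≤ w i) : UU a K w ≤ tot w :=
  Finset.sum_le_sum fun i _ => phi_le ha hK (hw i)

/-- The values after one step. -/
noncomputable def vv (a K : ℝ) (w : Fin (m + 1) → ℝ) (s t : ℝ) (i : Fin (m + 1)) : ℝ :=
  phi a (w i + (if i = 0 then s else 0) - t - K)

theorem GG_step (ha : 0 < a) (hK : 0 ≤ K) : GG a c K (kwStep w s t)
    = (c * (∑ i, vv a K w s t i) ^ 2 - ∑ i, (vv a K w s t i) ^ 2) / 2 := by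
  have h1 : ∑ i, uu a K (kwStep w s t) i = ∑ i, vv a K w s t i := by
    rw [show ∑ i, uu a K (kwStep w s t) i = ∑ i, phi a (after w s t i - K) from
      sum_kwStep w s t (fun x => phi a (x - K))]
    refine Finset.sum_congr rfl fun i _ => ?_
    rw [after_eq, phi_max ha hK]; rfl
  have h2 : ∑ i, (uu a K (kwStep w s t) i) ^ 2 = ∑ i, (vv a K w s t i) ^ 2 := by
    rw [show ∑ i, (uu a K (kwStep w s t) i) ^ 2 = ∑ i, (phi a (after w s t i - K)) ^ 2 from
      sum_kwStep w s t (fun x => (phi a (x - K)) ^ 2)]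
    refine Finset.sum_congr rfl fun i _ => ?_
    rw [after_eq, phi_max ha hK]; rfl
  rw [GG, h1, h2]

theorem vv_sub_abs (ha : 0 < a) (hs : 0 ≤ s) (ht : 0 ≤ t) (i : Fin (m + 1)) :
    |vv a K w s t i - uu a K w i| ≤ (if i = 0 then s else 0) + t := by
  refine (phi_abs_sub ha _ _).trans ?_
  have e : w i + (if i = 0 then s else 0) - t - K - (w i - K) = (if i = 0 then s else 0) - t := by
    ring
  rw [e, abs_le]
  split_ifs <;> constructor <;> linarith

theorem sum_vv_sub_abs (ha : 0 < a) (hs : 0 ≤ s) (ht : 0 ≤ t) :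
    |∑ i, (vv a K w s t i - uu a K w i)| ≤ s + (m + 1) * t := by
  refine (Finset.abs_sum_le_sum_abs _ _).trans ?_
  refine (Finset.sum_le_sum fun i _ => vv_sub_abs ha hs ht i).trans (le_of_eq ?_)
  rw [Finset.sum_add_distrib]; simp

theorem GG_abs (ha : 0 < a) (hc : 1 ≤ c) (hK : 0 ≤ K) (hw : ∀ i, 0 ≤ w i) (hs : 0 ≤ s)
    (ht : 0 ≤ t) : |GG a c K (kwStep w s t) - GG a c K w|
      ≤ (2 * c * (m + 1) ^ 2 + (m + 1)) * ((s + t) * (tot w + s + t)) := by
  rw [GG_step ha hK, GG, g_sub]
  have hV := tot_nonneg hw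
  have hU := UU_nonneg (a := a) (K := K) (w := w) ha
  have hUV := UU_le_tot ha hK hw
  have hm : (0 : ℝ) ≤ m := Nat.cast_nonneg m
  have h1 : |∑ i, (c * (∑ j, uu a K w j) - uu a K w i) * (vv a K w s t i - uu a K w i)|
      ≤ (m + 1) * (c * tot w * (s + t)) := by
    refine (Finset.abs_sum_le_sum_abs _ _).trans ?_
    have h2 : ∀ i ∈ (univ : Finset (Fin (m + 1))),
        |(c * (∑ j, uu a K w j) - uu a K w i) * (vv a K w s t i - uu a K w i)|
          ≤ c * tot w * (s + t) := by
      intro i _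
      rw [abs_mul]
      have h3 : |c * (∑ j, uu a K w j) - uu a K w i| ≤ c * tot w := by
        have h4 := uu_le_UU (w := w) (K := K) ha i
        have h5 := uu_nonneg (w := w) (K := K) ha i
        change |c * UU a K w - uu a K w i| ≤ _
        rw [abs_le]; constructor <;> nlinarith
      have h4 : |vv a K w s t i - uu a K w i| ≤ s + t := by
        refine (vv_sub_abs ha hs ht i).trans ?_
        split_ifs <;> linarith
      exact mul_le_mul h3 h4 (abs_nonneg _) (by positivity)
    refine (Finset.sum_le_sum h2).trans (le_of_eq ?_)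
    simp
  have h2 : |c * (∑ i, (vv a K w s t i - uu a K w i)) ^ 2 / 2| ≤ c * ((m + 1) * (s + t)) ^ 2 / 2 := by
    have h3 := sum_vv_sub_abs (w := w) (K := K) ha hs ht
    have h4 : |∑ i, (vv a K w s t i - uu a K w i)| ≤ (m + 1) * (s + t) := by
      refine h3.trans ?_
      nlinarith [mul_nonneg hm hs]
    rw [abs_of_nonneg (by positivity)]
    have h5 := pow_le_pow_left₀ (abs_nonneg _) h4 2
    rw [sq_abs] at h5
    have : 0 ≤ c := by linarith
    nlinarith
  have h3 : |(∑ i, (vv a K w s t i - uu a K w i) ^ 2) / 2| ≤ (m + 1) * (s + t) ^ 2 / 2 := by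
    rw [abs_of_nonneg (by positivity)]
    have h4 : ∀ i ∈ (univ : Finset (Fin (m + 1))),
        (vv a K w s t i - uu a K w i) ^ 2 ≤ (s + t) ^ 2 := by
      intro i _
      have h4 : |vv a K w s t i - uu a K w i| ≤ s + t := by
        refine (vv_sub_abs ha hs ht i).trans ?_
        split_ifs <;> linarith
      have h5 := pow_le_pow_left₀ (abs_nonneg _) h4 2
      rwa [sq_abs] at h5
    have h5 := Finset.sum_le_sum h4
    simp only [sum_const, card_univ, Fintype.card_fin, nsmul_eq_mul, Nat.cast_add, Nat.cast_one] at h5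
    linarith
  have h4 := abs_add_le (∑ i, (c * (∑ j, uu a K w j) - uu a K w i) * (vv a K w s t i - uu a K w i)
    + c * (∑ i, (vv a K w s t i - uu a K w i)) ^ 2 / 2)
    (-((∑ i, (vv a K w s t i - uu a K w i) ^ 2) / 2))
  have h5 := abs_add_le (∑ i, (c * (∑ j, uu a K w j) - uu a K w i) * (vv a K w s t i - uu a K w i))
    (c * (∑ i, (vv a K w s t i - uu a K w i)) ^ 2 / 2)
  rw [abs_neg, ← sub_eq_add_neg] at h4
  have h6 : (s + t) ^ 2 ≤ (s + t) * (tot w + s + t) := by nlinarith [mul_nonneg hV (add_nonneg hs ht)]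
  have h7 : tot w * (s + t) ≤ (s + t) * (tot w + s + t) := by nlinarith [sq_nonneg (s + t)]
  set X := (s + t) * (tot w + s + t) with hX
  have hX0 : 0 ≤ X := by positivity
  have hc0 : 0 ≤ c := by linarith
  have b1 : (m + 1) * (c * tot w * (s + t)) ≤ c * (m + 1) ^ 2 * X := by
    have : c * (m + 1) * (tot w * (s + t)) ≤ c * (m + 1) * X :=
      mul_le_mul_of_nonneg_left h7 (by positivity)
    have h8 : c * (m + 1) * X ≤ c * (m + 1) ^ 2 * X := by
      have : 0 ≤ c * (m + 1) * X := by positivity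
      nlinarith
    linarith
  have b2 : c * ((m + 1) * (s + t)) ^ 2 / 2 ≤ c * (m + 1) ^ 2 * X := by
    have : c * (m + 1) ^ 2 * (s + t) ^ 2 ≤ c * (m + 1) ^ 2 * X :=
      mul_le_mul_of_nonneg_left h6 (by positivity)
    have h8 : 0 ≤ c * (m + 1) ^ 2 * X := by positivity
    nlinarith
  have b3 : (m + 1) * (s + t) ^ 2 / 2 ≤ (m + 1) * X := by
    have : ((m : ℝ) + 1) * (s + t) ^ 2 ≤ (m + 1) * X :=
      mul_le_mul_of_nonneg_left h6 (by positivity)
    have h8 : 0 ≤ ((m : ℝ) + 1) * X := by positivity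
    linarith
  linarith

/-- The bound for the ordinary jobs. -/
theorem GG_small (ha : 0 < a) (hc : 1 ≤ c) (hK : 0 ≤ K) (hw : ∀ i, 0 ≤ w i) (hs : 0 ≤ s)
    (ht : 0 ≤ t) : GG a c K (kwStep w s t) - GG a c K w
      ≤ (c * UU a K w - uu a K w 0) * dphi a (w 0 - K) * s
        - (∑ i, (c * UU a K w - uu a K w i) * dphi a (w i - K)) * t
        + c / (2 * a) * UU a K w * (s ^ 2 + (m + 1) * t ^ 2)
        + c / 2 * (if K < tot w + s then (s + (m + 1) * t) ^ 2 else 0) := by
  rw [GG_step ha hK, GG, g_sub]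
  have hV := tot_nonneg hw
  have hU := UU_nonneg (a := a) (K := K) (w := w) ha
  have hm : (0 : ℝ) ≤ m := Nat.cast_nonneg m
  have hc0 : 0 ≤ c := by linarith
  -- the first order part
  have h1 : ∑ i, (c * (∑ j, uu a K w j) - uu a K w i) * (vv a K w s t i - uu a K w i)
      ≤ (c * UU a K w - uu a K w 0) * dphi a (w 0 - K) * s
        - (∑ i, (c * UU a K w - uu a K w i) * dphi a (w i - K)) * t
        + c / (2 * a) * UU a K w * (s ^ 2 + (m + 1) * t ^ 2) := by
    have h2 : ∀ i ∈ (univ : Finset (Fin (m + 1))),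
        (c * (∑ j, uu a K w j) - uu a K w i) * (vv a K w s t i - uu a K w i)
          ≤ ((if i = 0 then (c * UU a K w - uu a K w 0) * dphi a (w 0 - K) * s else 0)
            - (c * UU a K w - uu a K w i) * dphi a (w i - K) * t)
            + c / (2 * a) * UU a K w * ((if i = 0 then s ^ 2 else 0) + t ^ 2) := by
      intro i _
      change (c * UU a K w - uu a K w i) * (vv a K w s t i - uu a K w i) ≤ _
      have h3 := uu_le_UU (w := w) (K := K) ha i
      have h4 := uu_nonneg (w := w) (K := K) ha i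
      have h5 : 0 ≤ c * UU a K w - uu a K w i := by nlinarith
      have h6 := phi_taylor ha (w i - K) ((if i = 0 then s else 0) - t)
      have h7 : vv a K w s t i - uu a K w i
          ≤ dphi a (w i - K) * ((if i = 0 then s else 0) - t)
            + ((if i = 0 then s else 0) - t) ^ 2 / (2 * a) := by
        have e : w i + (if i = 0 then s else 0) - t - K = w i - K + ((if i = 0 then s else 0) - t) := by
          ring
        simp only [vv, uu, e]
        linarith
      have h8 := mul_le_mul_of_nonneg_left h7 h5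
      refine h8.trans ?_
      have h9 : ((if i = 0 then s else 0) - t) ^ 2 / (2 * a)
          ≤ ((if i = 0 then s ^ 2 else 0) + t ^ 2) / (2 * a) := by
        refine div_le_div_of_nonneg_right ?_ (by positivity)
        split_ifs
        · nlinarith [mul_nonneg hs ht]
        · nlinarith
      have h10 : 0 ≤ ((if i = 0 then s ^ 2 else 0) + t ^ 2) / (2 * a) := by
        split_ifs <;> positivity
      have h11 : (c * UU a K w - uu a K w i) * (((if i = 0 then s else 0) - t) ^ 2 / (2 * a))
          ≤ c * UU a K w * (((if i = 0 then s ^ 2 else 0) + t ^ 2) / (2 * a)) :=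
        mul_le_mul (by linarith) h9 (by positivity) (by positivity)
      rw [mul_add]
      refine (add_le_add le_rfl h11).trans (le_of_eq ?_)
      by_cases hi : i = 0
      · subst hi; simp only [if_true]; field_simp
      · simp only [hi, if_false]; field_simp; ring
    refine (Finset.sum_le_sum h2).trans (le_of_eq ?_)
    rw [Finset.sum_add_distrib, Finset.sum_sub_distrib, ← Finset.mul_sum, Finset.sum_add_distrib,
      ← Finset.sum_mul]
    simp
  have h2 : c * (∑ i, (vv a K w s t i - uu a K w i)) ^ 2 / 2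
      ≤ c / 2 * (if K < tot w + s then (s + (m + 1) * t) ^ 2 else 0) := by
    split_ifs with hif
    · have h3 := sum_vv_sub_abs (w := w) (K := K) ha hs ht
      have h5 := pow_le_pow_left₀ (abs_nonneg _) h3 2
      rw [sq_abs] at h5
      nlinarith
    · have h3 : ∀ i ∈ (univ : Finset (Fin (m + 1))), vv a K w s t i - uu a K w i = 0 := by
        intro i _
        have h4 : w i ≤ tot w := le_tot hw i
        have h5 : uu a K w i = 0 := phi_zero ha (by linarith)
        have h6 : vv a K w s t i = 0 := phi_zero ha (by split_ifs <;> linarith)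
        rw [h5, h6, sub_zero]
      rw [Finset.sum_eq_zero h3]; simp
  have h3 : 0 ≤ (∑ i, (vv a K w s t i - uu a K w i) ^ 2) / 2 := by positivity
  linarith

/-- The bound for the huge jobs. -/
theorem GG_big (ha : 0 < a) (hc : 1 ≤ c) (hK : 0 ≤ K) (hs : 0 ≤ s)
    (ht : 0 ≤ t) : GG a c K (kwStep w s t) - GG a c K w
      ≤ c * UU a K w * s + (c - 1) / 2 * s ^ 2 := by
  have hU := UU_nonneg (a := a) (K := K) (w := w) ha
  have h1 : GG a c K (kwStep w s t)
      ≤ (c * (∑ i, vv a K w s 0 i) ^ 2 - ∑ i, (vv a K w s 0 i) ^ 2) / 2 := by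
    rw [GG_step ha hK]
    refine g_mono hc (fun i => phi_nonneg ha _) (fun i => phi_mono ha (by linarith))
  have h2 : (c * (∑ i, vv a K w s 0 i) ^ 2 - ∑ i, (vv a K w s 0 i) ^ 2) / 2 - GG a c K w
      ≤ c * UU a K w * s + (c - 1) / 2 * s ^ 2 := by
    rw [GG, g_sub]
    have h3 : ∀ i : Fin (m + 1), i ≠ 0 → vv a K w s 0 i - uu a K w i = 0 := by
      intro i hi
      simp [vv, uu, hi]
    have h4 := phi_sub (a := a) ha (show w 0 - K ≤ w 0 + s - 0 - K by linarith)
    have h5 : vv a K w s 0 0 = phi a (w 0 + s - 0 - K) := by simp [vv]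
    have h6 : uu a K w 0 = phi a (w 0 - K) := rfl
    rw [← h5, ← h6] at h4
    set δ := vv a K w s 0 0 - uu a K w 0 with hδ
    have hδs : δ ≤ s := by linarith [h4.2]
    have s1 : ∑ i, (c * (∑ j, uu a K w j) - uu a K w i) * (vv a K w s 0 i - uu a K w i)
        = (c * UU a K w - uu a K w 0) * δ := by
      refine Finset.sum_eq_single (0 : Fin (m + 1)) (fun i _ hi => ?_)
        (fun h => absurd (mem_univ _) h)
      rw [h3 i hi, mul_zero]
    have s2 : ∑ i, (vv a K w s 0 i - uu a K w i) = δ :=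
      Finset.sum_eq_single (0 : Fin (m + 1)) (fun i _ hi => h3 i hi)
        (fun h => absurd (mem_univ _) h)
    have s3 : ∑ i, (vv a K w s 0 i - uu a K w i) ^ 2 = δ ^ 2 := by
      refine Finset.sum_eq_single (0 : Fin (m + 1)) (fun i _ hi => ?_)
        (fun h => absurd (mem_univ _) h)
      rw [h3 i hi]; simp
    rw [s1, s2, s3]
    have h7 := uu_nonneg (w := w) (K := K) ha 0
    have h8 : (c * UU a K w - uu a K w 0) * δ ≤ c * UU a K w * s := by
      have hc0 : 0 ≤ c := by linarith
      have : (c * UU a K w - uu a K w 0) * δ ≤ c * UU a K w * δ := by nlinarith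
      have h9 : c * UU a K w * δ ≤ c * UU a K w * s :=
        mul_le_mul_of_nonneg_left hδs (by positivity)
      linarith
    have h9 : δ ^ 2 ≤ s ^ 2 := pow_le_pow_left₀ h4.1 hδs 2
    nlinarith
  linarith

/-- The drift of the Lyapunov function. -/
theorem drift_pt {ES ET C2 κ : ℝ} (ha : 0 < a) (hc : 1 ≤ c) (hmon : Monotone w)
    (hw : ∀ i, 0 ≤ w i) (hES : 0 ≤ ES) (hET : 0 ≤ ET) (hC2 : 0 ≤ C2)
    (hκ1 : κ ≤ c * ((m + 1) * ET - ES) - ET) (hκ2 : κ ≤ ET * (c - 1))
    (hκ : c * C2 / (2 * a) ≤ κ) :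
    ES * ((c * UU a K w - uu a K w 0) * dphi a (w 0 - K))
      - ET * (∑ i, (c * UU a K w - uu a K w i) * dphi a (w i - K))
      + c * C2 / (2 * a) * UU a K w
      ≤ -(ES * max (w 0 - (K + a)) 0) + c * C2 * (m + 1) / 4 * (if K < tot w then 1 else 0) := by
  have hU := UU_nonneg (a := a) (K := K) (w := w) ha
  have hm : (0 : ℝ) ≤ m := Nat.cast_nonneg m
  have hc0 : 0 ≤ c := by linarith
  have hu : ∀ i, 0 ≤ uu a K w i := fun i => uu_nonneg ha i
  have huU : ∀ i, uu a K w i ≤ UU a K w := fun i => uu_le_UU ha i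
  set p0 := dphi a (w 0 - K) with hp0
  set pm := dphi a (w (Fin.last m) - K) with hpm
  have hp00 : 0 ≤ p0 := dphi_nonneg ha _
  have hp0m : p0 ≤ pm := dphi_mono ha (by linarith [hmon (Fin.le_last (0 : Fin (m + 1)))])
  -- lower bound of the sum
  have h1 : p0 * (c * (m + 1) * UU a K w - UU a K w) + (pm - p0) * ((c - 1) * UU a K w)
      ≤ ∑ i, (c * UU a K w - uu a K w i) * dphi a (w i - K) := by
    have h2 : ∑ i, (c * UU a K w - uu a K w i) * p0 = p0 * (c * (m + 1) * UU a K w - UU a K w) := by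
      rw [← Finset.sum_mul, Finset.sum_sub_distrib]
      simp only [sum_const, card_univ, Fintype.card_fin, nsmul_eq_mul, Nat.cast_add, Nat.cast_one]
      rw [show ∑ i, uu a K w i = UU a K w from rfl]
      ring
    have h3 : ∑ i, (c * UU a K w - uu a K w i) * dphi a (w i - K)
        = ∑ i, (c * UU a K w - uu a K w i) * p0
          + ∑ i, (c * UU a K w - uu a K w i) * (dphi a (w i - K) - p0) := by
      rw [← Finset.sum_add_distrib]
      exact Finset.sum_congr rfl fun i _ => by ring
    have h4 : (c * UU a K w - uu a K w (Fin.last m)) * (pm - p0)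
        ≤ ∑ i, (c * UU a K w - uu a K w i) * (dphi a (w i - K) - p0) := by
      refine Finset.single_le_sum (f := fun i => (c * UU a K w - uu a K w i)
        * (dphi a (w i - K) - p0)) (fun i _ => ?_) (mem_univ (Fin.last m))
      refine mul_nonneg (by nlinarith [hu i, huU i]) (sub_nonneg.2 (dphi_mono ha ?_))
      linarith [hmon (Fin.zero_le i)]
    have h5 : (pm - p0) * ((c - 1) * UU a K w) ≤ (c * UU a K w - uu a K w (Fin.last m)) * (pm - p0) := by
      have : (c - 1) * UU a K w ≤ c * UU a K w - uu a K w (Fin.last m) := by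
        linarith [huU (Fin.last m)]
      nlinarith [sub_nonneg.2 hp0m]
    rw [h3, h2]; linarith
  -- the smallest one
  have h2 : max (w 0 - (K + a)) 0 ≤ p0 * uu a K w 0 := by
    have := phi_mul_dphi ha (w 0 - K)
    rw [show w 0 - (K + a) = w 0 - K - a by ring]
    exact this
  have h3 : ES * ((c * UU a K w - uu a K w 0) * p0)
      - ET * (∑ i, (c * UU a K w - uu a K w i) * dphi a (w i - K))
      ≤ -(ES * max (w 0 - (K + a)) 0) - κ * pm * UU a K w := by
    have e1 : ES * ((c * UU a K w - uu a K w 0) * p0)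
        = ES * c * (UU a K w * p0) - ES * (p0 * uu a K w 0) := by ring
    have e2 := mul_le_mul_of_nonneg_left h1 hET
    have e3 := mul_le_mul_of_nonneg_left h2 hES
    have h4 : 0 ≤ UU a K w * p0 := mul_nonneg hU hp00
    have h5 : 0 ≤ UU a K w * (pm - p0) := mul_nonneg hU (sub_nonneg.2 hp0m)
    have h6 := mul_le_mul_of_nonneg_right hκ1 h4
    have h7 := mul_le_mul_of_nonneg_right hκ2 h5
    have e4 : ET * (p0 * (c * (m + 1) * UU a K w - UU a K w) + (pm - p0) * ((c - 1) * UU a K w))
        = (c * (m + 1) * ET - ET) * (UU a K w * p0) + (ET * (c - 1)) * (UU a K w * (pm - p0)) := by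
      ring
    have e5 : κ * pm * UU a K w = κ * (UU a K w * p0) + κ * (UU a K w * (pm - p0)) := by ring
    rw [e1, e5]
    rw [e4] at e2
    nlinarith
  -- the second order part
  have h4 : c * C2 / (2 * a) * UU a K w - κ * pm * UU a K w
      ≤ c * C2 * (m + 1) / 4 * (if K < tot w then 1 else 0) := by
    have hκ0 : 0 ≤ κ := le_trans (by positivity) hκ
    rcases le_total a (w (Fin.last m) - K) with h5 | h5
    · have h6 : pm = 1 := dphi_big ha h5
      rw [h6]
      have h7 : 0 ≤ c * C2 * (m + 1) / 4 * (if K < tot w then (1 : ℝ) else 0) := by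
        split_ifs <;> positivity
      nlinarith
    · split_ifs with hif
      · have h6 : UU a K w ≤ (m + 1) * (a / 2) := by
          have : ∀ i ∈ (univ : Finset (Fin (m + 1))), uu a K w i ≤ a / 2 := by
            intro i _
            have h7 : uu a K w i ≤ phi a a :=
              phi_mono ha (by linarith [hmon (Fin.le_last i)])
            rw [phi_big ha le_rfl] at h7
            linarith
          have h8 := Finset.sum_le_sum this
          simpa [UU] using h8
        have h7 : c * C2 / (2 * a) * UU a K w ≤ c * C2 / (2 * a) * ((m + 1) * (a / 2)) :=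
          mul_le_mul_of_nonneg_left h6 (by positivity)
        have h8 : c * C2 / (2 * a) * ((m + 1) * (a / 2)) = c * C2 * (m + 1) / 4 := by
          field_simp; ring
        have h9 : 0 ≤ κ * pm * UU a K w := by
          have : 0 ≤ pm := hp00.trans hp0m
          positivity
        linarith
      · have h6 : UU a K w = 0 := by
          refine Finset.sum_eq_zero fun i _ => phi_zero ha ?_
          linarith [le_tot hw i]
        rw [h6]; simp
  linarith

/-- The sum of the squares above a level. -/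
theorem sq_step_le (hK : 0 ≤ K) (hw : ∀ i, 0 ≤ w i) (hs : 0 ≤ s)
    (ht : 0 ≤ t) : ∑ i, (max (kwStep w s t i - K) 0) ^ 2 - ∑ i, (max (w i - K) 0) ^ 2
      ≤ 2 * (max (w 0 - K) 0 * s) - 2 * ((∑ i, max (w i - K) 0) * t)
        + (if K < tot w + s then (s + (m + 1) * t) ^ 2 else 0) := by
  have e : ∑ i, (max (kwStep w s t i - K) 0) ^ 2 = ∑ i, (max (after w s t i - K) 0) ^ 2 :=
    sum_kwStep w s t (fun x => (max (x - K) 0) ^ 2)
  rw [e]
  split_ifs with hif
  · have h1 : ∀ i ∈ (univ : Finset (Fin (m + 1))), (max (after w s t i - K) 0) ^ 2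
        ≤ (max (w i - K) 0) ^ 2 + ((if i = 0 then 2 * (max (w 0 - K) 0 * s) else 0)
          - 2 * (max (w i - K) 0 * t)) + ((if i = 0 then s ^ 2 else 0) + t ^ 2) := by
      intro i _
      rw [after_eq, max_max_sub hK]
      have h2 := qle (w i - K) ((if i = 0 then s else 0) - t)
      rw [show w i + (if i = 0 then s else 0) - t - K = w i - K + ((if i = 0 then s else 0) - t) by
        ring]
      refine h2.trans ?_
      by_cases hi : i = 0
      · subst hi; simp only [if_true]; nlinarith [mul_nonneg hs ht]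
      · simp only [hi, if_false]; nlinarith
    have h2 := Finset.sum_le_sum h1
    rw [Finset.sum_add_distrib, Finset.sum_add_distrib, Finset.sum_sub_distrib,
      ← Finset.mul_sum, ← Finset.sum_mul, Finset.sum_add_distrib] at h2
    simp only [Finset.sum_ite_eq', mem_univ, if_true, sum_const, card_univ, Fintype.card_fin,
      nsmul_eq_mul, Nat.cast_add, Nat.cast_one] at h2
    have h3 : s ^ 2 + (m + 1) * t ^ 2 ≤ (s + (m + 1) * t) ^ 2 := by
      have hm : (0 : ℝ) ≤ m := Nat.cast_nonneg m
      have h4 : 0 ≤ (m + 1) * (s * t) := by positivity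
      have h5 : 0 ≤ m * (m + 1) * t ^ 2 := by positivity
      nlinarith
    linarith
  · have h0 : ∀ i, w i ≤ K := fun i => by linarith [le_tot hw i]
    have h1 : ∀ i ∈ (univ : Finset (Fin (m + 1))), (max (after w s t i - K) 0) ^ 2 = 0 := by
      intro i _
      rw [after_eq, max_max_sub hK, max_eq_right]
      · simp
      · have := le_tot hw i
        split_ifs <;> linarith
    have h2 : ∀ i, max (w i - K) 0 = 0 := fun i => max_eq_right (by linarith [h0 i])
    rw [Finset.sum_eq_zero h1]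
    simp [h2]

theorem sq_step_abs (hK : 0 ≤ K) (hw : ∀ i, 0 ≤ w i) (hs : 0 ≤ s)
    (ht : 0 ≤ t) : |∑ i, (max (kwStep w s t i - K) 0) ^ 2 - ∑ i, (max (w i - K) 0) ^ 2|
      ≤ 2 * (m + 1) * ((s + t) * (tot w + s + t)) := by
  have e : ∑ i, (max (kwStep w s t i - K) 0) ^ 2 = ∑ i, (max (after w s t i - K) 0) ^ 2 :=
    sum_kwStep w s t (fun x => (max (x - K) 0) ^ 2)
  rw [e, ← Finset.sum_sub_distrib]
  refine (Finset.abs_sum_le_sum_abs _ _).trans ?_
  have h1 : ∀ i ∈ (univ : Finset (Fin (m + 1))),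
      |(max (after w s t i - K) 0) ^ 2 - (max (w i - K) 0) ^ 2|
        ≤ 2 * 1 * ((s + t) * (tot w + s + t)) := by
    intro i _
    refine incr_bound hK zero_le_one hs ht (hw i) (le_tot hw i) (after_nonneg _ _ _ _) ?_ ?_
    · rw [after_eq]
      refine max_le ?_ (by linarith [tot_nonneg hw])
      have := le_tot hw i
      split_ifs <;> linarith
    · rw [after_eq]
      have h2 := abs_max_sub_max (w i + (if i = 0 then s else 0) - t) (w i)
      rw [max_eq_left (hw i)] at h2
      refine h2.trans ?_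
      rw [abs_le]
      split_ifs <;> constructor <;> linarith
  refine (Finset.sum_le_sum h1).trans (le_of_eq ?_)
  simp
  ring

end

end Pool.Agent.K9h80.GQ
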