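import Pool.Agent.K9h80.GQ.Lim

/-!
# Main theorem: the limits of the differences of the mean workloads
-/

set_option autoImplicit false

open MeasureTheory Finset Filter Topology

namespace Pool.Agent.K9h80.GQ

variable {m : ℕ} {σ τ : Measure ℝ} {π0 : Measure (Vec m)} {β : ℝ}

theorem DD_bdd (hs : Sys m σ τ) (hβ : 0 < β) (hπ0 : IsStat σ τ π0) {P : ℝ → Measure (Vec m)}
    (hP : Fam m σ τ β P) (i : Fin (m + 1)) {ε : ℝ} (h0 : 0 < ε) (h1 : ε < 1 / β) :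
    |DD P π0 i ε| ≤ AP m σ τ β + ∫ w, tot w ∂π0 := by
  have hs' := sys_perturb hs hβ h0 h1
  have hπ := hP ε h0 h1
  have htot := tot_perturb hs hβ h0 h1 hπ
  have a1 : 0 ≤ ∫ w, w i ∂(P ε) := integral_nonneg_of_ae (hπ.2.1.mono fun w hw => hw.2 i)
  have a2 : 0 ≤ ∫ w, w i ∂π0 := integral_nonneg_of_ae (hπ0.2.1.mono fun w hw => hw.2 i)
  have a3 : ∫ w, w i ∂(P ε) ≤ ∫ w, tot w ∂(P ε) :=
    integral_mono_ae (igr_coord hs' hπ i) htot.1 (hπ.2.1.mono fun w hw => le_tot hw.2 i)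
  have a4 : ∫ w, w i ∂π0 ≤ ∫ w, tot w ∂π0 :=
    integral_mono_ae (igr_coord hs hπ0 i) (igr_tot hs hπ0) (hπ0.2.1.mono fun w hw => le_tot hw.2 i)
  have a5 := AP_nonneg (β := β) hs
  rw [DD, abs_le]
  constructor <;> linarith [htot.2]

/-- Every ultrafilter yields limit points. -/
theorem exists_lim (hs : Sys m σ τ) (hβ : 0 < β) (hπ0 : IsStat σ τ π0) {P : ℝ → Measure (Vec m)}
    (hP : Fam m σ τ β P) (F : Ultrafilter ℝ) (hF : (F : Filter ℝ) ≤ 𝓝[>] 0) :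
    ∃ x : Fin (m + 1) → ℝ, ∀ i, Tendsto (DD P π0 i) F (𝓝 (x i)) := by
  have h : ∀ i, ∃ y, Tendsto (DD P π0 i) F (𝓝 y) := by
    intro i
    set C := AP m σ τ β + ∫ w, tot w ∂π0
    have h1 : ∀ᶠ ε in (F : Filter ℝ), DD P π0 i ε ∈ Set.Icc (-C) C := by
      filter_upwards [hF (ev_ioo hβ)] with ε hε
      exact abs_le.1 (DD_bdd hs hβ hπ0 hP i hε.1 hε.2)
    obtain ⟨y, _, hy⟩ := isCompact_Icc.ultrafilter_le_nhds' (F.map (DD P π0 i)) h1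
    exact ⟨y, hy⟩
  exact ⟨fun i => (h i).choose, fun i => (h i).choose_spec⟩

/-- Light traffic. -/
theorem main_low (hs : Sys m σ τ) (hES : 0 < ∫ s, s ∂σ) (hβ : 0 < β) (hπ0 : IsStat σ τ π0)
    {P : ℝ → Measure (Vec m)} (hP : Fam m σ τ β P) (hlow : ∫ s, s ∂σ ≤ m * ∫ t, t ∂τ) :
    (∀ i, i ≠ Fin.last m → Tendsto (DD P π0 i) (𝓝[>] 0) (𝓝 0)) ∧
    Tendsto (DD P π0 (Fin.last m)) (𝓝[>] 0)
      (𝓝 (β ^ 2 * (∫ s, s ^ 2 ∂σ) / (2 * ∫ t, t ∂τ))) := by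
  have hET := mean_t_pos hs
  have hX2 : 0 ≤ ∫ s, s ^ 2 ∂σ := integral_nonneg fun s => sq_nonneg s
  have key : ∀ F : Ultrafilter ℝ, (F : Filter ℝ) ≤ 𝓝[>] 0 →
      (∀ i, i ≠ Fin.last m → Tendsto (DD P π0 i) F (𝓝 0)) ∧
      Tendsto (DD P π0 (Fin.last m)) F (𝓝 (β ^ 2 * (∫ s, s ^ 2 ∂σ) / (2 * ∫ t, t ∂τ))) := by
    intro F hF
    obtain ⟨x, hx⟩ := exists_lim hs hβ hπ0 hP F hF
    have e : 2 * (β ^ 2 * (∫ s, s ^ 2 ∂σ) / 2) = β ^ 2 * ∫ s, s ^ 2 ∂σ := by ring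
    obtain ⟨h1, h2⟩ := alg_low (c1 := β ^ 2 * (∫ s, s ^ 2 ∂σ) / 2) hES hET (by positivity) hlow
      (lim_zero hs hβ hπ0 hP hF hx) (lim_le hs hβ hπ0 hP hF hx)
      (by rw [e]; exact lim_B hs hβ hπ0 hP hF hx)
      (by intro c hc hc2; rw [e]; exact lim_F hs hβ hπ0 hP hF hx hc hc2)
      (by rw [e]; exact lim_CD hs hβ hπ0 hP hF hx)
    refine ⟨fun i hi => ?_, ?_⟩
    · have := hx i
      rwa [h1 i hi] at this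
    · have := hx (Fin.last m)
      rw [h2, div_div] at this
      exact this
  refine ⟨fun i hi => ?_, ?_⟩
  · rw [tendsto_iff_ultrafilter]; exact fun F hF => (key F hF).1 i hi
  · rw [tendsto_iff_ultrafilter]; exact fun F hF => (key F hF).2

/-- Heavy traffic. -/
theorem main_high (hs : Sys m σ τ) (hβ : 0 < β) (hπ0 : IsStat σ τ π0)
    {P : ℝ → Measure (Vec m)} (hP : Fam m σ τ β P) (hhigh : m * ∫ t, t ∂τ < ∫ s, s ∂σ) :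
    (∀ i, i ≠ Fin.last m → Tendsto (DD P π0 i) (𝓝[>] 0)
      (𝓝 (β ^ 2 * (∫ s, s ^ 2 ∂σ) / 2 * (∫ s, s ∂σ - m * ∫ t, t ∂τ)
        / (((m + 1) * ∫ t, t ∂τ - ∫ s, s ∂σ) * ∫ s, s ∂σ)))) ∧
    Tendsto (DD P π0 (Fin.last m)) (𝓝[>] 0)
      (𝓝 (β ^ 2 * (∫ s, s ^ 2 ∂σ) / 2 / ((m + 1) * ∫ t, t ∂τ - ∫ s, s ∂σ)
        - m * (β ^ 2 * (∫ s, s ^ 2 ∂σ) / 2 * (∫ s, s ∂σ - m * ∫ t, t ∂τ)
        / (((m + 1) * ∫ t, t ∂τ - ∫ s, s ∂σ) * ∫ s, s ∂σ)))) := by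
  have hET := mean_t_pos hs
  have hX2 : 0 ≤ ∫ s, s ^ 2 ∂σ := integral_nonneg fun s => sq_nonneg s
  have hES : 0 < ∫ s, s ∂σ := lt_of_le_of_lt (by positivity) hhigh
  have key : ∀ F : Ultrafilter ℝ, (F : Filter ℝ) ≤ 𝓝[>] 0 →
      (∀ i, i ≠ Fin.last m → Tendsto (DD P π0 i) F
      (𝓝 (β ^ 2 * (∫ s, s ^ 2 ∂σ) / 2 * (∫ s, s ∂σ - m * ∫ t, t ∂τ)
        / (((m + 1) * ∫ t, t ∂τ - ∫ s, s ∂σ) * ∫ s, s ∂σ)))) ∧
      Tendsto (DD P π0 (Fin.last m)) F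
      (𝓝 (β ^ 2 * (∫ s, s ^ 2 ∂σ) / 2 / ((m + 1) * ∫ t, t ∂τ - ∫ s, s ∂σ)
        - m * (β ^ 2 * (∫ s, s ^ 2 ∂σ) / 2 * (∫ s, s ∂σ - m * ∫ t, t ∂τ)
        / (((m + 1) * ∫ t, t ∂τ - ∫ s, s ∂σ) * ∫ s, s ∂σ)))) := by
    intro F hF
    obtain ⟨x, hx⟩ := exists_lim hs hβ hπ0 hP F hF
    have e : 2 * (β ^ 2 * (∫ s, s ^ 2 ∂σ) / 2) = β ^ 2 * ∫ s, s ^ 2 ∂σ := by ring
    obtain ⟨h1, h2⟩ := alg_high (c1 := β ^ 2 * (∫ s, s ^ 2 ∂σ) / 2) hES hET hs.stab hhigh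
      (lim_le hs hβ hπ0 hP hF hx)
      (by rw [e]; exact lim_B hs hβ hπ0 hP hF hx)
      (by rw [e]; exact lim_E hs hβ hπ0 hP hF hx)
      (by intro c hc hc2; rw [e]; exact lim_F hs hβ hπ0 hP hF hx hc hc2)
      (by rw [e]; exact lim_CD hs hβ hπ0 hP hF hx)
    refine ⟨fun i hi => ?_, ?_⟩
    · have := hx i
      rwa [h1 i hi] at this
    · have := hx (Fin.last m)
      rwa [h2] at this
  refine ⟨fun i hi => ?_, ?_⟩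
  · rw [tendsto_iff_ultrafilter]; exact fun F hF => (key F hF).1 i hi
  · rw [tendsto_iff_ultrafilter]; exact fun F hF => (key F hF).2

end Pool.Agent.K9h80.GQ
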