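import Pool.Agent.K9h80.GQ.Ineq

/-!
# The deterministic queue forgets its initial state
-/

set_option autoImplicit false

open MeasureTheory Finset Filter Topology

namespace Pool.Agent.K9h80.GQ

/-- The times at which the servers become free, in the order of the customers they serve next. -/
noncomputable def clk (m : ℕ) (c s0 t0 : ℝ) (n : ℕ) : ℝ :=
  if _h : n < m + 1 then c
  else max (clk m c s0 t0 (n - (m + 1))) (((n - (m + 1) : ℕ) : ℝ) * t0) + s0
termination_by n
decreasing_by omega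

variable {m : ℕ} {c s0 t0 : ℝ}

theorem clk_lt {n : ℕ} (h : n < m + 1) : clk m c s0 t0 n = c := by
  rw [clk]; simp [h]

theorem clk_add (n : ℕ) :
    clk m c s0 t0 (n + (m + 1)) = max (clk m c s0 t0 n) (n * t0) + s0 := by
  rw [clk]
  have h : ¬ n + (m + 1) < m + 1 := by omega
  simp only [h, dite_false, Nat.add_sub_cancel]

theorem clk_succ_le (hs : 0 ≤ s0) (ht : 0 ≤ t0) (n : ℕ) :
    clk m c s0 t0 n ≤ clk m c s0 t0 (n + 1) := by
  induction n using Nat.strong_induction_on with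
  | _ n ih =>
    rcases lt_trichotomy (n + 1) (m + 1) with h | h | h
    · rw [clk_lt h, clk_lt (by omega)]
    · rw [clk_lt (by omega : n < m + 1), h]
      have := clk_add (m := m) (c := c) (s0 := s0) (t0 := t0) 0
      rw [zero_add] at this
      rw [this, clk_lt (by omega : 0 < m + 1)]
      linarith [le_max_left c ((0 : ℕ) * t0)]
    · obtain ⟨k, rfl⟩ : ∃ k, n = k + (m + 1) := ⟨n - (m + 1), by omega⟩
      have e : k + (m + 1) + 1 = (k + 1) + (m + 1) := by ring
      rw [e, clk_add, clk_add]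
      have h1 := ih k (by omega)
      have h2 : (k : ℝ) * t0 ≤ ((k + 1 : ℕ) : ℝ) * t0 := by
        push_cast; nlinarith
      linarith [max_le_max h1 h2]

theorem clk_mono (hs : 0 ≤ s0) (ht : 0 ≤ t0) : Monotone (clk m c s0 t0) :=
  monotone_nat_of_le_succ (clk_succ_le hs ht)

/-- The deterministic step. -/
noncomputable def dstep (m : ℕ) (s0 t0 : ℝ) (w : Fin (m + 1) → ℝ) : Fin (m + 1) → ℝ :=
  kwStep w s0 t0

theorem dstep_state (hs : 0 ≤ s0) (ht : 0 ≤ t0) (n : ℕ) :
    dstep m s0 t0 (fun i => max (clk m c s0 t0 (n + i) - n * t0) 0)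
      = fun i : Fin (m + 1) => max (clk m c s0 t0 (n + 1 + i) - ((n + 1 : ℕ) : ℝ) * t0) 0 := by
  unfold dstep kwStep
  refine sorted_eq (finRotate (m + 1)) ?_ ?_
  · funext i
    simp only [Function.comp]
    by_cases hi : i = Fin.last m
    · subst hi
      rw [finRotate_last, after_zero]
      have e : n + 1 + ((Fin.last m : Fin (m + 1)) : ℕ) = n + (m + 1) := by
        rw [Fin.val_last]; ring
      rw [e, clk_add]
      congr 1
      simp only [Fin.val_zero, add_zero]
      push_cast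
      rcases le_total (clk m c s0 t0 n) (n * t0) with h | h
      · rw [max_eq_right h, max_eq_right (by linarith)]; ring
      · rw [max_eq_left h, max_eq_left (by linarith)]; ring
    · have h1 : ((finRotate (m + 1) i : Fin (m + 1)) : ℕ) = i + 1 := coe_finRotate_of_ne_last hi
      have h2 : finRotate (m + 1) i ≠ 0 := by
        intro h
        rw [h] at h1
        simp at h1
      rw [after_ne h2, max_max_sub ht, h1]
      congr 1
      have e : n + 1 + (i : ℕ) = n + (i + 1) := by ring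
      rw [e]
      push_cast
      ring
  · intro i j hij
    refine max_le_max ?_ le_rfl
    have := clk_mono (m := m) (c := c) hs ht (show n + 1 + (i : ℕ) ≤ n + 1 + (j : ℕ) by
      have : (i : ℕ) ≤ j := hij
      omega)
    linarith

theorem dstep_iter (hc : 0 ≤ c) (hs : 0 ≤ s0) (ht : 0 ≤ t0) (n : ℕ) :
    (dstep m s0 t0)^[n] (fun _ => c)
      = fun i : Fin (m + 1) => max (clk m c s0 t0 (n + i) - n * t0) 0 := by
  induction n with
  | zero =>
    funext i
    simp only [Function.iterate_zero, id, Nat.cast_zero, zero_mul, sub_zero, zero_add]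
    rw [clk_lt i.2, max_eq_left hc]
  | succ n ih =>
    rw [Function.iterate_succ_apply', ih, dstep_state hs ht]

theorem late_add (n : ℕ) :
    clk m c s0 t0 (n + (m + 1)) - ((n + (m + 1) : ℕ) : ℝ) * t0
      = max (clk m c s0 t0 n - n * t0) 0 - ((m + 1) * t0 - s0) := by
  rw [clk_add]
  push_cast
  rcases le_total (clk m c s0 t0 n) (n * t0) with h | h
  · rw [max_eq_right h, max_eq_right (by linarith)]; ring
  · rw [max_eq_left h, max_eq_left (by linarith)]; ring

theorem late_le {R : ℝ} (hR : 0 ≤ R) (hcR : c ≤ R) (ht : 0 ≤ t0)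
    (hst : s0 < (m + 1) * t0) (j : ℕ) : ∀ n : ℕ, j * (m + 1) ≤ n →
      max (clk m c s0 t0 n - n * t0) 0 ≤ max (R - j * ((m + 1) * t0 - s0)) 0 := by
  induction j with
  | zero =>
    intro n _
    rw [Nat.cast_zero, zero_mul, sub_zero, max_eq_left hR]
    refine max_le ?_ hR
    induction n using Nat.strong_induction_on with
    | _ n ih =>
      rcases lt_or_ge n (m + 1) with h | h
      · rw [clk_lt h]
        have : 0 ≤ (n : ℝ) * t0 := by positivity
        linarith
      · obtain ⟨k, rfl⟩ : ∃ k, n = k + (m + 1) := ⟨n - (m + 1), by omega⟩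
        rw [late_add]
        have h1 := ih k (by omega) (by omega)
        have h2 := max_le h1 hR
        linarith
  | succ j ih =>
    intro n hn
    have h0 : m + 1 ≤ n := le_trans (by nlinarith) hn
    obtain ⟨k, rfl⟩ : ∃ k, n = k + (m + 1) := ⟨n - (m + 1), by omega⟩
    rw [late_add]
    have h1 := ih k (by nlinarith)
    refine max_le ?_ (le_max_right _ _)
    push_cast
    rcases le_total (R - j * ((m + 1) * t0 - s0)) 0 with h | h
    · rw [max_eq_right h] at h1
      exact le_trans (by linarith) (le_max_right _ _)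
    · rw [max_eq_left h] at h1
      exact le_trans (by linarith) (le_max_left _ _)

theorem exists_clk {R : ℝ} (hR : 0 ≤ R) (ht : 0 ≤ t0) (hst : s0 < (m + 1) * t0) :
    ∃ N : ℕ, ∀ c, c ≤ R → ∀ n, N ≤ n →
      clk m c s0 t0 n = n * t0 - ((m + 1) * t0 - s0) := by
  obtain ⟨j, hj⟩ := Archimedean.arch R (sub_pos.2 hst)
  refine ⟨(j + 1) * (m + 1), fun c hcR n hn => ?_⟩
  have h0 : m + 1 ≤ n := le_trans (by nlinarith) hn
  obtain ⟨k, rfl⟩ : ∃ k, n = k + (m + 1) := ⟨n - (m + 1), by omega⟩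
  have h1 := late_le hR hcR ht hst j k (by nlinarith)
  rw [nsmul_eq_mul] at hj
  rw [max_eq_right (by linarith : R - j * ((m + 1) * t0 - s0) ≤ 0)] at h1
  have h2 : max (clk m c s0 t0 k - k * t0) 0 = 0 := le_antisymm h1 (le_max_right _ _)
  have h3 := late_add (m := m) (c := c) (s0 := s0) (t0 := t0) k
  rw [h2] at h3
  linarith

theorem dstep_iter_mono {v w : Fin (m + 1) → ℝ} (h : ∀ i, v i ≤ w i) (n : ℕ) :
    ∀ i, (dstep m s0 t0)^[n] v i ≤ (dstep m s0 t0)^[n] w i := by
  induction n with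
  | zero => exact h
  | succ n ih =>
    intro i
    rw [Function.iterate_succ_apply', Function.iterate_succ_apply']
    exact kwStep_le_kwStep ih s0 t0 i

/-- The deterministic queue forgets every initial state in a bounded set after a fixed time. -/
theorem exists_merge {R : ℝ} (hR : 0 ≤ R) (hs : 0 ≤ s0) (ht : 0 ≤ t0)
    (hst : s0 < (m + 1) * t0) :
    ∃ M : ℕ, ∀ x y : Fin (m + 1) → ℝ, (∀ i, 0 ≤ x i ∧ x i ≤ R) → (∀ i, 0 ≤ y i ∧ y i ≤ R) →
      (dstep m s0 t0)^[M] x = (dstep m s0 t0)^[M] y := by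
  obtain ⟨N, hN⟩ := exists_clk (m := m) hR ht hst
  have h0 : (dstep m s0 t0)^[N] (fun _ => R) = (dstep m s0 t0)^[N] (fun _ => 0) := by
    rw [dstep_iter hR hs ht, dstep_iter le_rfl hs ht]
    funext i
    rw [hN R le_rfl _ (by omega), hN 0 hR _ (by omega)]
  have h1 : ∀ x : Fin (m + 1) → ℝ, (∀ i, 0 ≤ x i ∧ x i ≤ R) →
      (dstep m s0 t0)^[N] x = (dstep m s0 t0)^[N] (fun _ => 0) := by
    intro x hx
    funext i
    refine le_antisymm ?_ (dstep_iter_mono (fun i => (hx i).1) N i)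
    rw [← h0]
    exact dstep_iter_mono (fun i => (hx i).2) N i
  exact ⟨N, fun x y hx hy => (h1 x hx).trans (h1 y hy).symm⟩

/-- A point below the mean all of whose neighbourhoods are charged. -/
theorem exists_below {μ : Measure ℝ} [IsProbabilityMeasure μ] (h0 : ∀ᵐ s ∂μ, 0 ≤ s)
    (hi : Integrable (fun s : ℝ => s) μ) :
    ∃ x, 0 ≤ x ∧ x ≤ ∫ s, s ∂μ ∧ ∀ ρ > 0, 0 < μ.real {s | |s - x| ≤ ρ} := by
  have h1 : μ {s | s ≤ ∫ s, s ∂μ} ≠ 0 := (measure_le_integral_pos hi).ne'
  have h2 : μ {s | s ≤ ∫ s, s ∂μ} = μ ({s | s ≤ ∫ s, s ∂μ} ∩ {s | 0 ≤ s}) :=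
    (measure_inter_conull h0).symm
  rw [h2] at h1
  obtain ⟨x, hx, hp⟩ := exists_mem_forall_mem_nhdsWithin_pos_measure h1
  refine ⟨x, hx.2, hx.1, fun ρ hρ => ?_⟩
  have h3 : {s : ℝ | |s - x| ≤ ρ} ∈ 𝓝[({s | s ≤ ∫ s, s ∂μ} ∩ {s | 0 ≤ s})] x := by
    refine mem_nhdsWithin_of_mem_nhds ?_
    filter_upwards [Metric.ball_mem_nhds x hρ] with s hs
    rw [Metric.mem_ball, Real.dist_eq] at hs
    exact hs.le
  have h4 := hp _ h3
  exact ENNReal.toReal_pos h4.ne' (measure_ne_top _ _)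

theorem exists_above {μ : Measure ℝ} [IsProbabilityMeasure μ]
    (hi : Integrable (fun s : ℝ => s) μ) :
    ∃ x, ∫ s, s ∂μ ≤ x ∧ ∀ ρ > 0, 0 < μ.real {s | |s - x| ≤ ρ} := by
  have h1 : μ {s | ∫ s, s ∂μ ≤ s} ≠ 0 := (measure_integral_le_pos hi).ne'
  obtain ⟨x, hx, hp⟩ := exists_mem_forall_mem_nhdsWithin_pos_measure h1
  refine ⟨x, hx, fun ρ hρ => ?_⟩
  have h3 : {s : ℝ | |s - x| ≤ ρ} ∈ 𝓝[{s | ∫ s, s ∂μ ≤ s}] x := by
    refine mem_nhdsWithin_of_mem_nhds ?_
    filter_upwards [Metric.ball_mem_nhds x hρ] with s hs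
    rw [Metric.mem_ball, Real.dist_eq] at hs
    exact hs.le
  have h4 := hp _ h3
  exact ENNReal.toReal_pos h4.ne' (measure_ne_top _ _)

end Pool.Agent.K9h80.GQ
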