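import Pool.Agent.K9h80.GQ.Lyap
import Pool.Agent.K9h80.GQ.Comp

/-!
# The perturbed service law
-/

set_option autoImplicit false

open MeasureTheory Finset Filter Topology

namespace Pool.Agent.K9h80.GQ

variable {m : ℕ} {σ τ : Measure ℝ} {π : Measure (Vec m)} {β ε : ℝ}

theorem w1_pos (ε : ℝ) : 0 < 1 / (1 + ε ^ 2) := by positivity

theorem w2_pos {ε : ℝ} (h : 0 < ε) : 0 < ε ^ 2 / (1 + ε ^ 2) := by positivity

theorem mul_lt {β ε : ℝ} (hβ : 0 < β) (h1 : ε < 1 / β) : β * ε < 1 := by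
  rw [lt_div_iff₀ hβ] at h1; linarith

theorem prob_perturb (hσ : IsProbabilityMeasure σ) : IsProbabilityMeasure (perturb σ β ε) := by
  constructor
  have h1 : IsProbabilityMeasure (Measure.map (fun s : ℝ => s * (1 - β * ε)) σ) :=
    Measure.isProbabilityMeasure_map (by fun_prop)
  have h2 : IsProbabilityMeasure (Measure.map (fun s : ℝ => s * (1 + β / ε)) σ) :=
    Measure.isProbabilityMeasure_map (by fun_prop)
  rw [perturb, Measure.add_apply, Measure.smul_apply, Measure.smul_apply, measure_univ,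
    measure_univ, smul_eq_mul, smul_eq_mul, mul_one, mul_one, ← ENNReal.ofReal_add (by positivity)
      (by positivity), ← add_div, div_self (by positivity), ENNReal.ofReal_one]

theorem nonneg_perturb (hβ : 0 < β) (h0 : 0 < ε) (h1 : ε < 1 / β) (hσ : ∀ᵐ s ∂σ, 0 ≤ s) :
    ∀ᵐ s ∂(perturb σ β ε), 0 ≤ s := by
  have hlt := mul_lt hβ h1
  have hset : MeasurableSet {s : ℝ | 0 ≤ s} := measurableSet_Ici
  rw [perturb, ae_add_measure_iff]
  constructor
  · refine Measure.ae_smul_measure ?_ _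
    rw [ae_map_iff (by fun_prop) hset]
    filter_upwards [hσ] with s hs
    exact mul_nonneg hs (by linarith)
  · refine Measure.ae_smul_measure ?_ _
    rw [ae_map_iff (by fun_prop) hset]
    filter_upwards [hσ] with s hs
    exact mul_nonneg hs (by positivity)

theorem igr_perturb {f : ℝ → ℝ} (hf : Measurable f)
    (h1 : Integrable (fun s => f (s * (1 - β * ε))) σ)
    (h2 : Integrable (fun s => f (s * (1 + β / ε))) σ) :
    Integrable f (perturb σ β ε) ∧ ∫ s, f s ∂(perturb σ β ε)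
      = 1 / (1 + ε ^ 2) * ∫ s, f (s * (1 - β * ε)) ∂σ
        + ε ^ 2 / (1 + ε ^ 2) * ∫ s, f (s * (1 + β / ε)) ∂σ := by
  have m1 : Measurable fun s : ℝ => s * (1 - β * ε) := by fun_prop
  have m2 : Measurable fun s : ℝ => s * (1 + β / ε) := by fun_prop
  have i1 : Integrable f (Measure.map (fun s : ℝ => s * (1 - β * ε)) σ) :=
    (integrable_map_measure hf.aestronglyMeasurable m1.aemeasurable).2 h1
  have i2 : Integrable f (Measure.map (fun s : ℝ => s * (1 + β / ε)) σ) :=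
    (integrable_map_measure hf.aestronglyMeasurable m2.aemeasurable).2 h2
  have j1 := i1.smul_measure (ENNReal.ofReal_ne_top (r := 1 / (1 + ε ^ 2)))
  have j2 := i2.smul_measure (ENNReal.ofReal_ne_top (r := ε ^ 2 / (1 + ε ^ 2)))
  refine ⟨j1.add_measure j2, ?_⟩
  rw [perturb, integral_add_measure j1 j2, integral_smul_measure, integral_smul_measure,
    integral_map m1.aemeasurable hf.aestronglyMeasurable,
    integral_map m2.aemeasurable hf.aestronglyMeasurable,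
    ENNReal.toReal_ofReal (by positivity), ENNReal.toReal_ofReal (by positivity)]
  rfl

theorem mean_perturb (h0 : ε ≠ 0) (hi : Integrable (fun s : ℝ => s) σ) :
    ∫ s, s ∂(perturb σ β ε) = ∫ s, s ∂σ := by
  rw [(igr_perturb (f := fun s => s) measurable_id (hi.mul_const _) (hi.mul_const _)).2,
    integral_mul_const, integral_mul_const]
  field_simp
  ring

theorem sq_perturb (h0 : ε ≠ 0) (hi : Integrable (fun s : ℝ => s ^ 2) σ) :
    Integrable (fun s : ℝ => s ^ 2) (perturb σ β ε) ∧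
    ∫ s, s ^ 2 ∂(perturb σ β ε) = (1 + β ^ 2) * ∫ s, s ^ 2 ∂σ := by
  have e1 : (fun s : ℝ => (s * (1 - β * ε)) ^ 2) = fun s => s ^ 2 * (1 - β * ε) ^ 2 := by
    funext s; ring
  have e2 : (fun s : ℝ => (s * (1 + β / ε)) ^ 2) = fun s => s ^ 2 * (1 + β / ε) ^ 2 := by
    funext s; ring
  obtain ⟨h1, h2⟩ := igr_perturb (σ := σ) (β := β) (ε := ε) (f := fun s => s ^ 2)
    (by fun_prop) (by rw [e1]; exact hi.mul_const _) (by rw [e2]; exact hi.mul_const _)
  refine ⟨h1, ?_⟩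
  rw [h2, e1, e2, integral_mul_const, integral_mul_const]
  field_simp
  ring

theorem sys_perturb (hs : Sys m σ τ) (hβ : 0 < β) (h0 : 0 < ε) (h1 : ε < 1 / β) :
    Sys m (perturb σ β ε) τ where
  pσ := prob_perturb hs.pσ
  pτ := hs.pτ
  s0 := nonneg_perturb hβ h0 h1 hs.s0
  t0 := hs.t0
  s2 := (sq_perturb h0.ne' hs.s2).1
  t2 := hs.t2
  stab := by rw [mean_perturb h0.ne' (igr_s hs)]; exact hs.stab

/-- The common a priori bound. -/
noncomputable def AP (m : ℕ) (σ τ : Measure ℝ) (β : ℝ) : ℝ :=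
  (m + 1) * ((1 + β ^ 2) * ∫ s, s ^ 2 ∂σ + (m + 1) * ∫ t, t ^ 2 ∂τ)
    / (2 * ((m + 1) * ∫ t, t ∂τ - ∫ s, s ∂σ))

theorem tot_perturb (hs : Sys m σ τ) (hβ : 0 < β) (h0 : 0 < ε) (h1 : ε < 1 / β)
    (hπ : IsStat (perturb σ β ε) τ π) : Integrable tot π ∧ ∫ w, tot w ∂π ≤ AP m σ τ β := by
  obtain ⟨h2, h3⟩ := apriori (sys_perturb hs hβ h0 h1) hπ
  refine ⟨h2, h3.trans (le_of_eq ?_)⟩
  rw [apr, AP, mean_perturb h0.ne' (igr_s hs), (sq_perturb h0.ne' hs.s2).2]

theorem AP_nonneg (hs : Sys m σ τ) : 0 ≤ AP m σ τ β := by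
  have h1 := hs.stab
  have h2 : 0 ≤ ∫ s, s ^ 2 ∂σ := integral_nonneg fun s => sq_nonneg s
  have h3 : 0 ≤ ∫ s, s ^ 2 ∂τ := integral_nonneg fun s => sq_nonneg s
  have h4 : 0 < ((m : ℝ) + 1) * ∫ t, t ∂τ - ∫ s, s ∂σ := by linarith
  unfold AP; positivity

/-- Integrals for the perturbed law. -/
theorem mix (hσ : IsProbabilityMeasure σ) (hτ : IsProbabilityMeasure τ)
    (hπ : IsProbabilityMeasure π) (h0 : 0 < ε) {F : Vec m × (ℝ × ℝ) → ℝ} (hF : Measurable F)
    (hi : Integrable F (jl (perturb σ β ε) τ π)) :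
    Integrable (fun p : Vec m × (ℝ × ℝ) => F (p.1, (p.2.1 * (1 - β * ε), p.2.2))) (jl σ τ π) ∧
    Integrable (fun p : Vec m × (ℝ × ℝ) => F (p.1, (p.2.1 * (1 + β / ε), p.2.2))) (jl σ τ π) ∧
    ∫ p, F p ∂(jl (perturb σ β ε) τ π)
      = 1 / (1 + ε ^ 2) * ∫ p, F (p.1, (p.2.1 * (1 - β * ε), p.2.2)) ∂(jl σ τ π)
        + ε ^ 2 / (1 + ε ^ 2) * ∫ p, F (p.1, (p.2.1 * (1 + β / ε), p.2.2)) ∂(jl σ τ π) := by
  have m1 : Measurable fun s : ℝ => s * (1 - β * ε) := by fun_prop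
  have m2 : Measurable fun s : ℝ => s * (1 + β / ε) := by fun_prop
  have hp1 : IsProbabilityMeasure (Measure.map (fun s : ℝ => s * (1 - β * ε)) σ) :=
    Measure.isProbabilityMeasure_map m1.aemeasurable
  have hp2 : IsProbabilityMeasure (Measure.map (fun s : ℝ => s * (1 + β / ε)) σ) :=
    Measure.isProbabilityMeasure_map m2.aemeasurable
  have M1 : Measurable (Prod.map id (Prod.map (fun s : ℝ => s * (1 - β * ε)) id) :
    Vec m × (ℝ × ℝ) → Vec m × (ℝ × ℝ)) := measurable_id.prodMap (m1.prodMap measurable_id)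
  have M2 : Measurable (Prod.map id (Prod.map (fun s : ℝ => s * (1 + β / ε)) id) :
    Vec m × (ℝ × ℝ) → Vec m × (ℝ × ℝ)) := measurable_id.prodMap (m2.prodMap measurable_id)
  have e : jl (perturb σ β ε) τ π
      = ENNReal.ofReal (1 / (1 + ε ^ 2)) •
          Measure.map (Prod.map id (Prod.map (fun s : ℝ => s * (1 - β * ε)) id)) (jl σ τ π)
        + ENNReal.ofReal (ε ^ 2 / (1 + ε ^ 2)) •
          Measure.map (Prod.map id (Prod.map (fun s : ℝ => s * (1 + β / ε)) id)) (jl σ τ π) := by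
    rw [jl, jl, ← Measure.map_prod_map _ _ measurable_id (m1.prodMap measurable_id),
      ← Measure.map_prod_map _ _ measurable_id (m2.prodMap measurable_id),
      ← Measure.map_prod_map _ _ m1 measurable_id,
      ← Measure.map_prod_map _ _ m2 measurable_id, Measure.map_id, Measure.map_id, perturb,
      Measure.add_prod, Measure.prod_smul_left, Measure.prod_smul_left, Measure.prod_add,
      Measure.prod_smul_right, Measure.prod_smul_right]
  rw [e] at hi ⊢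
  rw [integrable_add_measure, integrable_smul_measure (ENNReal.ofReal_pos.2 (w1_pos ε)).ne'
    ENNReal.ofReal_ne_top, integrable_smul_measure (ENNReal.ofReal_pos.2 (w2_pos h0)).ne'
    ENNReal.ofReal_ne_top] at hi
  obtain ⟨i1, i2⟩ := hi
  refine ⟨(integrable_map_measure hF.aestronglyMeasurable M1.aemeasurable).1 i1,
    (integrable_map_measure hF.aestronglyMeasurable M2.aemeasurable).1 i2, ?_⟩
  have j1 := i1.smul_measure (ENNReal.ofReal_ne_top (r := 1 / (1 + ε ^ 2)))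
  have j2 := i2.smul_measure (ENNReal.ofReal_ne_top (r := ε ^ 2 / (1 + ε ^ 2)))
  rw [integral_add_measure j1 j2, integral_smul_measure, integral_smul_measure,
    integral_map M1.aemeasurable hF.aestronglyMeasurable,
    integral_map M2.aemeasurable hF.aestronglyMeasurable,
    ENNReal.toReal_ofReal (by positivity), ENNReal.toReal_ofReal (by positivity)]
  rfl

/-- Linear combinations of the basic functions of the drivers. -/
theorem lin (hs : Sys m σ τ) (hπ : IsProbabilityMeasure π) (ht : Integrable tot π)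
    (c1 c2 c3 c4 c5 : ℝ) :
    Integrable (fun p : Vec m × (ℝ × ℝ) => c1 * p.2.1 ^ 2 + c2 * (p.2.1 * p.2.2)
      + c3 * p.2.2 ^ 2 + c4 * p.2.1 + c5 * (tot p.1 * p.2.1)) (jl σ τ π) ∧
    ∫ p, (c1 * p.2.1 ^ 2 + c2 * (p.2.1 * p.2.2)
      + c3 * p.2.2 ^ 2 + c4 * p.2.1 + c5 * (tot p.1 * p.2.1)) ∂(jl σ τ π)
      = c1 * ∫ s, s ^ 2 ∂σ + c2 * ((∫ s, s ∂σ) * ∫ t, t ∂τ) + c3 * ∫ t, t ^ 2 ∂τ
        + c4 * ∫ s, s ∂σ + c5 * ((∫ w, tot w ∂π) * ∫ s, s ∂σ) := by
  have := hs.pσ; have := hs.pτ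
  have k1 : Integrable (fun p : Vec m × (ℝ × ℝ) => p.2.1 ^ 2) (jl σ τ π) :=
    (igr_zs hs hs.s2).comp_snd π
  have k2 : Integrable (fun p : Vec m × (ℝ × ℝ) => p.2.1 * p.2.2) (jl σ τ π) :=
    (igr_zst hs).comp_snd π
  have k3 : Integrable (fun p : Vec m × (ℝ × ℝ) => p.2.2 ^ 2) (jl σ τ π) :=
    (igr_zt hs hs.t2).comp_snd π
  have k4 : Integrable (fun p : Vec m × (ℝ × ℝ) => p.2.1) (jl σ τ π) :=
    (igr_zs hs (igr_s hs)).comp_snd π
  have k5 : Integrable (fun p : Vec m × (ℝ × ℝ) => tot p.1 * p.2.1) (jl σ τ π) :=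
    ht.mul_prod (igr_zs hs (igr_s hs))
  have v1 : ∫ p, p.2.1 ^ 2 ∂(jl σ τ π) = ∫ s, s ^ 2 ∂σ := by
    rw [integral_fun_snd (fun z : ℝ × ℝ => z.1 ^ 2), int_s hs (fun s => s ^ 2)]; simp
  have v2 : ∫ p, p.2.1 * p.2.2 ∂(jl σ τ π) = (∫ s, s ∂σ) * ∫ t, t ∂τ := by
    rw [integral_fun_snd (fun z : ℝ × ℝ => z.1 * z.2), integral_prod_mul (fun s => s) (fun t => t)]
    simp
  have v3 : ∫ p, p.2.2 ^ 2 ∂(jl σ τ π) = ∫ t, t ^ 2 ∂τ := by
    rw [integral_fun_snd (fun z : ℝ × ℝ => z.2 ^ 2), int_t hs (fun s => s ^ 2)]; simp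
  have v4 : ∫ p, p.2.1 ∂(jl σ τ π) = ∫ s, s ∂σ := by
    rw [integral_fun_snd (fun z : ℝ × ℝ => z.1), int_s hs (fun s => s)]; simp
  have v5 : ∫ p, tot p.1 * p.2.1 ∂(jl σ τ π) = (∫ w, tot w ∂π) * ∫ s, s ∂σ := by
    rw [integral_prod_mul tot (fun z : ℝ × ℝ => z.1), int_s hs (fun s => s)]
  have l1 := (k1.const_mul c1).add (k2.const_mul c2)
  have l2 := l1.add (k3.const_mul c3)
  have l3 := l2.add (k4.const_mul c4)
  refine ⟨l3.add (k5.const_mul c5), ?_⟩
  have e1 := integral_add (k1.const_mul c1) (k2.const_mul c2)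
  have e2 := integral_add l1 (k3.const_mul c3)
  have e3 := integral_add l2 (k4.const_mul c4)
  have e4 := integral_add l3 (k5.const_mul c5)
  simp only [Pi.add_apply] at e1 e2 e3 e4
  rw [e4, e3, e2, e1]
  simp only [integral_const_mul, v1, v2, v3, v4, v5]

end Pool.Agent.K9h80.GQ
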