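import Pool.Agent.K9h80.GQ.Step

/-!
# Stationary laws of the Kiefer-Wolfowitz recursion: zero mean drift, a priori bound
-/

set_option autoImplicit false

open MeasureTheory Finset Filter Topology

namespace Pool.Agent.K9h80.GQ

/-- Service law `σ`, interarrival law `τ`: nonnegative, square integrable, stable. -/
structure Sys (m : ℕ) (σ τ : Measure ℝ) : Prop where
  pσ : IsProbabilityMeasure σ
  pτ : IsProbabilityMeasure τ
  s0 : ∀ᵐ s ∂σ, 0 ≤ s
  t0 : ∀ᵐ t ∂τ, 0 ≤ t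
  s2 : Integrable (fun s : ℝ => s ^ 2) σ
  t2 : Integrable (fun t : ℝ => t ^ 2) τ
  stab : ∫ s, s ∂σ < (m + 1) * ∫ t, t ∂τ

theorem integrable_id_of_sq {μ : Measure ℝ} [IsFiniteMeasure μ]
    (h : Integrable (fun s : ℝ => s ^ 2) μ) : Integrable (fun s : ℝ => s) μ := by
  refine ((integrable_const (1 : ℝ)).add h).mono' measurable_id.aestronglyMeasurable ?_
  refine Eventually.of_forall fun s => ?_
  rw [Real.norm_eq_abs, Pi.add_apply]
  nlinarith [sq_nonneg (|s| - 1), sq_abs s, abs_nonneg s]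

section

variable {m : ℕ} {σ τ : Measure ℝ} {π : Measure (Fin (m + 1) → ℝ)}

/-- The total workload. -/
def tot (w : Fin (m + 1) → ℝ) : ℝ := ∑ i, w i

theorem measurable_tot : Measurable (tot : (Fin (m + 1) → ℝ) → ℝ) :=
  Finset.measurable_sum _ fun i _ => measurable_pi_apply i

theorem le_tot {w : Fin (m + 1) → ℝ} (h : ∀ i, 0 ≤ w i) (i : Fin (m + 1)) : w i ≤ tot w :=
  Finset.single_le_sum (f := w) (fun j _ => h j) (mem_univ i)

theorem tot_nonneg {w : Fin (m + 1) → ℝ} (h : ∀ i, 0 ≤ w i) : 0 ≤ tot w :=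
  Finset.sum_nonneg fun i _ => h i

theorem zero_mul_le_tot {w : Fin (m + 1) → ℝ} (h : Monotone w) : (m + 1) * w 0 ≤ tot w := by
  have : ∑ _i : Fin (m + 1), w 0 ≤ ∑ i, w i := Finset.sum_le_sum fun i _ => h (Fin.zero_le i)
  simpa [tot] using this

/-- The joint law of the present vector, the service time and the interarrival time. -/
noncomputable abbrev jl (σ τ : Measure ℝ) (π : Measure (Fin (m + 1) → ℝ)) :
    Measure ((Fin (m + 1) → ℝ) × (ℝ × ℝ)) := π.prod (σ.prod τ)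

theorem ae_jl (hs : Sys m σ τ) (hπ : IsStat σ τ π) : ∀ᵐ p ∂(jl σ τ π),
    (Monotone p.1 ∧ ∀ i, 0 ≤ p.1 i) ∧ 0 ≤ p.2.1 ∧ 0 ≤ p.2.2 := by
  have := hs.pσ; have := hs.pτ; have := hπ.1
  have h1 : ∀ᵐ p ∂(jl σ τ π), Monotone p.1 ∧ ∀ i, 0 ≤ p.1 i :=
    Measure.quasiMeasurePreserving_fst.ae hπ.2.1
  have h2 : ∀ᵐ z ∂(σ.prod τ), 0 ≤ z.1 := Measure.quasiMeasurePreserving_fst.ae hs.s0
  have h3 : ∀ᵐ z ∂(σ.prod τ), 0 ≤ z.2 := Measure.quasiMeasurePreserving_snd.ae hs.t0
  have h4 : ∀ᵐ p ∂(jl σ τ π), 0 ≤ p.2.1 ∧ 0 ≤ p.2.2 :=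
    Measure.quasiMeasurePreserving_snd.ae (h2.and h3)
  exact h1.and h4

theorem integral_step (hs : Sys m σ τ) (hπ : IsStat σ τ π) {f : (Fin (m + 1) → ℝ) → ℝ}
    (hf : Measurable f) : ∫ p, f (kwStep p.1 p.2.1 p.2.2) ∂(jl σ τ π) = ∫ w, f w ∂π := by
  have h := integral_map (μ := jl σ τ π) (f := f) measurable_kwStep.aemeasurable
    (hf.aestronglyMeasurable)
  rw [← h]
  exact congrArg (fun μ => ∫ w, f w ∂μ) hπ.2.2

theorem integral_first (hs : Sys m σ τ) (hπ : IsStat σ τ π) (f : (Fin (m + 1) → ℝ) → ℝ) :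
    ∫ p, f p.1 ∂(jl σ τ π) = ∫ w, f w ∂π := by
  have := hs.pσ; have := hs.pτ; have := hπ.1
  rw [integral_fun_fst]; simp

/-- Loynes' lemma: an integrable increment of a function of a stationary chain has mean zero. -/
theorem drift_zero (hs : Sys m σ τ) (hπ : IsStat σ τ π) {f : (Fin (m + 1) → ℝ) → ℝ}
    (hf : Measurable f)
    (hi : Integrable (fun p => f (kwStep p.1 p.2.1 p.2.2) - f p.1) (jl σ τ π)) :
    ∫ p, (f (kwStep p.1 p.2.1 p.2.2) - f p.1) ∂(jl σ τ π) = 0 := by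
  have := hs.pσ; have := hs.pτ; have := hπ.1
  set c : ℕ → ℝ → ℝ := fun N x => max (-(N : ℝ)) (min (N : ℝ) x) with hc
  have hcm : ∀ N, Measurable (c N) := fun N => measurable_const.max (measurable_const.min measurable_id)
  have hcb : ∀ N x, |c N x| ≤ N := by
    intro N x
    rw [abs_le]
    refine ⟨le_max_left _ _, max_le ?_ (min_le_left _ _)⟩
    have : (0 : ℝ) ≤ N := Nat.cast_nonneg N
    linarith
  have hcl : ∀ N a b, |c N a - c N b| ≤ |a - b| := by
    intro N a b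
    have h1 := abs_max_sub_max_le_abs (min (N : ℝ) a) (min (N : ℝ) b) (-(N : ℝ))
    have h2 : |min (N : ℝ) a - min (N : ℝ) b| ≤ |a - b| := by
      have := abs_min_sub_min_le_max (N : ℝ) a (N : ℝ) b
      simpa using this
    have h3 : |c N a - c N b| ≤ |min (N : ℝ) a - min (N : ℝ) b| := by
      simp only [hc]
      rw [max_comm (-(N : ℝ)) (min (N : ℝ) a), max_comm (-(N : ℝ)) (min (N : ℝ) b)]
      exact h1
    exact h3.trans h2
  have hzero : ∀ N, ∫ p, (c N (f (kwStep p.1 p.2.1 p.2.2)) - c N (f p.1)) ∂(jl σ τ π) = 0 := by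
    intro N
    have i1 : Integrable (fun p => c N (f (kwStep p.1 p.2.1 p.2.2))) (jl σ τ π) := by
      refine Integrable.of_bound ((hcm N).comp (hf.comp measurable_kwStep)).aestronglyMeasurable
        (N : ℝ) (Eventually.of_forall fun p => ?_)
      rw [Real.norm_eq_abs]; exact hcb N _
    have i2 : Integrable (fun p => c N (f p.1)) (jl σ τ π) := by
      refine Integrable.of_bound ((hcm N).comp (hf.comp measurable_fst)).aestronglyMeasurable
        (N : ℝ) (Eventually.of_forall fun p => ?_)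
      rw [Real.norm_eq_abs]; exact hcb N _
    rw [integral_sub i1 i2, integral_step hs hπ (f := fun w => c N (f w)) ((hcm N).comp hf),
      integral_first hs hπ (fun w => c N (f w)), sub_self]
  have hlim : Tendsto (fun N : ℕ => ∫ p, (c N (f (kwStep p.1 p.2.1 p.2.2)) - c N (f p.1)) ∂(jl σ τ π))
      atTop (𝓝 (∫ p, (f (kwStep p.1 p.2.1 p.2.2) - f p.1) ∂(jl σ τ π))) := by
    refine tendsto_integral_of_dominated_convergence
      (fun p => |f (kwStep p.1 p.2.1 p.2.2) - f p.1|) ?_ hi.abs ?_ ?_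
    · intro N
      exact (((hcm N).comp (hf.comp measurable_kwStep)).sub
        ((hcm N).comp (hf.comp measurable_fst))).aestronglyMeasurable
    · intro N
      exact Eventually.of_forall fun p => by rw [Real.norm_eq_abs]; exact hcl N _ _
    · refine Eventually.of_forall fun p => ?_
      have hx : ∀ x : ℝ, Tendsto (fun N : ℕ => c N x) atTop (𝓝 x) := by
        intro x
        refine tendsto_const_nhds.congr' ?_
        filter_upwards [eventually_ge_atTop (Nat.ceil |x|)] with N hN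
        have h1 : |x| ≤ N := (Nat.le_ceil _).trans (by exact_mod_cast hN)
        have h2 := abs_le.1 h1
        simp only [hc]
        rw [min_eq_right h2.2, max_eq_right h2.1]
      exact (hx _).sub (hx _)
  have h0 : Tendsto (fun N : ℕ => ∫ p, (c N (f (kwStep p.1 p.2.1 p.2.2)) - c N (f p.1)) ∂(jl σ τ π))
      atTop (𝓝 0) := by
    simp only [hzero]; exact tendsto_const_nhds
  exact tendsto_nhds_unique hlim h0

/-- The functions of the drivers. -/
theorem int_s (hs : Sys m σ τ) (g : ℝ → ℝ) : ∫ z, g z.1 ∂(σ.prod τ) = ∫ s, g s ∂σ := by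
  have := hs.pσ; have := hs.pτ
  rw [integral_fun_fst]; simp

theorem int_t (hs : Sys m σ τ) (g : ℝ → ℝ) : ∫ z, g z.2 ∂(σ.prod τ) = ∫ t, g t ∂τ := by
  have := hs.pσ; have := hs.pτ
  rw [integral_fun_snd]; simp

theorem igr_s (hs : Sys m σ τ) : Integrable (fun s : ℝ => s) σ := by
  have := hs.pσ; exact integrable_id_of_sq hs.s2

theorem igr_t (hs : Sys m σ τ) : Integrable (fun s : ℝ => s) τ := by
  have := hs.pτ; exact integrable_id_of_sq hs.t2

theorem igr_zs (hs : Sys m σ τ) {g : ℝ → ℝ} (hg : Integrable g σ) :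
    Integrable (fun z : ℝ × ℝ => g z.1) (σ.prod τ) := by
  have := hs.pσ; have := hs.pτ; exact hg.comp_fst τ

theorem igr_zt (hs : Sys m σ τ) {g : ℝ → ℝ} (hg : Integrable g τ) :
    Integrable (fun z : ℝ × ℝ => g z.2) (σ.prod τ) := by
  have := hs.pσ; have := hs.pτ; exact hg.comp_snd σ

theorem igr_zst (hs : Sys m σ τ) : Integrable (fun z : ℝ × ℝ => z.1 * z.2) (σ.prod τ) := by
  have := hs.pσ; have := hs.pτ
  exact (igr_s hs).mul_prod (igr_t hs)

theorem mean_t_pos (hs : Sys m σ τ) : 0 < ∫ t, t ∂τ := by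
  have h1 : 0 ≤ ∫ s, s ∂σ := integral_nonneg_of_ae hs.s0
  have h2 := hs.stab
  have h3 : (0 : ℝ) < m + 1 := by positivity
  by_contra h
  push Not at h
  have : ((m : ℝ) + 1) * ∫ t, t ∂τ ≤ 0 := mul_nonpos_of_nonneg_of_nonpos h3.le h
  linarith

theorem mean_s_nonneg (hs : Sys m σ τ) : 0 ≤ ∫ s, s ∂σ := integral_nonneg_of_ae hs.s0

/-- The constant in the a priori bound of the mean of the total workload. -/
noncomputable def apr (m : ℕ) (σ τ : Measure ℝ) : ℝ :=
  (m + 1) * (∫ s, s ^ 2 ∂σ + (m + 1) * ∫ t, t ^ 2 ∂τ)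
    / (2 * ((m + 1) * ∫ t, t ∂τ - ∫ s, s ∂σ))

/-- The pointwise bound of the increment of half the sum of the squares. -/
theorem half_sq_le {w : Fin (m + 1) → ℝ} {s t : ℝ} (hw : ∀ i, 0 ≤ w i) (hs : 0 ≤ s) (ht : 0 ≤ t) :
    (∑ i, (kwStep w s t i) ^ 2) / 2 - (∑ i, (w i) ^ 2) / 2
      ≤ s * w 0 - t * tot w + (s ^ 2 + (m + 1) * t ^ 2) / 2 := by
  have h1 : ∑ i, (kwStep w s t i) ^ 2 = ∑ i, (after w s t i) ^ 2 :=
    sum_kwStep w s t (fun x => x ^ 2)
  have h2 : ∑ i, (after w s t i) ^ 2 ≤ ∑ i, (w i + (if i = 0 then s else 0) - t) ^ 2 := by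
    refine Finset.sum_le_sum fun i _ => ?_
    rw [after_eq]
    rcases le_total (w i + (if i = 0 then s else 0) - t) 0 with h | h
    · rw [max_eq_right h]; nlinarith [sq_nonneg (w i + (if i = 0 then s else 0) - t)]
    · rw [max_eq_left h]
  have h3 : ∑ i, (w i + (if i = 0 then s else 0) - t) ^ 2
      = ∑ i, (w i) ^ 2 - 2 * t * tot w + (m + 1) * t ^ 2 + (2 * s * w 0 + s ^ 2 - 2 * s * t) := by
    have e : ∀ i : Fin (m + 1), (w i + (if i = 0 then s else 0) - t) ^ 2
        = (w i) ^ 2 - 2 * t * w i + t ^ 2 + (if i = 0 then 2 * s * w 0 + s ^ 2 - 2 * s * t else 0) := by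
      intro i
      by_cases hi : i = 0
      · subst hi; simp; ring
      · simp [hi]; ring
    simp only [e, Finset.sum_add_distrib, Finset.sum_sub_distrib, ← Finset.mul_sum]
    simp [tot]
  have h4 : 0 ≤ s * t := mul_nonneg hs ht
  linarith

theorem apriori (hs : Sys m σ τ) (hπ : IsStat σ τ π) :
    Integrable tot π ∧ ∫ w, tot w ∂π ≤ apr m σ τ := by
  have := hs.pσ; have := hs.pτ; have := hπ.1
  set Q : (Fin (m + 1) → ℝ) → ℝ := fun w => (∑ i, (w i) ^ 2) / 2 with hQ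
  have hQm : Measurable Q :=
    (Finset.measurable_sum _ fun i _ => (measurable_pi_apply i).pow_const 2).div_const 2
  have hQ0 : ∀ w, 0 ≤ Q w := fun w => by simp only [hQ]; positivity
  set δ : ℝ := (m + 1) * ∫ t, t ∂τ - ∫ s, s ∂σ with hδ
  have hδp : 0 < δ := by have := hs.stab; simp only [hδ]; linarith
  set C : ℝ := (∫ s, s ^ 2 ∂σ + (m + 1) * ∫ t, t ^ 2 ∂τ) / 2 with hC
  -- the sets on which `Q ≤ N`
  set A : ℕ → Set (Fin (m + 1) → ℝ) := fun N => {w | Q w ≤ N} with hA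
  have hAm : ∀ N, MeasurableSet (A N) := fun N => measurableSet_le hQm measurable_const
  have hbd : ∀ N (w : Fin (m + 1) → ℝ), w ∈ A N → ∀ i, |w i| ≤ 2 * N + 1 := by
    intro N w hw i
    have h1 : (w i) ^ 2 ≤ ∑ i, (w i) ^ 2 :=
      Finset.single_le_sum (f := fun i => (w i) ^ 2) (fun j _ => sq_nonneg _) (mem_univ i)
    have h2 : Q w ≤ N := hw
    simp only [hQ] at h2
    have h3 : (w i) ^ 2 ≤ 2 * N := by linarith
    nlinarith [sq_abs (w i), abs_nonneg (w i), sq_nonneg (|w i| - 1)]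
  have htb : ∀ N (w : Fin (m + 1) → ℝ), w ∈ A N → |tot w| ≤ (m + 1) * (2 * N + 1) := by
    intro N w hw
    refine (Finset.abs_sum_le_sum_abs _ _).trans ?_
    refine (Finset.sum_le_sum fun i _ => hbd N w hw i).trans (le_of_eq ?_)
    simp
    ring
  have hItot : ∀ N, IntegrableOn tot (A N) π := by
    intro N
    refine Integrable.of_bound (C := (m + 1) * (2 * N + 1)) measurable_tot.aestronglyMeasurable ?_
    rw [ae_restrict_iff' (hAm N)]
    exact Eventually.of_forall fun w hw => by rw [Real.norm_eq_abs]; exact htb N w hw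
  have hI0 : ∀ N, IntegrableOn (fun w : Fin (m + 1) → ℝ => w 0) (A N) π := by
    intro N
    refine Integrable.of_bound (C := 2 * N + 1) (measurable_pi_apply 0).aestronglyMeasurable ?_
    rw [ae_restrict_iff' (hAm N)]
    exact Eventually.of_forall fun w hw => by rw [Real.norm_eq_abs]; exact hbd N w hw 0
  have hbound : ∀ N : ℕ, ∫ w in A N, tot w ∂π ≤ apr m σ τ := by
    intro N
    -- the truncated function
    set g : (Fin (m + 1) → ℝ) → ℝ := fun w => min (Q w) N with hg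
    have hgm : Measurable g := hQm.min measurable_const
    have hgb : ∀ w, |g w| ≤ N := by
      intro w
      rw [abs_of_nonneg (le_min (hQ0 w) (Nat.cast_nonneg N))]
      exact min_le_right _ _
    have i1 : Integrable (fun p => g (kwStep p.1 p.2.1 p.2.2)) (jl σ τ π) :=
      Integrable.of_bound (hgm.comp measurable_kwStep).aestronglyMeasurable
        (N : ℝ) (Eventually.of_forall fun p => by rw [Real.norm_eq_abs]; exact hgb _)
    have i2 : Integrable (fun p => g p.1) (jl σ τ π) :=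
      Integrable.of_bound (hgm.comp measurable_fst).aestronglyMeasurable
        (N : ℝ) (Eventually.of_forall fun p => by rw [Real.norm_eq_abs]; exact hgb _)
    have hz := drift_zero hs hπ hgm (i1.sub i2)
    -- the upper bound
    set a0 : (Fin (m + 1) → ℝ) → ℝ := (A N).indicator (fun w => w 0) with ha0
    set a1 : (Fin (m + 1) → ℝ) → ℝ := (A N).indicator tot with ha1
    set a2 : (Fin (m + 1) → ℝ) → ℝ := (A N).indicator (fun _ => (1 : ℝ)) with ha2
    have ja0 : Integrable a0 π := (integrable_indicator_iff (hAm N)).2 (hI0 N)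
    have ja1 : Integrable a1 π := (integrable_indicator_iff (hAm N)).2 (hItot N)
    have ja2 : Integrable a2 π := (integrable_indicator_iff (hAm N)).2 (integrable_const _).integrableOn
    have k0 : Integrable (fun p : (Fin (m + 1) → ℝ) × (ℝ × ℝ) => a0 p.1 * p.2.1) (jl σ τ π) :=
      ja0.mul_prod (igr_zs hs (igr_s hs))
    have k1 : Integrable (fun p : (Fin (m + 1) → ℝ) × (ℝ × ℝ) => a1 p.1 * p.2.2) (jl σ τ π) :=
      ja1.mul_prod (igr_zt hs (igr_t hs))
    have kz : Integrable (fun z : ℝ × ℝ => (z.1 ^ 2 + (m + 1) * z.2 ^ 2) / 2) (σ.prod τ) :=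
      ((igr_zs hs hs.s2).add ((igr_zt hs hs.t2).const_mul _)).div_const 2
    have k2 : Integrable (fun p : (Fin (m + 1) → ℝ) × (ℝ × ℝ) =>
        a2 p.1 * ((p.2.1 ^ 2 + (m + 1) * p.2.2 ^ 2) / 2)) (jl σ τ π) :=
      ja2.mul_prod kz
    have hle : ∫ p, (g (kwStep p.1 p.2.1 p.2.2) - g p.1) ∂(jl σ τ π)
        ≤ ∫ p, (a0 p.1 * p.2.1 - a1 p.1 * p.2.2
          + a2 p.1 * ((p.2.1 ^ 2 + (m + 1) * p.2.2 ^ 2) / 2)) ∂(jl σ τ π) := by
      refine integral_mono_ae (i1.sub i2) ((k0.sub k1).add k2) ?_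
      filter_upwards [ae_jl hs hπ] with p hp
      obtain ⟨⟨_, hp1⟩, hp2, hp3⟩ := hp
      by_cases hin : p.1 ∈ A N
      · simp only [ha0, ha1, ha2, Set.indicator_of_mem hin]
        have hb := half_sq_le hp1 hp2 hp3
        have h1 : g p.1 = Q p.1 := min_eq_left hin
        have h2 : g (kwStep p.1 p.2.1 p.2.2) ≤ Q (kwStep p.1 p.2.1 p.2.2) := min_le_left _ _
        rw [h1]
        simp only [hQ] at h2 ⊢
        linarith
      · simp only [ha0, ha1, ha2, Set.indicator_of_notMem hin]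
        have h1 : g p.1 = N := min_eq_right (not_le.1 hin).le
        have h2 : g (kwStep p.1 p.2.1 p.2.2) ≤ N := min_le_right _ _
        rw [h1]; linarith
    have e0 : ∫ p, (a0 p.1 * p.2.1) ∂(jl σ τ π) = (∫ w, a0 w ∂π) * ∫ s, s ∂σ := by
      rw [integral_prod_mul a0 (fun z : ℝ × ℝ => z.1), int_s hs (fun s => s)]
    have e1 : ∫ p, (a1 p.1 * p.2.2) ∂(jl σ τ π) = (∫ w, a1 w ∂π) * ∫ t, t ∂τ := by
      rw [integral_prod_mul a1 (fun z : ℝ × ℝ => z.2), int_t hs (fun s => s)]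
    have e2 : ∫ p, (a2 p.1 * ((p.2.1 ^ 2 + (m + 1) * p.2.2 ^ 2) / 2)) ∂(jl σ τ π)
        = (∫ w, a2 w ∂π) * C := by
      rw [integral_prod_mul a2 (fun z : ℝ × ℝ => (z.1 ^ 2 + (m + 1) * z.2 ^ 2) / 2)]
      congr 1
      rw [integral_div, integral_add (igr_zs hs hs.s2) ((igr_zt hs hs.t2).const_mul _),
        integral_const_mul, int_s hs (fun s => s ^ 2), int_t hs (fun s => s ^ 2)]
    have esum : ∫ p, (a0 p.1 * p.2.1 - a1 p.1 * p.2.2
          + a2 p.1 * ((p.2.1 ^ 2 + (m + 1) * p.2.2 ^ 2) / 2)) ∂(jl σ τ π)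
        = (∫ w, a0 w ∂π) * (∫ s, s ∂σ) - (∫ w, a1 w ∂π) * (∫ t, t ∂τ) + (∫ w, a2 w ∂π) * C := by
      have h1 := integral_add (k0.sub k1) k2
      have h2 := integral_sub k0 k1
      simp only [Pi.sub_apply] at h1 h2
      rw [h1, h2, e0, e1, e2]
    rw [hz, esum] at hle
    have b2 : (∫ w, a2 w ∂π) ≤ 1 := by
      rw [ha2, integral_indicator (hAm N)]
      simp
    have hC0 : 0 ≤ C := by
      simp only [hC]
      have : 0 ≤ ∫ s, s ^ 2 ∂σ := integral_nonneg fun s => sq_nonneg s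
      have : 0 ≤ ∫ s, s ^ 2 ∂τ := integral_nonneg fun s => sq_nonneg s
      positivity
    have b3 : (∫ w, a2 w ∂π) * C ≤ C := by nlinarith
    have b0 : (m + 1) * (∫ w, a0 w ∂π) ≤ ∫ w, a1 w ∂π := by
      rw [← integral_const_mul]
      refine integral_mono_ae (ja0.const_mul _) ja1 ?_
      filter_upwards [hπ.2.1] with w hw
      by_cases hin : w ∈ A N
      · simp only [ha0, ha1, Set.indicator_of_mem hin]
        exact zero_mul_le_tot hw.1
      · simp only [ha0, ha1, Set.indicator_of_notMem hin, mul_zero, le_refl]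
    have b1 : ∫ w, a1 w ∂π = ∫ w in A N, tot w ∂π := integral_indicator (hAm N)
    have hm : (0 : ℝ) < m + 1 := by positivity
    have hS0 := mean_s_nonneg hs
    rw [apr, le_div_iff₀ (by positivity), ← b1]
    set X := ∫ w, a1 w ∂π
    set Y := ∫ w, a0 w ∂π
    have h5 : (m + 1) * (Y * ∫ s, s ∂σ) ≤ X * ∫ s, s ∂σ := by nlinarith
    have h6 : X * δ ≤ (m + 1) * C := by
      simp only [hδ]
      nlinarith
    have h7 : ((m : ℝ) + 1) * (∫ s, s ^ 2 ∂σ + (m + 1) * ∫ t, t ^ 2 ∂τ) = 2 * ((m + 1) * C) := by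
      simp only [hC]; ring
    rw [h7]
    nlinarith
  have hcov : AECover π atTop A := by
    refine ⟨Eventually.of_forall fun w => ?_, hAm⟩
    filter_upwards [eventually_ge_atTop (Nat.ceil (Q w))] with N hN
    show Q w ≤ N
    exact (Nat.le_ceil (Q w)).trans (by exact_mod_cast hN)
  have hint : Integrable tot π :=
    hcov.integrable_of_integral_bounded_of_nonneg_ae (apr m σ τ) hItot
      (hπ.2.1.mono fun w hw => tot_nonneg hw.2) (Eventually.of_forall hbound)
  exact ⟨hint, le_of_tendsto (hcov.integral_tendsto_of_countably_generated hint)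
    (Eventually.of_forall hbound)⟩

/-- Increments which are bounded by `C (s + t) (V + s + t)` are integrable with mean zero. -/
theorem drift_zero' (hs : Sys m σ τ) (hπ : IsStat σ τ π) {f : (Fin (m + 1) → ℝ) → ℝ}
    (hf : Measurable f) (C : ℝ)
    (hb : ∀ w s t, Monotone w → (∀ i, 0 ≤ w i) → 0 ≤ s → 0 ≤ t →
      |f (kwStep w s t) - f w| ≤ C * ((s + t) * (tot w + s + t))) :
    Integrable (fun p => f (kwStep p.1 p.2.1 p.2.2) - f p.1) (jl σ τ π) ∧
    ∫ p, (f (kwStep p.1 p.2.1 p.2.2) - f p.1) ∂(jl σ τ π) = 0 := by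
  have := hs.pσ; have := hs.pτ; have := hπ.1
  have hV := (apriori hs hπ).1
  have k1 : Integrable (fun p : (Fin (m + 1) → ℝ) × (ℝ × ℝ) => tot p.1 * (p.2.1 + p.2.2))
      (jl σ τ π) :=
    hV.mul_prod ((igr_zs hs (igr_s hs)).add (igr_zt hs (igr_t hs)))
  have k2 : Integrable (fun z : ℝ × ℝ => z.1 ^ 2 + 2 * (z.1 * z.2) + z.2 ^ 2) (σ.prod τ) :=
    ((igr_zs hs hs.s2).add ((igr_zst hs).const_mul 2)).add (igr_zt hs hs.t2)
  have k3 : Integrable (fun p : (Fin (m + 1) → ℝ) × (ℝ × ℝ) =>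
      p.2.1 ^ 2 + 2 * (p.2.1 * p.2.2) + p.2.2 ^ 2) (jl σ τ π) := k2.comp_snd π
  have k4 : Integrable (fun p : (Fin (m + 1) → ℝ) × (ℝ × ℝ) =>
      C * ((p.2.1 + p.2.2) * (tot p.1 + p.2.1 + p.2.2))) (jl σ τ π) := by
    refine ((k1.add k3).const_mul C).congr (Eventually.of_forall fun p => ?_)
    simp only [Pi.add_apply]
    ring
  have hi : Integrable (fun p => f (kwStep p.1 p.2.1 p.2.2) - f p.1) (jl σ τ π) := by
    refine k4.mono' ((hf.comp measurable_kwStep).sub (hf.comp measurable_fst)).aestronglyMeasurable ?_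
    filter_upwards [ae_jl hs hπ] with p hp
    rw [Real.norm_eq_abs]
    exact hb _ _ _ hp.1.1 hp.1.2 hp.2.1 hp.2.2
  exact ⟨hi, drift_zero hs hπ hf hi⟩

end

end Pool.Agent.K9h80.GQ
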