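import Pool.Agent.K9h80.GQ.Defs

/-!
# The Kiefer-Wolfowitz recursion: sorting, one step, contraction, monotonicity
-/

set_option autoImplicit false

open MeasureTheory Finset

namespace Pool.Agent.K9h80.GQ

section sorting

variable {n : ℕ}

theorem sorted_mono (y : Fin n → ℝ) : Monotone (sorted y) := Tuple.monotone_sort y

theorem sum_sorted (y : Fin n → ℝ) (g : ℝ → ℝ) : ∑ i, g (sorted y i) = ∑ i, g (y i) :=
  Equiv.sum_comp (Tuple.sort y) (fun i => g (y i))

theorem sum_comp_aux (y : Fin n → ℝ) (g : ℝ → ℕ) : ∑ i, g (sorted y i) = ∑ i, g (y i) :=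
  Equiv.sum_comp (Tuple.sort y) (fun i => g (y i))

theorem sorted_eq {y z : Fin n → ℝ} (σ : Equiv.Perm (Fin n)) (h : z = y ∘ σ) (hz : Monotone z) :
    sorted y = z := by
  subst h
  exact (Tuple.unique_monotone hz (Tuple.monotone_sort y)).symm

theorem sorted_of_mono {y : Fin n → ℝ} (h : Monotone y) : sorted y = y :=
  sorted_eq (Equiv.refl _) rfl h

theorem exists_sorted (y : Fin n → ℝ) (i : Fin n) : ∃ j, sorted y j = y i :=
  ⟨(Tuple.sort y).symm i, by simp [sorted]⟩

theorem exists_sorted' (y : Fin n → ℝ) (j : Fin n) : ∃ i, sorted y j = y i :=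
  ⟨Tuple.sort y j, rfl⟩

theorem sorted_le_iff (y : Fin n → ℝ) (j : Fin n) (a : ℝ) :
    sorted y j ≤ a ↔ (j : ℕ) < (univ.filter fun i => y i ≤ a).card := by
  rw [← Tuple.lt_card_le_iff_apply_le_of_monotone (sorted_mono y)]
  have : (univ.filter fun i => sorted y i ≤ a).card = (univ.filter fun i => y i ≤ a).card := by
    rw [Finset.card_filter, Finset.card_filter]
    exact sum_comp_aux y (fun x => if x ≤ a then 1 else 0)
  rw [this]

theorem sorted_le_sorted {a b : Fin n → ℝ} (h : ∀ i, a i ≤ b i) (j : Fin n) :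
    sorted a j ≤ sorted b j := by
  rw [sorted_le_iff]
  have h1 : (j : ℕ) < (univ.filter fun i => b i ≤ sorted b j).card :=
    (sorted_le_iff b j _).1 le_rfl
  refine lt_of_lt_of_le h1 (Finset.card_le_card ?_)
  intro i hi
  simp only [mem_filter, mem_univ, true_and] at hi ⊢
  exact (h i).trans hi

/-- Sorting is a contraction for the Euclidean distance. -/
theorem sorted_contract (a b : Fin n → ℝ) :
    ∑ i, (sorted a i - sorted b i) ^ 2 ≤ ∑ i, (a i - b i) ^ 2 := by
  have hmv : Monovary (sorted a) (sorted b) := (sorted_mono a).monovary (sorted_mono b)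
  have h1 := hmv.sum_mul_comp_perm_le_sum_mul (σ := (Tuple.sort a).trans (Tuple.sort b).symm)
  have h2 : ∑ i, sorted a i * sorted b (((Tuple.sort a).trans (Tuple.sort b).symm) i)
      = ∑ i, a i * b i := by
    rw [← Equiv.sum_comp (Tuple.sort a) (fun i => a i * b i)]
    refine Finset.sum_congr rfl fun i _ => ?_
    simp [sorted]
  rw [h2] at h1
  have h3 : ∑ i, (sorted a i) ^ 2 = ∑ i, (a i) ^ 2 := sum_sorted a (fun x => x ^ 2)
  have h4 : ∑ i, (sorted b i) ^ 2 = ∑ i, (b i) ^ 2 := sum_sorted b (fun x => x ^ 2)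
  have e1 : ∑ i, (sorted a i - sorted b i) ^ 2 = ∑ i, (sorted a i) ^ 2 + ∑ i, (sorted b i) ^ 2
      - 2 * ∑ i, sorted a i * sorted b i := by
    rw [Finset.mul_sum, ← Finset.sum_add_distrib, ← Finset.sum_sub_distrib]
    exact Finset.sum_congr rfl fun i _ => by ring
  have e2 : ∑ i, (a i - b i) ^ 2 = ∑ i, (a i) ^ 2 + ∑ i, (b i) ^ 2 - 2 * ∑ i, a i * b i := by
    rw [Finset.mul_sum, ← Finset.sum_add_distrib, ← Finset.sum_sub_distrib]
    exact Finset.sum_congr rfl fun i _ => by ring
  rw [e1, e2, h3, h4]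
  linarith

theorem measurable_sorted : Measurable (sorted : (Fin n → ℝ) → (Fin n → ℝ)) := by
  refine measurable_pi_lambda _ fun j => ?_
  refine measurable_of_Iic fun a => ?_
  have : (fun y : Fin n → ℝ => sorted y j) ⁻¹' Set.Iic a
      = {y | (j : ℕ) < ∑ i, if y i ≤ a then 1 else 0} := by
    ext y
    simp only [Set.mem_preimage, Set.mem_Iic, Set.mem_ofPred_eq, sorted_le_iff,
      Finset.card_filter]
  rw [this]
  have hm : Measurable fun y : Fin n → ℝ => ∑ i, if y i ≤ a then 1 else 0 := by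
    refine Finset.measurable_sum _ fun i _ => ?_
    exact Measurable.ite (measurableSet_le (measurable_pi_apply i) measurable_const)
      measurable_const measurable_const
  exact measurableSet_lt measurable_const hm

end sorting

section step

variable {m : ℕ}

theorem after_zero (w : Fin (m + 1) → ℝ) (s t : ℝ) : after w s t 0 = max (w 0 + s - t) 0 := by
  simp [after]

theorem after_ne {w : Fin (m + 1) → ℝ} {s t : ℝ} {i : Fin (m + 1)} (hi : i ≠ 0) :
    after w s t i = max (w i - t) 0 := by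
  have : (i : ℕ) ≠ 0 := fun h => hi (Fin.ext (by simpa using h))
  simp [after, this]

theorem after_nonneg {k : ℕ} (w : Fin k → ℝ) (s t : ℝ) (i : Fin k) : 0 ≤ after w s t i :=
  le_max_right _ _

theorem kwStep_mono {k : ℕ} (w : Fin k → ℝ) (s t : ℝ) : Monotone (kwStep w s t) := sorted_mono _

theorem kwStep_nonneg {k : ℕ} (w : Fin k → ℝ) (s t : ℝ) (i : Fin k) : 0 ≤ kwStep w s t i := by
  obtain ⟨j, hj⟩ := exists_sorted' (after w s t) i
  rw [kwStep, hj]
  exact after_nonneg _ _ _ _

theorem sum_kwStep {k : ℕ} (w : Fin k → ℝ) (s t : ℝ) (g : ℝ → ℝ) :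
    ∑ i, g (kwStep w s t i) = ∑ i, g (after w s t i) := sum_sorted _ _

/-- Adding to the minimum: the vector before the drain. -/
theorem after_eq (w : Fin (m + 1) → ℝ) (s t : ℝ) (i : Fin (m + 1)) :
    after w s t i = max (w i + (if i = 0 then s else 0) - t) 0 := by
  by_cases hi : i = 0
  · subst hi; simp [after_zero]
  · simp [after_ne hi, hi]

/-- Total workload. -/
theorem sum_kwStep_ge (w : Fin (m + 1) → ℝ) (s t : ℝ) :
    ∑ i, w i + s - (m + 1) * t ≤ ∑ i, kwStep w s t i := by
  have h : ∑ i, kwStep w s t i = ∑ i, after w s t i := sum_kwStep w s t (fun x => x)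
  rw [h]
  have h1 : ∑ i, (w i + (if i = 0 then s else 0) - t) ≤ ∑ i, after w s t i := by
    refine Finset.sum_le_sum fun i _ => ?_
    rw [after_eq]
    exact le_max_left _ _
  refine le_trans (le_of_eq ?_) h1
  rw [Finset.sum_sub_distrib, Finset.sum_add_distrib]
  simp

/-- The largest workload. -/
theorem kwStep_last {w : Fin (m + 1) → ℝ} (hw : Monotone w) {s : ℝ} (hs : 0 ≤ s) (t : ℝ) :
    kwStep w s t (Fin.last m) = max (max (w 0 + s) (w (Fin.last m)) - t) 0 := by
  apply le_antisymm
  · obtain ⟨i, hi⟩ := exists_sorted' (after w s t) (Fin.last m)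
    rw [kwStep, hi, after_eq]
    refine max_le_max ?_ le_rfl
    refine sub_le_sub_right ?_ t
    by_cases h0 : i = 0
    · subst h0; simp
    · simp only [h0, if_false, add_zero]
      exact (hw (Fin.le_last i)).trans (le_max_right _ _)
  · have hge : ∀ i, after w s t i ≤ kwStep w s t (Fin.last m) := by
      intro i
      obtain ⟨j, hj⟩ := exists_sorted (after w s t) i
      rw [← hj]
      exact sorted_mono _ (Fin.le_last j)
    refine max_le ?_ (kwStep_nonneg _ _ _ _)
    rw [← max_sub_sub_right]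
    refine max_le ?_ ?_
    · refine le_trans ?_ (hge 0)
      rw [after_zero]
      exact le_max_left _ _
    · refine le_trans ?_ (hge (Fin.last m))
      rw [after_eq]
      refine le_trans ?_ (le_max_left _ _)
      split_ifs <;> linarith

theorem measurable_after {k : ℕ} :
    Measurable fun p : (Fin k → ℝ) × (ℝ × ℝ) => after p.1 p.2.1 p.2.2 := by
  refine measurable_pi_lambda _ fun i => ?_
  unfold after
  have h1 : Measurable fun p : (Fin k → ℝ) × (ℝ × ℝ) => p.1 i :=
    (measurable_pi_apply i).comp measurable_fst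
  have h2 : Measurable fun p : (Fin k → ℝ) × (ℝ × ℝ) => p.2.1 :=
    measurable_fst.comp measurable_snd
  have h3 : Measurable fun p : (Fin k → ℝ) × (ℝ × ℝ) => p.2.2 :=
    measurable_snd.comp measurable_snd
  by_cases hi : (i : ℕ) = 0
  · simp only [hi, if_true]
    exact ((h1.add h2).sub h3).max measurable_const
  · simp only [hi, if_false]
    exact (h1.sub h3).max measurable_const

theorem measurable_kwStep {k : ℕ} :
    Measurable fun p : (Fin k → ℝ) × (ℝ × ℝ) => kwStep p.1 p.2.1 p.2.2 :=
  measurable_sorted.comp measurable_after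

theorem kwStep_le_kwStep {k : ℕ} {v w : Fin k → ℝ} (h : ∀ i, v i ≤ w i) (s t : ℝ) (i : Fin k) :
    kwStep v s t i ≤ kwStep w s t i := by
  refine sorted_le_sorted (fun i => ?_) i
  unfold after
  refine max_le_max (sub_le_sub_right ?_ t) le_rfl
  split_ifs
  · linarith [h i]
  · exact h i

end step

section norm

variable {k : ℕ}

/-- The Euclidean norm of a vector. -/
noncomputable def nrm (x : Fin k → ℝ) : ℝ := √(∑ i, x i ^ 2)

theorem nrm_eq (x : Fin k → ℝ) : nrm x = ‖(WithLp.toLp 2 x : EuclideanSpace ℝ (Fin k))‖ := by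
  rw [EuclideanSpace.norm_eq]
  simp [nrm]

theorem nrm_nonneg (x : Fin k → ℝ) : 0 ≤ nrm x := Real.sqrt_nonneg _

theorem nrm_add_le (x y : Fin k → ℝ) : nrm (x + y) ≤ nrm x + nrm y := by
  simp only [nrm_eq, WithLp.toLp_add]
  exact norm_add_le _ _

theorem nrm_neg (x : Fin k → ℝ) : nrm (-x) = nrm x := by
  simp [nrm]

theorem nrm_sub_comm (x y : Fin k → ℝ) : nrm (x - y) = nrm (y - x) := by
  rw [← nrm_neg, neg_sub]

theorem nrm_sub_le (x y z : Fin k → ℝ) : nrm (x - z) ≤ nrm (x - y) + nrm (y - z) := by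
  have := nrm_add_le (x - y) (y - z)
  simpa using this

theorem abs_le_nrm (x : Fin k → ℝ) (i : Fin k) : |x i| ≤ nrm x := by
  rw [nrm, ← Real.sqrt_sq_eq_abs]
  refine Real.sqrt_le_sqrt ?_
  exact Finset.single_le_sum (f := fun i => x i ^ 2) (fun j _ => sq_nonneg _) (mem_univ i)

theorem nrm_mono {x y : Fin k → ℝ} (h : ∀ i, |x i| ≤ |y i|) : nrm x ≤ nrm y := by
  refine Real.sqrt_le_sqrt (Finset.sum_le_sum fun i _ => ?_)
  exact sq_le_sq.2 (h i)

theorem measurable_nrm : Measurable (nrm : (Fin k → ℝ) → ℝ) := by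
  unfold nrm
  refine Real.continuous_sqrt.measurable.comp ?_
  exact Finset.measurable_sum _ fun i _ => (measurable_pi_apply i).pow_const 2

theorem abs_max_sub_max (a b : ℝ) : |max a 0 - max b 0| ≤ |a - b| := abs_max_sub_max_le_abs a b 0

/-- One step moves two chains apart by at most the differences of the drivers. -/
theorem nrm_kwStep_sub (v w : Fin k → ℝ) (s s' t t' : ℝ) :
    nrm (kwStep v s t - kwStep w s' t') ≤ nrm (v - w) + |s - s'| + √k * |t - t'| := by
  have h1 : nrm (kwStep v s t - kwStep w s' t') ≤ nrm (after v s t - after w s' t') := by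
    refine Real.sqrt_le_sqrt ?_
    exact sorted_contract _ _
  have h2 : nrm (after v s t - after w s' t')
      ≤ nrm ((v - w) + (fun i : Fin k => if (i : ℕ) = 0 then s - s' else 0)
        + (fun _ : Fin k => -(t - t'))) := by
    refine nrm_mono fun i => ?_
    simp only [Pi.sub_apply, Pi.add_apply, after]
    refine (abs_max_sub_max _ _).trans (le_of_eq ?_)
    congr 1
    split_ifs <;> ring
  have h3 : nrm (fun i : Fin k => if (i : ℕ) = 0 then s - s' else 0) ≤ |s - s'| := by
    unfold nrm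
    rw [← Real.sqrt_sq_eq_abs]
    refine Real.sqrt_le_sqrt ?_
    rcases k with _ | k
    · simp; positivity
    · rw [Finset.sum_eq_single (0 : Fin (k + 1))]
      · simp
      · intro b _ hb
        have : (b : ℕ) ≠ 0 := fun h => hb (Fin.ext (by simpa using h))
        simp [this]
      · intro h; exact absurd (mem_univ _) h
  have h4 : nrm (fun _ : Fin k => -(t - t')) ≤ √k * |t - t'| := by
    unfold nrm
    rw [Finset.sum_const, Finset.card_univ, Fintype.card_fin, nsmul_eq_mul, neg_sq,
      Real.sqrt_mul (Nat.cast_nonneg k), Real.sqrt_sq_eq_abs]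
  calc nrm (kwStep v s t - kwStep w s' t') ≤ _ := h1.trans h2
    _ ≤ _ := nrm_add_le _ _
    _ ≤ _ := add_le_add (nrm_add_le _ _) le_rfl
    _ ≤ _ := by linarith

end norm

end Pool.Agent.K9h80.GQ
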